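import Mathlib

/-!
Project HR (row MP_b47bfb_co): Hadwiger's conjecture for randomly thinned graphs.
Statements of the jobs.
-/

set_option autoImplicit false

namespace Pool.Agent.J4H23.HR

open Finset Classical

universe u

/-- degree of `v` into the set `S` -/
noncomputable def dg {V : Type u} [Fintype V] (G : SimpleGraph V) (S : Finset V) (v : V) : ℕ :=
  (S.filter (fun y => G.Adj v y)).card

/-- `G` has a clique minor of order `m`: `m` pairwise disjoint connected vertex sets, any two of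
them joined by an edge -/
def HasCliqueMinor {V : Type u} (G : SimpleGraph V) (m : ℕ) : Prop :=
  ∃ B : Fin m → Set V, (∀ i, (G.induce (B i)).Connected) ∧
    (∀ i j, i ≠ j → Disjoint (B i) (B j)) ∧
    ∀ i j, i ≠ j → ∃ u ∈ B i, ∃ w ∈ B j, G.Adj u w

/-! ## Kostochka–Thomason -/

/-- the highly connected dense subgraph `S` (degrees more than `K / 2`, at most `2 K` vertices, and
no separator with at most `K / 4` vertices) -/
def Good {V : Type u} [Fintype V] (G : SimpleGraph V) (K : ℕ) (S : Finset V) : Prop :=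
  S.Nonempty ∧ S.card ≤ 2 * K ∧ (∀ v ∈ S, K < 2 * dg G S v) ∧
    ∀ Z P Q : Finset V, Z.card ≤ K / 4 → P.Nonempty → Q.Nonempty → Disjoint P Q →
      P ∪ Q = S \ Z → ∃ x ∈ P, ∃ y ∈ Q, G.Adj x y

/-- KCONN (Mader; Diestel Theorem 1.4.3). Proof: `k = K / 4`; among the `S` with `2 k ≤ |S|` and
`K |S| < e(S) + K k` (`e(S) = ∑_{v ∈ S} dg G S v`, twice the number of edges) take one of smallest
cardinality. `S = univ` is one. -/
def S_KCONN : Prop := ∀ (V : Type) [Fintype V] (G : SimpleGraph V) (K : ℕ), 4 ≤ K →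
  Fintype.card V ≤ 2 * K → 0 < Fintype.card V → (∀ v, K ≤ dg G univ v) →
  ∃ S : Finset V, Good G K S

/-- DIAM: two vertices of `S \ Z` are joined by a path of length at most 21 (a shortest path
`x_0 ... x_L` in the graph induced on `S \ Z`: the closed neighbourhoods of `x_0, x_3, x_6, ...` are
disjoint, each has more than `K / 4` vertices, and there are at most `2 K` vertices). -/
def S_DIAM : Prop := ∀ (V : Type) [Fintype V] (G : SimpleGraph V) (K : ℕ) (S Z : Finset V),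
  4 ≤ K → Good G K S → Z.card ≤ K / 4 → ∀ x ∈ S \ Z, ∀ y ∈ S \ Z,
  ∃ P : Finset V, P ⊆ S \ Z ∧ x ∈ P ∧ y ∈ P ∧ P.card ≤ 24 ∧
    (G.induce (P : Set V)).Connected

/-- STEP: a small set `X` outside `Z`, not contained in any of the sets of `L`, and with few
vertices of `S` without a neighbour in `X`. Proof: count the functions `Fin s → S \ Z`. -/
def S_STEP : Prop := ∀ (V : Type) [Fintype V] (G : SimpleGraph V) (K s : ℕ) (S Z : Finset V)
  (L : Finset (Finset V)), 4 ≤ K → Good G K S → Z.card ≤ K / 4 → L.card ≤ K →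
  (∀ A ∈ L, (A.card : ℝ) ≤ 2 * S.card * (7 / 8 : ℝ) ^ s) → 24 ≤ s →
  16 * Real.log (2 * K) ≤ (s : ℝ) ^ 2 →
  ∃ X : Finset V, X ⊆ S \ Z ∧ X.Nonempty ∧ X.card ≤ s ∧ (∀ A ∈ L, ¬ X ⊆ A) ∧
    ((S.filter (fun u => ∀ x ∈ X, ¬ G.Adj u x)).card : ℝ) ≤ 2 * S.card * (7 / 8 : ℝ) ^ s

/-- SEL: the clique minor in a good set -/
def S_SEL : Prop := ∀ (V : Type) [Fintype V] (G : SimpleGraph V) (K s t : ℕ) (S : Finset V),
  4 ≤ K → Good G K S → 24 ≤ s → 16 * Real.log (2 * K) ≤ (s : ℝ) ^ 2 → 24 * s * t ≤ K / 4 →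
  HasCliqueMinor G t

/-- KT: **the theorem of Kostochka and Thomason** -/
def S_KT : Prop := ∃ c : ℝ, 0 < c ∧ ∀ (V : Type) [Fintype V] (G : SimpleGraph V) (d : ℝ),
  2 ≤ d → 0 < Fintype.card V → d * Fintype.card V ≤ ∑ v, (dg G univ v : ℝ) →
  ∀ m : ℕ, (m : ℝ) ≤ c * d / √(Real.log d) → HasCliqueMinor G m

/-! ## Random subsets -/

/-- expectation of `f` for the random subset `F` of `E` which contains every `e ∈ E`
independently with probability `p e` -/
noncomputable def Ex {α : Type u} (E : Finset α) (p : α → ℝ) (f : Finset α → ℝ) : ℝ :=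
  ∑ F ∈ E.powerset, ((∏ e ∈ F, p e) * ∏ e ∈ E \ F, (1 - p e)) * f F

/-- probability of an event -/
noncomputable def Pr {α : Type u} (E : Finset α) (p : α → ℝ) (A : Finset α → Prop) : ℝ :=
  Ex E p (fun F => if A F then 1 else 0)

/-- the pairs inside `S` -/
noncomputable def prs {V : Type u} [Fintype V] (S : Finset V) : Finset (Sym2 V) :=
  (S ×ˢ S).image (fun x => s(x.1, x.2)) |>.filter (fun e => ¬ e.IsDiag)

/-- expected degree of `v` into `S` -/
noncomputable def wd {V : Type u} (p : Sym2 V → ℝ) (S : Finset V) (v : V) : ℝ :=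
  ∑ u ∈ S.erase v, p s(v, u)

/-- a set which can be built by adding vertices of weight at most `κ` into the earlier ones -/
inductive Deg {V : Type u} (p : Sym2 V → ℝ) (κ : ℝ) : Finset V → Prop
  | empty : Deg p κ ∅
  | insert (v : V) (S : Finset V) : v ∉ S → Deg p κ S → wd p S v ≤ κ → Deg p κ (insert v S)

/-- colourable inside `S` with `k` colours -/
def ColIn {V : Type u} (F : Finset (Sym2 V)) (S : Finset V) (k : ℕ) : Prop :=
  ∃ c : V → Fin k, ∀ u ∈ S, ∀ v ∈ S, u ≠ v → s(u, v) ∈ F → c u ≠ c v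

/-- GREEDY: random graphs with expected degeneracy at most `κ` -/
def S_GREEDY : Prop := ∀ (V : Type) [Fintype V] (p : Sym2 V → ℝ) (ε κ : ℝ) (k : ℕ) (S : Finset V),
  0 < ε → ε ≤ 1 / 2 → (∀ e, 0 ≤ p e ∧ p e ≤ 1 - ε) → 1 ≤ k → 0 ≤ κ → Deg p κ S →
  Pr (prs S) p (fun F => ¬ ColIn F S k) ≤
    S.card * Real.exp (-(k * Real.exp (-(2 * Real.log (1 / ε) * κ / k))))

/-- CHER: lower tail of the number of elements -/
def S_CHER : Prop := ∀ (α : Type) (E : Finset α) (p : α → ℝ), (∀ e ∈ E, 0 ≤ p e ∧ p e ≤ 1) →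
  Pr E p (fun F => (F.card : ℝ) ≤ (∑ e ∈ E, p e) / 2) ≤ Real.exp (-(∑ e ∈ E, p e) / 8)

end Pool.Agent.J4H23.HR
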