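import Mathlib
import Pool.Agent.J4H23.HR.Stm
import Pool.Agent.R34.FH.Mader

set_option autoImplicit false

namespace Pool.Agent.J4H23.HR

open Finset Classical
open Pool.Agent.TH507.Host Pool.Agent.R34.Ident

lemma minor_iff {V : Type} (G : SimpleGraph V) (m : ℕ) :
    IsMinor (⊤ : SimpleGraph (Fin m)) G ↔ HasCliqueMinor G m := Iff.rfl

lemma HasCliqueMinor.mono {V : Type} {G : SimpleGraph V} {m m' : ℕ} (h : HasCliqueMinor G m)
    (hm : m' ≤ m) : HasCliqueMinor G m' := by
  obtain ⟨B, h1, h2, h3⟩ := h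
  refine ⟨fun i => B (Fin.castLE hm i), fun i => h1 _, fun i j hij => h2 _ _ ?_,
    fun i j hij => h3 _ _ ?_⟩
  · intro h
    exact hij (Fin.castLE_injective hm h)
  · intro h
    exact hij (Fin.castLE_injective hm h)

lemma HasCliqueMinor.zero {V : Type} (G : SimpleGraph V) : HasCliqueMinor G 0 :=
  ⟨fun i => i.elim0, fun i => i.elim0, fun i => i.elim0, fun i => i.elim0⟩

theorem kt_of (hC : S_KCONN) (hS : S_SEL) : S_KT := by
  refine ⟨1 / 20000, by norm_num, ?_⟩
  intro V _ G d hd hV hsum m hm
  have hlog2 : (0.6931471803 : ℝ) < Real.log 2 := Real.log_two_gt_d9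
  have hlogd : Real.log 2 ≤ Real.log d := Real.log_le_log (by norm_num) hd
  have hsq : (4 / 5 : ℝ) ≤ √(Real.log d) := by
    apply Real.le_sqrt_of_sq_le
    norm_num
    linarith
  have hsq0 : 0 < √(Real.log d) := by linarith
  rw [le_div_iff₀ hsq0] at hm
  by_cases hd16 : d < 16
  · have h1 : (m : ℝ) < 1 := by
      by_contra hcon
      push Not at hcon
      nlinarith
    have h2 : m = 0 := by
      have : m < 1 := by exact_mod_cast h1
      omega
    rw [h2]
    exact HasCliqueMinor.zero G
  push Not at hd16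
  set K := ⌊d / 2⌋₊ with hKdef
  have hK1 : (K : ℝ) ≤ d / 2 := Nat.floor_le (by linarith)
  have hK2 : d / 2 < K + 1 := Nat.lt_floor_add_one _
  have hK7 : 7 ≤ K := by
    have : (6 : ℝ) < K := by linarith
    exact_mod_cast this
  obtain ⟨A, hA, D, hD, hA0, hA1, hdeg⟩ := Pool.Agent.R34.FH.mader K (by omega) _ V G le_rfl hV
    (by
      have h1 : ((2 * K * Fintype.card V : ℕ) : ℝ) ≤ (Pool.Agent.R34.FH.pr G : ℝ) := by
        rw [Pool.Agent.R34.FH.pr_eq]
        push_cast
        have h2 : (∑ v, ((Pool.Agent.R34.FH.nb G v).card : ℝ)) = ∑ v, (dg G univ v : ℝ) := by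
          apply sum_congr rfl
          intro v _
          rfl
        rw [h2]
        refine le_trans ?_ hsum
        have : (0 : ℝ) ≤ Fintype.card V := Nat.cast_nonneg _
        nlinarith
      exact_mod_cast h1)
  obtain ⟨S, hG⟩ := hC A D K (by omega) hA1 hA0 hdeg
  set s := 24 + ⌈4 * √(Real.log (2 * K))⌉₊ with hs
  have hs1 : 4 * √(Real.log (2 * K)) ≤ s := by
    have := Nat.le_ceil (4 * √(Real.log (2 * K)))
    rw [hs]
    push_cast
    linarith
  have hs2 : (s : ℝ) ≤ 25 + 4 * √(Real.log (2 * K)) := by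
    have := Nat.ceil_lt_add_one (a := 4 * √(Real.log (2 * K))) (by positivity)
    rw [hs]
    push_cast
    linarith
  have hKd : √(Real.log (2 * K)) ≤ √(Real.log d) := by
    apply Real.sqrt_le_sqrt
    apply Real.log_le_log
    · have : (0 : ℝ) < K := by
        have : 0 < K := by omega
        exact_mod_cast this
      linarith
    · linarith
  have hs3 : (s : ℝ) ≤ 36 * √(Real.log d) := by linarith
  have hs4 : 16 * Real.log (2 * K) ≤ (s : ℝ) ^ 2 := by
    have h1 : 0 ≤ Real.log (2 * (K : ℝ)) := by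
      apply Real.log_nonneg
      have : (1 : ℝ) ≤ K := by
        have : 1 ≤ K := by omega
        exact_mod_cast this
      linarith
    calc 16 * Real.log (2 * K) = (4 * √(Real.log (2 * K))) ^ 2 := by
          rw [mul_pow, Real.sq_sqrt h1]
          norm_num
      _ ≤ (s : ℝ) ^ 2 := pow_le_pow_left₀ (by positivity) hs1 2
  set t := (K / 4) / (24 * s) with ht
  have ht1 : 24 * s * t ≤ K / 4 := Nat.mul_div_le _ _
  have ht2 : K / 4 < 24 * s * (t + 1) := by
    have h24 : 0 < 24 * s := by omega
    have := Nat.lt_mul_div_succ (K / 4) h24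
    exact this
  have h1 := hS A D K s t S (by omega) hG (by omega) hs4 ht1
  have h2 : HasCliqueMinor G t := (minor_iff G t).1 (minor_trans ((minor_iff D t).2 h1) hD)
  apply h2.mono
  have h3 : K ≤ 96 * s * (t + 1) := by
    have : 96 * s * (t + 1) = 4 * (24 * s * (t + 1)) := by ring
    omega
  have h4 : (K : ℝ) ≤ 96 * s * (t + 1) := by exact_mod_cast h3
  have h5 : (m : ℝ) < t + 1 := by
    by_contra hcon
    push Not at hcon
    have h6 : (K : ℝ) ≤ 96 * (36 * √(Real.log d)) * m := by
      refine h4.trans ?_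
      apply mul_le_mul _ hcon (by positivity) (by positivity)
      linarith
    nlinarith
  have h6 : m < t + 1 := by exact_mod_cast h5
  omega

end Pool.Agent.J4H23.HR
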