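import Mathlib
import Pool.Agent.J4H23.HR.Kt

set_option autoImplicit false

namespace Pool.Agent.J4H23.HR

open Finset Classical

/-- `F` together with a vertex adjacent to everything -/
def cone {M : ℕ} (F : SimpleGraph (Fin M)) : SimpleGraph (Fin (M + 1)) where
  Adj u v := u ≠ v ∧ (u = 0 ∨ v = 0 ∨ ∃ a b : Fin M, u = a.succ ∧ v = b.succ ∧ F.Adj a b)
  symm := ⟨by
    rintro u v ⟨h, h1 | h1 | ⟨a, b, h1, h2, h3⟩⟩
    · exact ⟨h.symm, Or.inr (Or.inl h1)⟩
    · exact ⟨h.symm, Or.inl h1⟩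
    · exact ⟨h.symm, Or.inr (Or.inr ⟨b, a, h2, h1, h3.symm⟩)⟩⟩
  loopless := ⟨fun _ h => h.1 rfl⟩

lemma cone_succ {M : ℕ} {F : SimpleGraph (Fin M)} {a b : Fin M} :
    (cone F).Adj a.succ b.succ ↔ F.Adj a b := by
  constructor
  · rintro ⟨-, h | h | ⟨a', b', h1, h2, h3⟩⟩
    · exact absurd h (Fin.succ_ne_zero _)
    · exact absurd h (Fin.succ_ne_zero _)
    · rw [Fin.succ_inj] at h1 h2
      rw [h1, h2]
      exact h3
  · intro h
    exact ⟨fun h' => h.ne (Fin.succ_inj.1 h'), Or.inr (Or.inr ⟨a, b, rfl, rfl, h⟩)⟩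

lemma cone_zero {M : ℕ} {F : SimpleGraph (Fin M)} {a : Fin M} : (cone F).Adj 0 a.succ :=
  ⟨(Fin.succ_ne_zero _).symm, Or.inl rfl⟩

lemma cone_col {M k : ℕ} {F : SimpleGraph (Fin M)} (h : (cone F).Colorable (k + 1)) :
    F.Colorable k := by
  obtain ⟨c⟩ := h
  have hne : ∀ a : Fin M, c a.succ ≠ c 0 := fun a h => c.valid cone_zero h.symm
  refine ⟨SimpleGraph.Coloring.mk (fun a => (finSuccAboveEquiv (c 0)).symm ⟨c a.succ, hne a⟩) ?_⟩
  intro a b hab h
  have h1 := (finSuccAboveEquiv (c 0)).symm.injective h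
  rw [Subtype.mk.injEq] at h1
  exact c.valid (cone_succ.2 hab) h1

lemma cone_minor {M k : ℕ} {F : SimpleGraph (Fin M)} (h : HasCliqueMinor (cone F) (k + 1)) :
    HasCliqueMinor F k := by
  obtain ⟨B, h1, h2, h3⟩ := h
  obtain ⟨j, hj⟩ : ∃ j : Fin (k + 1), ∀ i, i ≠ j → (0 : Fin (M + 1)) ∉ B i := by
    by_cases hex : ∃ j, (0 : Fin (M + 1)) ∈ B j
    · obtain ⟨j, hj⟩ := hex
      exact ⟨j, fun i hi h => Set.disjoint_left.1 (h2 i j hi) h hj⟩
    · push Not at hex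
      exact ⟨0, fun i _ => hex i⟩
  have hsucc : ∀ i : Fin k, ∀ x ∈ B (j.succAbove i), ∃ a : Fin M, x = a.succ := by
    intro i x hx
    have hx0 : x ≠ 0 := by
      rintro rfl
      exact hj _ (Fin.succAbove_ne j i) hx
    exact ⟨x.pred hx0, (Fin.succ_pred x hx0).symm⟩
  refine ⟨fun i => {a | a.succ ∈ B (j.succAbove i)}, ?_, ?_, ?_⟩
  · intro i
    rw [SimpleGraph.connected_iff_exists_forall_reachable]
    obtain ⟨⟨x, hx⟩⟩ := (h1 (j.succAbove i)).nonempty
    obtain ⟨a, rfl⟩ := hsucc i x hx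
    refine ⟨⟨a, hx⟩, ?_⟩
    rintro ⟨b, hb⟩
    let φ : (cone F).induce (B (j.succAbove i)) →g F.induce {a | a.succ ∈ B (j.succAbove i)} :=
      { toFun := fun y => ⟨y.1.pred (by
          intro h
          have := y.2
          rw [h] at this
          exact hj _ (Fin.succAbove_ne j i) this), by
            show (Fin.succ _) ∈ B _
            rw [Fin.succ_pred]
            exact y.2⟩
        map_rel' := by
          rintro ⟨y, hy⟩ ⟨z, hz⟩ hyz
          obtain ⟨a', rfl⟩ := hsucc i y hy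
          obtain ⟨b', rfl⟩ := hsucc i z hz
          have h4 : (cone F).Adj a'.succ b'.succ := hyz
          rw [cone_succ] at h4
          show F.Adj _ _
          simpa using h4 }
    have h5 := ((h1 (j.succAbove i)).preconnected ⟨a.succ, hx⟩ ⟨b.succ, hb⟩).map φ
    have h6 : φ ⟨a.succ, hx⟩ = ⟨a, hx⟩ := Subtype.ext (Fin.pred_succ (h := Fin.succ_ne_zero a) a)
    have h7 : φ ⟨b.succ, hb⟩ = ⟨b, hb⟩ := Subtype.ext (Fin.pred_succ (h := Fin.succ_ne_zero b) b)
    rwa [h6, h7] at h5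
  · intro i i' hii
    rw [Set.disjoint_left]
    intro a ha ha'
    exact Set.disjoint_left.1 (h2 _ _ (fun h => hii (Fin.succAbove_right_injective h))) ha ha'
  · intro i i' hii
    obtain ⟨u, hu, w, hw, huw⟩ := h3 _ _ (fun h => hii (Fin.succAbove_right_injective h))
    obtain ⟨a, rfl⟩ := hsucc i u hu
    obtain ⟨b, rfl⟩ := hsucc i' w hw
    exact ⟨a, hu, b, hw, cone_succ.1 huw⟩

/-- counterexamples can be made larger -/
lemma iter_cone {m k j : ℕ} (F : SimpleGraph (Fin m)) (h1 : ¬ F.Colorable k)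
    (h2 : ¬ HasCliqueMinor F (k + j)) (r : ℕ) : ∃ F' : SimpleGraph (Fin (m + r)),
      ¬ F'.Colorable (k + r) ∧ ¬ HasCliqueMinor F' (k + r + j) := by
  induction r with
  | zero => exact ⟨F, h1, h2⟩
  | succ r ih =>
    obtain ⟨F', h3, h4⟩ := ih
    refine ⟨cone F', fun h => h3 (cone_col h), fun h => h4 (cone_minor ?_)⟩
    have e : k + (r + 1) + j = k + r + j + 1 := by ring
    rw [← e]
    exact h

end Pool.Agent.J4H23.HR
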