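import Mathlib
import Pool.Agent.J4H23.HR.Stm

/-!
The random graph and the final statements.
-/

set_option autoImplicit false

namespace Pool.Agent.J4H23.HR

open Finset Classical

/-- probability that the random graph `H` on `V`, in which every pair `e` of vertices is an edge
independently with probability `p e`, has the property `A` -/
noncomputable def prob {V : Type} [Fintype V] (p : Sym2 V → ℝ) (A : SimpleGraph V → Prop) : ℝ :=
  ∑ H : SimpleGraph V, if A H then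
    ∏ e : Sym2 V, (if e.IsDiag then 1 else if e ∈ H.edgeSet then p e else 1 - p e) else 0

/-- `G` with every edge deleted independently with probability `ε` -/
noncomputable def thin {V : Type} (ε : ℝ) (G : SimpleGraph V) : Sym2 V → ℝ :=
  fun e => if e ∈ G.edgeSet then 1 - ε else 0

/-- the transfer to random subsets -/
def S_TRANS : Prop := ∀ (V : Type) [Fintype V] (p : Sym2 V → ℝ) (A : SimpleGraph V → Prop),
  prob p A = Pr (prs univ) p (fun F => A (SimpleGraph.fromEdgeSet (F : Set (Sym2 V))))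

/-- main theorem -/
def S_MAIN : Prop := ∀ δ : ℝ, 0 < δ → ∃ c : ℝ, 0 < c ∧ ∀ B : ℕ, ∃ n₀ : ℕ,
  ∀ (V : Type) [Fintype V] (p : Sym2 V → ℝ) (ε : ℝ), n₀ ≤ Fintype.card V →
  0 < ε → ε ≤ 1 / 2 → (∀ e, 0 ≤ p e ∧ p e ≤ 1 - ε) →
  prob p (fun H => ∃ k m : ℕ, (Real.log (Fintype.card V)) ^ (1 / 2 + δ) ≤ k ∧ 1 / ε ≤ k ∧
    (m : ℝ) ≤ c * k * √(Real.log k) / Real.log (1 / ε) ∧ ¬ H.Colorable k ∧
      ¬ HasCliqueMinor H m) ≤ 1 / (Fintype.card V : ℝ) ^ B

/-- host form -/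
def S_HOST : Prop := ∀ δ : ℝ, 0 < δ → ∃ c : ℝ, 0 < c ∧ ∀ B : ℕ, ∃ n₀ : ℕ,
  ∀ (V : Type) [Fintype V] (G : SimpleGraph V) (ε : ℝ) (d : ℕ), n₀ ≤ Fintype.card V →
  (Real.log (Fintype.card V)) ^ (1 / 2 + δ) ≤ d → ¬ G.Colorable d →
  Real.exp (-(c * √(Real.log d))) ≤ ε → ε ≤ 1 / 2 →
  prob (thin ε G) (fun H => ∃ k : ℕ, ¬ H.Colorable k ∧ ¬ HasCliqueMinor H (k + 1)) ≤
    1 / (Fintype.card V : ℝ) ^ B

/-- equivalence below the threshold -/
def S_EQUIV : Prop := (∃ n₀ : ℕ, ∀ (V : Type) [Fintype V] (G : SimpleGraph V) (d : ℕ),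
    n₀ ≤ Fintype.card V → √(Real.logb 2 (Fintype.card V)) / 2 ≤ d → ¬ G.Colorable d →
    prob (thin (1 / 2) G) (fun H => ∃ k : ℕ, ¬ H.Colorable k ∧ ¬ HasCliqueMinor H k) ≤
      1 - 1 / (Fintype.card V : ℝ)) →
  ∀ (V : Type) [Fintype V] (G : SimpleGraph V) (k : ℕ), ¬ G.Colorable k → HasCliqueMinor G k

end Pool.Agent.J4H23.HR
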