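import Mathlib
import Pool.Agent.J4H23.HR.Stm

set_option autoImplicit false

namespace Pool.Agent.J4H23.HR

open Finset Classical

universe u

variable {α : Type u}

lemma Ex_empty (p : α → ℝ) (f : Finset α → ℝ) : Ex ∅ p f = f ∅ := by
  simp [Ex]

lemma Ex_insert {e : α} {E : Finset α} (he : e ∉ E) (p : α → ℝ) (f : Finset α → ℝ) :
    Ex (insert e E) p f = (1 - p e) * Ex E p f + p e * Ex E p (fun F => f (insert e F)) := by
  unfold Ex
  rw [sum_powerset_insert he, mul_sum, mul_sum]
  congr 1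
  · apply sum_congr rfl
    intro F hF
    have hF' := mem_powerset.1 hF
    have h1 : insert e E \ F = insert e (E \ F) := insert_sdiff_of_notMem _ (fun h => he (hF' h))
    have h2 : e ∉ E \ F := fun h => he (mem_sdiff.1 h).1
    rw [h1, prod_insert h2]
    ring
  · apply sum_congr rfl
    intro F hF
    have hF' := mem_powerset.1 hF
    have h1 : insert e E \ insert e F = E \ F := by
      rw [insert_sdiff_insert, sdiff_insert_of_notMem he]
    rw [h1, prod_insert (fun h => he (hF' h))]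
    ring

lemma Ex_mono {E : Finset α} {p : α → ℝ} (hp : ∀ e ∈ E, 0 ≤ p e ∧ p e ≤ 1)
    {f g : Finset α → ℝ} (h : ∀ F ⊆ E, f F ≤ g F) : Ex E p f ≤ Ex E p g := by
  unfold Ex
  apply sum_le_sum
  intro F hF
  have hF' := mem_powerset.1 hF
  apply mul_le_mul_of_nonneg_left (h F hF')
  apply mul_nonneg
  · exact prod_nonneg (fun e he => (hp e (hF' he)).1)
  · exact prod_nonneg (fun e he => sub_nonneg.2 (hp e (mem_sdiff.1 he).1).2)

lemma Ex_congr {E : Finset α} {p : α → ℝ} {f g : Finset α → ℝ} (h : ∀ F ⊆ E, f F = g F) :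
    Ex E p f = Ex E p g := by
  unfold Ex
  apply sum_congr rfl
  intro F hF
  rw [h F (mem_powerset.1 hF)]

lemma Ex_const_mul (E : Finset α) (p : α → ℝ) (c : ℝ) (f : Finset α → ℝ) :
    Ex E p (fun F => c * f F) = c * Ex E p f := by
  unfold Ex
  rw [mul_sum]
  apply sum_congr rfl
  intro F _
  ring

lemma Ex_add (E : Finset α) (p : α → ℝ) (f g : Finset α → ℝ) :
    Ex E p (fun F => f F + g F) = Ex E p f + Ex E p g := by
  unfold Ex
  rw [← sum_add_distrib]
  apply sum_congr rfl
  intro F _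
  ring

lemma Ex_sum {ι : Type*} (s : Finset ι) (E : Finset α) (p : α → ℝ) (f : ι → Finset α → ℝ) :
    Ex E p (fun F => ∑ i ∈ s, f i F) = ∑ i ∈ s, Ex E p (f i) := by
  unfold Ex
  rw [sum_comm]
  apply sum_congr rfl
  intro F _
  rw [mul_sum]

lemma Ex_const (E : Finset α) (p : α → ℝ) (c : ℝ) : Ex E p (fun _ => c) = c := by
  induction E using Finset.induction_on with
  | empty => rw [Ex_empty]
  | insert e E he ih =>
    rw [Ex_insert he, ih]
    ring

/-- the product formula -/
lemma Ex_union {E₁ E₂ : Finset α} (h : Disjoint E₁ E₂) (p : α → ℝ) (f : Finset α → ℝ) :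
    Ex (E₁ ∪ E₂) p f = Ex E₁ p (fun F => Ex E₂ p (fun F' => f (F ∪ F'))) := by
  induction E₂ using Finset.induction_on generalizing f with
  | empty =>
    rw [union_empty]
    apply Ex_congr
    intro F _
    rw [Ex_empty, union_empty]
  | insert e E he ih =>
    rw [disjoint_insert_right] at h
    have h1 : e ∉ E₁ ∪ E := by
      rw [mem_union, not_or]
      exact ⟨h.1, he⟩
    rw [union_insert, Ex_insert h1, ih h.2, ih h.2]
    have h2 : ∀ F, Ex (insert e E) p (fun F' => f (F ∪ F')) =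
        (1 - p e) * Ex E p (fun F' => f (F ∪ F')) + p e * Ex E p (fun F' => f (F ∪ insert e F')) :=
      fun F => Ex_insert he p _
    simp_rw [h2]
    rw [Ex_add, Ex_const_mul, Ex_const_mul]
    congr 2
    apply Ex_congr
    intro F _
    apply Ex_congr
    intro F' _
    rw [union_insert]

/-- functions which depend only on a part of the set -/
lemma Ex_inter {E E' : Finset α} (h : E' ⊆ E) (p : α → ℝ) (f : Finset α → ℝ) :
    Ex E p (fun F => f (F ∩ E')) = Ex E' p f := by
  have h1 : E = E' ∪ (E \ E') := (union_sdiff_of_subset h).symm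
  rw [h1, Ex_union disjoint_sdiff]
  apply Ex_congr
  intro F hF
  rw [← Ex_const (E \ E') p (f F)]
  apply Ex_congr
  intro F' hF'
  congr 1
  ext x
  simp only [mem_inter, mem_union]
  constructor
  · rintro ⟨h2 | h2, h3⟩
    · exact h2
    · exact absurd h3 (mem_sdiff.1 (hF' h2)).2
  · intro h2
    exact ⟨Or.inl h2, hF h2⟩

lemma Pr_mono {E : Finset α} {p : α → ℝ} (hp : ∀ e ∈ E, 0 ≤ p e ∧ p e ≤ 1)
    {A B : Finset α → Prop} (h : ∀ F ⊆ E, A F → B F) : Pr E p A ≤ Pr E p B := by
  unfold Pr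
  apply Ex_mono hp
  intro F hF
  by_cases hA : A F
  · simp [hA, h F hF hA]
  · simp only [hA, if_false]
    split_ifs <;> norm_num

lemma Pr_le_sum {ι : Type*} {E : Finset α} {p : α → ℝ} (hp : ∀ e ∈ E, 0 ≤ p e ∧ p e ≤ 1)
    (s : Finset ι) (A : ι → Finset α → Prop) :
    Pr E p (fun F => ∃ i ∈ s, A i F) ≤ ∑ i ∈ s, Pr E p (A i) := by
  unfold Pr
  rw [← Ex_sum]
  apply Ex_mono hp
  intro F _
  dsimp only
  by_cases h : ∃ i ∈ s, A i F
  · obtain ⟨i, hi, hA⟩ := h
    rw [if_pos ⟨i, hi, hA⟩]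
    have h3 := single_le_sum (s := s) (f := fun i => if A i F then (1 : ℝ) else 0)
      (fun j _ => by split_ifs <;> norm_num) hi
    rwa [if_pos hA] at h3
  · rw [if_neg h]
    exact sum_nonneg (fun j _ => by split_ifs <;> norm_num)

lemma Pr_inter {E E' : Finset α} (h : E' ⊆ E) (p : α → ℝ) (A : Finset α → Prop) :
    Pr E p (fun F => A (F ∩ E')) = Pr E' p A := by
  unfold Pr
  exact Ex_inter h p (fun F => if A F then (1 : ℝ) else 0)

lemma Pr_inter' [D : DecidableEq α] {E E' : Finset α} (h : E' ⊆ E) (p : α → ℝ)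
    (A : Finset α → Prop) : Pr E p (fun F => A (F ∩ E')) = Pr E' p A := by
  have hD : D = (fun a b => Classical.propDecidable (a = b)) := Subsingleton.elim _ _
  subst hD
  exact Pr_inter h p A

lemma Ex_half (E : Finset α) (p : α → ℝ) :
    Ex E p (fun F => (1 / 2 : ℝ) ^ F.card) = ∏ e ∈ E, (1 - p e / 2) := by
  induction E using Finset.induction_on with
  | empty => rw [Ex_empty]; simp
  | insert e E he ih =>
    rw [Ex_insert he, ih, prod_insert he]
    have h1 : Ex E p (fun F => (1 / 2 : ℝ) ^ (insert e F).card) =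
        1 / 2 * ∏ e ∈ E, (1 - p e / 2) := by
      rw [← ih, ← Ex_const_mul]
      apply Ex_congr
      intro F hF
      rw [card_insert_of_notMem (fun h => he (hF h)), pow_succ]
      ring
    rw [h1]
    ring

theorem cher (E : Finset α) (p : α → ℝ) (hp : ∀ e ∈ E, 0 ≤ p e ∧ p e ≤ 1) :
    Pr E p (fun F => (F.card : ℝ) ≤ (∑ e ∈ E, p e) / 2) ≤ Real.exp (-(∑ e ∈ E, p e) / 8) := by
  set μ := ∑ e ∈ E, p e with hμ
  have hμ0 : 0 ≤ μ := sum_nonneg (fun e he => (hp e he).1)
  have hlog2 : Real.log 2 < 0.6931471808 := Real.log_two_lt_d9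
  have h1 : Pr E p (fun F => (F.card : ℝ) ≤ μ / 2) ≤
      Real.exp (μ / 2 * Real.log 2) * Ex E p (fun F => (1 / 2 : ℝ) ^ F.card) := by
    rw [← Ex_const_mul]
    unfold Pr
    apply Ex_mono hp
    intro F _
    have h2 : ((1 / 2 : ℝ) ^ F.card) = Real.exp (-(F.card * Real.log 2)) := by
      rw [Real.exp_neg, Real.exp_nat_mul, Real.exp_log (by norm_num), one_div, inv_pow]
    rw [h2, ← Real.exp_add]
    split_ifs with h
    · rw [Real.one_le_exp_iff]
      have : 0 < Real.log 2 := Real.log_pos (by norm_num)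
      nlinarith
    · positivity
  refine h1.trans ?_
  rw [Ex_half]
  have h3 : ∏ e ∈ E, (1 - p e / 2) ≤ Real.exp (-μ / 2) := by
    calc ∏ e ∈ E, (1 - p e / 2) ≤ ∏ e ∈ E, Real.exp (-(p e / 2)) := by
          apply prod_le_prod
          · intro e he
            have := (hp e he).2
            linarith
          · intro e he
            have := Real.add_one_le_exp (-(p e / 2))
            linarith
      _ = Real.exp (-μ / 2) := by
          rw [← Real.exp_sum]
          congr 1
          rw [sum_neg_distrib, ← sum_div, hμ]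
          ring
  calc Real.exp (μ / 2 * Real.log 2) * ∏ e ∈ E, (1 - p e / 2)
      ≤ Real.exp (μ / 2 * Real.log 2) * Real.exp (-μ / 2) :=
        mul_le_mul_of_nonneg_left h3 (Real.exp_pos _).le
    _ = Real.exp (μ / 2 * Real.log 2 + -μ / 2) := by rw [Real.exp_add]
    _ ≤ Real.exp (-μ / 8) := by
        apply Real.exp_le_exp.2
        nlinarith

theorem t_CHER : S_CHER := fun _ E p hp => cher E p hp

end Pool.Agent.J4H23.HR
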