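import Mathlib
import Pool.Agent.J4H23.HR.Defs
import Pool.Agent.J4H23.HR.Ex
import Pool.Agent.J4H10.HR.Greedy

set_option autoImplicit false

namespace Pool.Agent.J4H23.HR

open Finset Classical

lemma mem_prs_univ {V : Type} [Fintype V] (e : Sym2 V) :
    e ∈ prs (univ : Finset V) ↔ ¬ e.IsDiag := by
  induction e using Sym2.ind with
  | _ a b =>
    rw [Pool.Agent.J4H10.HR.mem_prs]
    constructor
    · exact fun h => h.2
    · exact fun h => ⟨⟨a, mem_univ _, b, mem_univ _, rfl⟩, h⟩

/-- the edges of a graph -/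
noncomputable def ed {V : Type} [Fintype V] (H : SimpleGraph V) : Finset (Sym2 V) :=
  univ.filter (fun e => e ∈ H.edgeSet)

lemma mem_ed {V : Type} [Fintype V] {H : SimpleGraph V} {e : Sym2 V} :
    e ∈ ed H ↔ e ∈ H.edgeSet := by
  simp [ed]

lemma ed_sub {V : Type} [Fintype V] (H : SimpleGraph V) : ed H ⊆ prs univ := by
  intro e he
  rw [mem_prs_univ]
  exact H.not_isDiag_of_mem_edgeSet (mem_ed.1 he)

lemma from_ed {V : Type} [Fintype V] (H : SimpleGraph V) :
    SimpleGraph.fromEdgeSet ((ed H : Finset (Sym2 V)) : Set (Sym2 V)) = H := by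
  ext a b
  rw [SimpleGraph.fromEdgeSet_adj, mem_coe, mem_ed, SimpleGraph.mem_edgeSet]
  constructor
  · exact fun h => h.1
  · exact fun h => ⟨h, h.ne⟩

lemma ed_from {V : Type} [Fintype V] {F : Finset (Sym2 V)} (hF : F ⊆ prs univ) :
    ed (SimpleGraph.fromEdgeSet (F : Set (Sym2 V))) = F := by
  ext e
  rw [mem_ed]
  induction e using Sym2.ind with
  | _ a b =>
    rw [SimpleGraph.mem_edgeSet, SimpleGraph.fromEdgeSet_adj, mem_coe]
    constructor
    · exact fun h => h.1
    · intro h
      refine ⟨h, ?_⟩
      have := (mem_prs_univ _).1 (hF h)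
      rwa [Sym2.mk_isDiag_iff] at this

theorem t_TRANS : S_TRANS := by
  intro V _ p A
  unfold prob Pr Ex
  refine sum_bij' (fun H _ => ed H)
    (fun F _ => SimpleGraph.fromEdgeSet (F : Set (Sym2 V))) ?_ ?_ ?_ ?_ ?_
  · intro H _
    rw [mem_powerset]
    exact ed_sub H
  · intro F _
    exact mem_univ _
  · intro H _
    exact from_ed H
  · intro F hF
    exact ed_from (mem_powerset.1 hF)
  · intro H _
    simp only [from_ed]
    by_cases hA : A H
    · rw [if_pos hA, if_pos hA, mul_one]
      have h2 : ∏ e ∈ ed H, p e = ∏ e : Sym2 V, if e ∈ ed H then p e else 1 := by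
        rw [prod_ite_mem, univ_inter]
      have h3 : ∏ e ∈ prs univ \ ed H, (1 - p e) =
          ∏ e : Sym2 V, if e ∈ prs univ \ ed H then (1 - p e) else 1 := by
        rw [prod_ite_mem, univ_inter]
      rw [h2]
      suffices h : (∏ e : Sym2 V, (if e.IsDiag then 1 else if e ∈ H.edgeSet then p e else 1 - p e)) =
          (∏ e : Sym2 V, if e ∈ ed H then p e else 1) *
            ∏ e : Sym2 V, if e ∈ prs univ \ ed H then (1 - p e) else 1 by
        rw [h, ← h3]
        congr 1
        refine prod_congr (Finset.ext fun x => ?_) (fun _ _ => rfl)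
        simp only [mem_sdiff]
      rw [← prod_mul_distrib]
      apply prod_congr rfl
      intro e _
      by_cases hd : e.IsDiag
      · have h4 : e ∉ ed H := fun h => (mem_prs_univ _).1 (ed_sub H h) hd
        have h5 : e ∉ prs univ \ ed H := by
          rw [mem_sdiff, mem_prs_univ]
          tauto
        rw [if_pos hd, if_neg h4, if_neg h5, one_mul]
      · by_cases he : e ∈ H.edgeSet
        · have h4 : e ∈ ed H := mem_ed.2 he
          have h5 : e ∉ prs univ \ ed H := by
            rw [mem_sdiff]
            tauto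
          rw [if_neg hd, if_pos he, if_pos h4, if_neg h5, mul_one]
        · have h4 : e ∉ ed H := fun h => he (mem_ed.1 h)
          have h5 : e ∈ prs univ \ ed H := by
            rw [mem_sdiff, mem_prs_univ]
            exact ⟨hd, h4⟩
          rw [if_neg hd, if_neg he, if_neg h4, if_pos h5, one_mul]
    · rw [if_neg hA, if_neg hA, mul_zero]

end Pool.Agent.J4H23.HR
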