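import Mathlib
import Pool.Agent.J4H23.HR.Cone
import Pool.Agent.J4H23.HR.Trans

set_option autoImplicit false

namespace Pool.Agent.J4H23.HR

open Finset Classical

/-- `N` disjoint copies of `F` -/
def cop {M : ℕ} (F : SimpleGraph (Fin M)) (N : ℕ) : SimpleGraph (Fin N × Fin M) where
  Adj u v := u.1 = v.1 ∧ F.Adj u.2 v.2
  symm := ⟨fun _ _ h => ⟨h.1.symm, h.2.symm⟩⟩
  loopless := ⟨fun _ h => h.2.ne rfl⟩

lemma cop_const {M : ℕ} {F : SimpleGraph (Fin M)} {N : ℕ} {H : SimpleGraph (Fin N × Fin M)}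
    (hH : H ≤ cop F N) {s : Set (Fin N × Fin M)} (hs : (H.induce s).Connected)
    {x y : Fin N × Fin M} (hx : x ∈ s) (hy : y ∈ s) : x.1 = y.1 := by
  obtain ⟨w⟩ := hs.preconnected ⟨x, hx⟩ ⟨y, hy⟩
  have key : ∀ a b : s, (H.induce s).Walk a b → a.1.1 = b.1.1 := by
    intro a b w
    induction w with
    | nil => rfl
    | cons h _ ih => exact (hH h).1.trans ih
  exact key _ _ w

lemma cop_minor {M : ℕ} {F : SimpleGraph (Fin M)} {N K : ℕ} {H : SimpleGraph (Fin N × Fin M)}
    (hH : H ≤ cop F N) (hK : 0 < K) (h : HasCliqueMinor H K) : HasCliqueMinor F K := by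
  obtain ⟨B, h1, h2, h3⟩ := h
  obtain ⟨⟨x0, hx0⟩⟩ := (h1 ⟨0, hK⟩).nonempty
  have hall : ∀ j, ∀ x ∈ B j, x.1 = x0.1 := by
    intro j x hx
    by_cases hj : j = ⟨0, hK⟩
    · subst hj
      exact cop_const hH (h1 _) hx hx0
    · obtain ⟨u, hu, w, hw, huw⟩ := h3 j ⟨0, hK⟩ hj
      rw [cop_const hH (h1 _) hx hu, (hH huw).1]
      exact cop_const hH (h1 _) hw hx0
  refine ⟨fun j => {a | (x0.1, a) ∈ B j}, ?_, ?_, ?_⟩
  · intro j
    rw [SimpleGraph.connected_iff_exists_forall_reachable]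
    obtain ⟨⟨x, hx⟩⟩ := (h1 j).nonempty
    have hx' : (x0.1, x.2) ∈ B j := by
      rw [← hall j x hx]
      exact hx
    refine ⟨⟨x.2, hx'⟩, ?_⟩
    rintro ⟨b, hb⟩
    let φ : H.induce (B j) →g F.induce {a | (x0.1, a) ∈ B j} :=
      { toFun := fun y => ⟨y.1.2, by
          show (x0.1, y.1.2) ∈ B j
          rw [← hall j y.1 y.2]
          exact y.2⟩
        map_rel' := fun {y z} hyz => (hH hyz).2 }
    exact ((h1 j).preconnected ⟨x, hx⟩ ⟨(x0.1, b), hb⟩).map φ
  · intro i j hij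
    rw [Set.disjoint_left]
    intro a ha ha'
    exact Set.disjoint_left.1 (h2 i j hij) ha ha'
  · intro i j hij
    obtain ⟨u, hu, w, hw, huw⟩ := h3 i j hij
    refine ⟨u.2, ?_, w.2, ?_, (hH huw).2⟩
    · show (x0.1, u.2) ∈ B i
      rw [← hall i u hu]
      exact hu
    · show (x0.1, w.2) ∈ B j
      rw [← hall j w hw]
      exact hw

/-- the edges of the `i`-th copy -/
noncomputable def ce {M : ℕ} (F : SimpleGraph (Fin M)) (N : ℕ) (i : Fin N) :
    Finset (Sym2 (Fin N × Fin M)) :=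
  (ed F).image (Sym2.map (fun a => (i, a)))

lemma mem_ce {M : ℕ} {F : SimpleGraph (Fin M)} {N : ℕ} {i : Fin N}
    {e : Sym2 (Fin N × Fin M)} : e ∈ ce F N i ↔ ∃ a b, F.Adj a b ∧ e = s((i, a), (i, b)) := by
  unfold ce
  rw [mem_image]
  constructor
  · rintro ⟨e', he', rfl⟩
    induction e' using Sym2.ind with
    | _ a b =>
      rw [mem_ed, SimpleGraph.mem_edgeSet] at he'
      exact ⟨a, b, he', rfl⟩
  · rintro ⟨a, b, hab, rfl⟩
    exact ⟨s(a, b), mem_ed.2 hab, rfl⟩

lemma ce_card {M : ℕ} (F : SimpleGraph (Fin M)) (N : ℕ) (i : Fin N) :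
    (ce F N i).card ≤ M * (M + 1) / 2 := by
  refine card_image_le.trans ?_
  refine (card_le_univ _).trans ?_
  rw [Sym2.card, Fintype.card_fin, Nat.choose_two_right, Nat.add_sub_cancel, mul_comm]

lemma ce_disj {M : ℕ} (F : SimpleGraph (Fin M)) (N : ℕ) {i j : Fin N} (hij : i ≠ j) :
    Disjoint (ce F N i) (ce F N j) := by
  rw [Finset.disjoint_left]
  intro e h1 h2
  obtain ⟨a, b, -, rfl⟩ := mem_ce.1 h1
  obtain ⟨a', b', -, h⟩ := mem_ce.1 h2
  rw [Sym2.eq_iff] at h
  rcases h with ⟨h, -⟩ | ⟨h, -⟩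
  · exact hij (Prod.mk.inj h).1
  · exact hij (Prod.mk.inj h).1

/-- none of several disjoint sets is contained in the random set -/
lemma Pr_nosub {α ι : Type} (I : Finset ι) (E : ι → Finset α) (p : α → ℝ)
    (hd : ∀ i ∈ I, ∀ j ∈ I, i ≠ j → Disjoint (E i) (E j)) :
    Pr (I.biUnion E) p (fun F => ∀ i ∈ I, ¬ E i ⊆ F) = ∏ i ∈ I, (1 - ∏ e ∈ E i, p e) := by
  induction I using Finset.induction_on with
  | empty =>
    rw [prod_empty, biUnion_empty]
    unfold Pr
    rw [Ex_empty]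
    simp
  | insert i I hi ih =>
    have hd' : ∀ j ∈ I, ∀ k ∈ I, j ≠ k → Disjoint (E j) (E k) := fun j hj k hk =>
      hd j (mem_insert_of_mem hj) k (mem_insert_of_mem hk)
    have hdi : Disjoint (E i) (I.biUnion E) := by
      rw [disjoint_biUnion_right]
      intro j hj
      exact hd i (mem_insert_self _ _) j (mem_insert_of_mem hj) (fun h => hi (h ▸ hj))
    rw [prod_insert hi, biUnion_insert, ← ih hd']
    obtain ⟨A, hA⟩ : ∃ A : Finset α → Prop, A = fun F => ∀ j ∈ insert i I, ¬ E j ⊆ F := ⟨_, rfl⟩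
    obtain ⟨A', hA'⟩ : ∃ A' : Finset α → Prop, A' = fun F => ∀ j ∈ I, ¬ E j ⊆ F := ⟨_, rfl⟩
    rw [← hA, ← hA']
    unfold Pr
    rw [Ex_union hdi]
    have h1 : ∀ F₁ ⊆ E i, Ex (I.biUnion E) p (fun F' => if A (F₁ ∪ F') then (1 : ℝ) else 0) =
        (if F₁ = E i then 0 else 1) *
          Ex (I.biUnion E) p (fun F' => if A' F' then (1 : ℝ) else 0) := by
      intro F₁ hF₁
      rw [← Ex_const_mul]
      apply Ex_congr
      intro F' hF'
      have h2 : E i ⊆ F₁ ∪ F' ↔ F₁ = E i := by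
        constructor
        · intro h
          apply Subset.antisymm hF₁
          intro e he
          rcases mem_union.1 (h he) with h3 | h3
          · exact h3
          · exact absurd (hF' h3) (fun h4 => Finset.disjoint_left.1 hdi he h4)
        · rintro rfl
          exact subset_union_left
      have h3 : ∀ j ∈ I, (E j ⊆ F₁ ∪ F' ↔ E j ⊆ F') := by
        intro j hj
        constructor
        · intro h e he
          rcases mem_union.1 (h he) with h3 | h3
          · exact absurd (mem_biUnion.2 ⟨j, hj, he⟩)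
              (fun h4 => Finset.disjoint_left.1 hdi (hF₁ h3) h4)
          · exact h3
        · intro h
          exact h.trans subset_union_right
      have h4 : A (F₁ ∪ F') ↔ (¬ F₁ = E i) ∧ A' F' := by
        rw [hA, hA']
        dsimp only
        rw [forall_mem_insert, h2]
        constructor
        · rintro ⟨h5, h6⟩
          exact ⟨h5, fun j hj => by rw [← h3 j hj]; exact h6 j hj⟩
        · rintro ⟨h5, h6⟩
          exact ⟨h5, fun j hj => by rw [h3 j hj]; exact h6 j hj⟩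
      by_cases hF : F₁ = E i
      · rw [if_pos hF, zero_mul, if_neg]
        rw [h4]
        tauto
      · rw [if_neg hF, one_mul]
        by_cases h5 : A' F'
        · rw [if_pos h5, if_pos (h4.2 ⟨hF, h5⟩)]
        · rw [if_neg h5, if_neg (fun h => h5 (h4.1 h).2)]
    rw [Ex_congr h1]
    generalize Ex (I.biUnion E) p (fun F' => if A' F' then (1 : ℝ) else 0) = c
    have h6 : ∀ F₁ ⊆ E i, (if F₁ = E i then (0 : ℝ) else 1) * c =
        c + (-c) * (if F₁ = E i then 1 else 0) := by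
      intro F₁ _
      split_ifs <;> ring
    rw [Ex_congr h6, Ex_add, Ex_const, Ex_const_mul]
    have h7 : Ex (E i) p (fun F₁ => if F₁ = E i then (1 : ℝ) else 0) = ∏ e ∈ E i, p e := by
      unfold Ex
      rw [sum_eq_single (E i)]
      · simp
      · intro F _ hF
        dsimp only
        rw [if_neg hF, mul_zero]
      · intro h
        exact absurd (mem_powerset.2 subset_rfl) h
    rw [h7]
    ring

lemma Pr_nosub' {α ι : Type} [D : DecidableEq α] (I : Finset ι) (E : ι → Finset α) (p : α → ℝ)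
    (hd : ∀ i ∈ I, ∀ j ∈ I, i ≠ j → Disjoint (E i) (E j)) :
    Pr (I.biUnion E) p (fun F => ∀ i ∈ I, ¬ E i ⊆ F) = ∏ i ∈ I, (1 - ∏ e ∈ E i, p e) := by
  have hD : D = (fun a b => Classical.propDecidable (a = b)) := Subsingleton.elim _ _
  subst hD
  exact Pr_nosub I E p hd

lemma Pr_single {α : Type} {E : Finset α} {e : α} (he : e ∈ E) (p : α → ℝ) :
    Pr E p (fun F => e ∈ F) = p e := by
  have h1 := Pr_inter (E := E) (E' := {e}) (singleton_subset_iff.2 he) p (fun F => e ∈ F)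
  have h2 : Pr E p (fun F => e ∈ F) = Pr E p (fun F => e ∈ F ∩ {e}) := by
    unfold Pr
    apply Ex_congr
    intro F _
    simp
  rw [h2, h1]
  unfold Pr
  have h3 : ({e} : Finset α) = insert e ∅ := rfl
  rw [h3, Ex_insert (notMem_empty e), Ex_empty, Ex_empty]
  simp

lemma Pr_compl {α : Type} (E : Finset α) (p : α → ℝ) (A : Finset α → Prop) :
    Pr E p A = 1 - Pr E p (fun F => ¬ A F) := by
  have h1 : Pr E p A + Pr E p (fun F => ¬ A F) = 1 := by
    unfold Pr
    rw [← Ex_add]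
    refine Eq.trans ?_ (Ex_const E p 1)
    apply Ex_congr
    intro F _
    by_cases h : A F
    · simp [h]
    · simp [h]
  linarith

end Pool.Agent.J4H23.HR
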