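import Mathlib
import Pool.Agent.J4H23.HR.Trans
import Pool.Agent.R34.FH.Mader

set_option autoImplicit false

namespace Pool.Agent.J4H23.HR

open Finset Classical
open Pool.Agent.TH507.Host Pool.Agent.R34.Ident Pool.Agent.R34.FH

/-- either `T` has small expected degeneracy, or it has a subset of large expected minimum degree -/
lemma dich {V : Type} [Fintype V] (p : Sym2 V → ℝ) (κ : ℝ) (T : Finset V) :
    Deg p κ T ∨ ∃ S ⊆ T, S.Nonempty ∧ ∀ v ∈ S, κ < wd p S v := by
  induction T using Finset.strongInduction with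
  | H T ih =>
    rcases T.eq_empty_or_nonempty with rfl | hT
    · exact Or.inl Deg.empty
    by_cases h : ∃ v ∈ T, wd p T v ≤ κ
    · obtain ⟨v, hv, hw⟩ := h
      rcases ih (T.erase v) (erase_ssubset hv) with h1 | ⟨S, hS, h2⟩
      · left
        have h3 : wd p (T.erase v) v = wd p T v := by
          unfold wd
          rw [erase_idem]
        have := Deg.insert v (T.erase v) (notMem_erase _ _) h1 (by rw [h3]; exact hw)
        rwa [insert_erase hv] at this
      · exact Or.inr ⟨S, hS.trans (erase_subset _ _), h2⟩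
    · push Not at h
      exact Or.inr ⟨T, subset_rfl, hT, h⟩

/-- handshake -/
lemma handshake {V : Type} [Fintype V] (g : Sym2 V → ℝ) (S : Finset V) :
    ∑ v ∈ S, wd g S v = 2 * ∑ e ∈ prs S, g e := by
  induction S using Finset.induction_on with
  | empty =>
    have : prs (∅ : Finset V) = ∅ := by simp [prs]
    rw [this]
    simp
  | insert v S hv ih =>
    have h1 : ∑ e ∈ prs (insert v S), g e = ∑ e ∈ prs S, g e + ∑ u ∈ S, g s(v, u) := by
      have h2 := Pool.Agent.J4H10.HR.prs_insert hv
      rw [h2]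
      have h3 := Pool.Agent.J4H10.HR.disj_star hv
      rw [sum_union h3, sum_image (fun a _ b _ h => Pool.Agent.J4H10.HR.star_inj v h)]
    rw [h1, sum_insert hv]
    have h4 : wd g (insert v S) v = ∑ u ∈ S, g s(v, u) := by
      unfold wd
      rw [erase_insert hv]
    have h5 : ∀ w ∈ S, wd g (insert v S) w = wd g S w + g s(v, w) := by
      intro w hw
      unfold wd
      have hne : w ≠ v := by
        rintro rfl
        exact hv hw
      rw [erase_insert_of_ne hne.symm, sum_insert (fun h => hv (mem_of_mem_erase h)), add_comm,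
        Sym2.eq_swap]
    rw [h4, sum_congr rfl h5, sum_add_distrib, ih]
    ring

/-- branch sets in an induced subgraph -/
lemma minor_induce {V : Type} (G : SimpleGraph V) (s : Set V) {m : ℕ}
    (h : HasCliqueMinor (G.induce s) m) : HasCliqueMinor G m :=
  (show IsMinor (⊤ : SimpleGraph (Fin m)) G from
    minor_trans (show IsMinor (⊤ : SimpleGraph (Fin m)) (G.induce s) from h)
      (minor_sub Subtype.val Subtype.val_injective (fun _ _ h => h)))

lemma dense {c₀ : ℝ} (hKT : ∀ (V : Type) [Fintype V] (G : SimpleGraph V) (d : ℝ),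
      2 ≤ d → 0 < Fintype.card V → d * Fintype.card V ≤ ∑ v, (dg G univ v : ℝ) →
      ∀ m : ℕ, (m : ℝ) ≤ c₀ * d / √(Real.log d) → HasCliqueMinor G m)
    {V : Type} [Fintype V] (p : Sym2 V → ℝ) (hp : ∀ e, 0 ≤ p e ∧ p e ≤ 1) {κ : ℝ} (hκ : 4 ≤ κ)
    (S : Finset V) (hS : S.Nonempty) (hw : ∀ v ∈ S, κ < wd p S v) (m : ℕ)
    (hm : (m : ℝ) ≤ c₀ * (κ / 2) / √(Real.log (κ / 2))) :
    Pr (prs univ) p (fun F => ¬ HasCliqueMinor (SimpleGraph.fromEdgeSet (F : Set (Sym2 V))) m) ≤
      Real.exp (-κ ^ 2 / 16) := by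
  set μ := ∑ e ∈ prs S, p e with hμ
  have hsub : prs S ⊆ prs (univ : Finset V) := by
    intro e he
    rw [mem_prs_univ]
    exact (Pool.Agent.J4H10.HR.mem_prs.1 he).2
  have h2μ : κ * S.card ≤ 2 * μ := by
    rw [hμ, ← handshake]
    calc κ * S.card = ∑ _v ∈ S, κ := by rw [sum_const, nsmul_eq_mul, mul_comm]
      _ ≤ _ := sum_le_sum (fun v hv => (hw v hv).le)
  have hSκ : κ ≤ S.card := by
    obtain ⟨v, hv⟩ := hS
    refine (hw v hv).le.trans ?_
    unfold wd
    calc ∑ u ∈ S.erase v, p s(v, u) ≤ ∑ _u ∈ S.erase v, (1 : ℝ) :=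
          sum_le_sum (fun u _ => (hp _).2)
      _ = (S.erase v).card := by rw [sum_const, nsmul_eq_mul, mul_one]
      _ ≤ S.card := by exact_mod_cast card_le_card (erase_subset _ _)
  have hμκ : κ ^ 2 / 2 ≤ μ := by nlinarith
  have h1 : Pr (prs univ) p
      (fun F => ¬ HasCliqueMinor (SimpleGraph.fromEdgeSet (F : Set (Sym2 V))) m) ≤
      Pr (prs univ) p (fun F => ((F ∩ prs S).card : ℝ) ≤ μ / 2) := by
    apply Pr_mono (fun e _ => hp e)
    intro F hF hno
    by_contra hcon
    push Not at hcon
    apply hno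
    set H := SimpleGraph.fromEdgeSet (F : Set (Sym2 V)) with hH
    apply minor_induce H (S : Set V)
    apply hKT _ (H.induce (S : Set V)) (κ / 2) (by linarith)
    · rw [Fintype.card_pos_iff]
      obtain ⟨v, hv⟩ := hS
      exact ⟨⟨v, hv⟩⟩
    · have h3 : ∑ v : (S : Set V), (dg (H.induce (S : Set V)) univ v : ℝ) =
          ∑ v ∈ S, wd (fun e => if e ∈ F then (1 : ℝ) else 0) S v := by
        have h4 : ∀ v : (S : Set V), (dg (H.induce (S : Set V)) univ v : ℝ) =
            wd (fun e => if e ∈ F then (1 : ℝ) else 0) S v.1 := by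
          intro v
          unfold dg wd
          rw [sum_boole]
          congr 1
          apply card_bij (fun x _ => x.1)
          · intro x hx
            have h5 : H.Adj v.1 x.1 := ((@mem_filter _ _ (_) _ _).1 hx).2
            rw [mem_filter, mem_erase]
            rw [hH, SimpleGraph.fromEdgeSet_adj] at h5
            exact ⟨⟨fun h => h5.2 h.symm, by exact_mod_cast x.2⟩, by exact_mod_cast h5.1⟩
          · intro x _ y _ h
            exact Subtype.ext h
          · intro y hy
            rw [mem_filter, mem_erase] at hy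
            refine ⟨⟨y, by exact_mod_cast hy.1.2⟩, ?_, rfl⟩
            refine (@mem_filter _ _ (_) _ _).2 ⟨mem_univ _, ?_⟩
            show H.Adj v.1 y
            rw [hH, SimpleGraph.fromEdgeSet_adj]
            exact ⟨by exact_mod_cast hy.2, fun h => hy.1.1 h.symm⟩
        rw [sum_congr rfl (fun v _ => h4 v)]
        exact sum_coe_sort S (fun v => wd (fun e => if e ∈ F then (1 : ℝ) else 0) S v)
      rw [h3, handshake, sum_boole]
      have h6 : Fintype.card (S : Set V) = S.card := by simp
      rw [h6]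
      have h7 : ((prs S).filter (fun e => e ∈ F)).card = (F ∩ prs S).card := by
        congr 1
        ext e
        rw [mem_filter, mem_inter, and_comm]
      rw [h7]
      linarith
    · exact hm
  refine h1.trans ?_
  rw [Pr_inter' hsub p (fun F => (F.card : ℝ) ≤ μ / 2)]
  refine (cher (prs S) p (fun e _ => hp e)).trans ?_
  apply Real.exp_le_exp.2
  rw [← hμ]
  linarith

end Pool.Agent.J4H23.HR
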