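import Mathlib
import Pool.Agent.J4H23.HR.Stm

set_option autoImplicit false

namespace Pool.Agent.J4H23.HR

open Finset Classical

/-- GREEDY2 (two phases): `k₁ + k₂` colours. The probability of failure is now
`exp (-k^(2 - o(1)))` per vertex instead of `exp (-k^(1 - o(1)))`.

Proof. Take the vertices of `S` in the order of `Deg` (a list). Phase 1: colour them one after the
other with the `k₁` colours, a vertex being *bad* (and left uncoloured) if all `k₁` colours are used
by coloured earlier neighbours. Let `β = exp (-k₁ exp (-2 log (1/ε) κ / k₁))`: given the edges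
between the earlier vertices a vertex is bad with probability at most `β` (as in GREEDY; the
uncoloured earlier vertices only help). Hence for all weights `a u ≥ 0`, by induction along the list,
`Ex (∏_{u bad} (1 + a u)) ≤ ∏_u (1 + β a u)`.
Phase 2: if every vertex `t` has fewer than `k₂` bad earlier neighbours, then the bad vertices can be
coloured greedily with `k₂` further colours. For one `t`, with `l` the earlier vertices:
`1[at least k₂ bad earlier neighbours] ≤ β^k₂ ∏_{u ∈ l} (1 + (1/β - 1) 1[u bad] 1[tu ∈ F])`, the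
expectation over the edges at `t` is `∏_u (1 + (1/β - 1) p(tu) 1[u bad])`, and with
`a u = (1/β - 1) p(tu)` the expectation is at most `∏_u (1 + (1 - β) p(tu)) ≤ exp κ`. So `t` fails
with probability at most `β^k₂ exp κ`; sum over `t ∈ S`. -/
def S_GREEDY2 : Prop := ∀ (V : Type) [Fintype V] (p : Sym2 V → ℝ) (ε κ : ℝ) (k₁ k₂ : ℕ)
  (S : Finset V), 0 < ε → ε ≤ 1 / 2 → (∀ e, 0 ≤ p e ∧ p e ≤ 1 - ε) → 1 ≤ k₁ → 0 ≤ κ →
  Deg p κ S →
  Pr (prs S) p (fun F => ¬ ColIn F S (k₁ + k₂)) ≤
    S.card * Real.exp (κ - k₁ * k₂ * Real.exp (-(2 * Real.log (1 / ε) * κ / k₁)))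

end Pool.Agent.J4H23.HR
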