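import Mathlib
import Pool.Agent.J4H23.HR.Ex
import Pool.Agent.J4H23.HR.Stm2
import Pool.Agent.J4H10.HR.Greedy

/-!
The two-phase greedy colouring.
-/

set_option autoImplicit false

namespace Pool.Agent.J4H23.HR

open Finset Classical
open Pool.Agent.J4H10.HR (prs_insert disj_star star_inj not_mem_of_prs star_prob)

lemma Ex_union' {α : Type} [D : DecidableEq α] {E₁ E₂ : Finset α} (h : Disjoint E₁ E₂)
    (p : α → ℝ) (f : Finset α → ℝ) :
    Ex (E₁ ∪ E₂) p f = Ex E₁ p (fun F => Ex E₂ p (fun F' => f (F ∪ F'))) := by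
  have hD : D = (fun a b => Classical.propDecidable (a = b)) := Subsingleton.elim _ _
  subst hD
  exact Ex_union h p f

/-- exponential moments -/
lemma Ex_pow {α : Type} (E : Finset α) (p : α → ℝ) (z : ℝ) :
    Ex E p (fun F => z ^ F.card) = ∏ e ∈ E, (1 + (z - 1) * p e) := by
  induction E using Finset.induction_on with
  | empty => rw [Ex_empty]; simp
  | insert e E he ih =>
    rw [Ex_insert he, ih, prod_insert he]
    have h1 : Ex E p (fun F => z ^ (insert e F).card) = z * ∏ e ∈ E, (1 + (z - 1) * p e) := by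
      rw [← ih, ← Ex_const_mul]
      apply Ex_congr
      intro F hF
      rw [card_insert_of_notMem (fun h => he (hF h)), pow_succ]
      ring
    rw [h1]
    ring

lemma Ex_pow_inter {α : Type} [D : DecidableEq α] {E E' : Finset α} (h : E' ⊆ E) (p : α → ℝ)
    (z : ℝ) : Ex E p (fun F => z ^ (F ∩ E').card) = ∏ e ∈ E', (1 + (z - 1) * p e) := by
  rw [← Ex_pow]
  have hD : D = (fun a b => Classical.propDecidable (a = b)) := Subsingleton.elim _ _
  subst hD
  exact Ex_inter h p (fun F => z ^ F.card)

variable {V : Type} [Fintype V]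

/-- the second phase is possible -/
def Two (F : Finset (Sym2 V)) (S : Finset V) (k₂ : ℕ) (B : V → Prop) : Prop :=
  ∃ c : V → Fin k₂, ∀ u ∈ S, ∀ w ∈ S, u ≠ w → s(u, w) ∈ F → B u → B w → c u ≠ c w

/-- one step of the second phase -/
lemma two_step {S : Finset V} {v : V} (hv : v ∉ S) {k₂ : ℕ} {F₁ F₂ : Finset (Sym2 V)}
    (h₁ : F₁ ⊆ prs S) (h₂ : F₂ ⊆ S.image (fun u => s(v, u))) {B B' : V → Prop}
    (hB : ∀ u ∈ S, B' u ↔ B u) (hc : Two F₁ S k₂ B)
    (hn : (S.filter (fun u => B u ∧ s(v, u) ∈ F₂)).card < k₂) :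
    Two (F₁ ∪ F₂) (insert v S) k₂ B' := by
  obtain ⟨c, hc⟩ := hc
  obtain ⟨j, hj⟩ : ∃ j : Fin k₂, j ∉ (S.filter (fun u => B u ∧ s(v, u) ∈ F₂)).image c := by
    by_contra hcon
    push Not at hcon
    have h3 : (univ : Finset (Fin k₂)) ⊆ (S.filter (fun u => B u ∧ s(v, u) ∈ F₂)).image c :=
      fun j _ => hcon j
    have h4 := (card_le_card h3).trans card_image_le
    rw [card_univ, Fintype.card_fin] at h4
    omega
  refine ⟨Function.update c v j, ?_⟩
  have nS : ∀ x ∈ S, x ≠ v := fun x hx h => hv (h ▸ hx)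
  intro u hu w hw huw he hbu hbw
  rw [mem_union] at he
  rcases mem_insert.1 hu with h | h <;> rcases mem_insert.1 hw with h' | h'
  · exact absurd (h.trans h'.symm) huw
  · subst h
    rw [Function.update_self, Function.update_of_ne (nS w h')]
    rcases he with he | he
    · exact absurd (h₁ he) (not_mem_of_prs hv)
    · intro e
      apply hj
      rw [e]
      exact mem_image_of_mem _ (mem_filter.2 ⟨h', (hB w h').1 hbw, he⟩)
  · subst h'
    rw [Function.update_self, Function.update_of_ne (nS u h)]
    rw [Sym2.eq_swap] at he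
    rcases he with he | he
    · exact absurd (h₁ he) (not_mem_of_prs hv)
    · intro e
      apply hj
      rw [← e]
      exact mem_image_of_mem _ (mem_filter.2 ⟨h, (hB u h).1 hbu, he⟩)
  · rw [Function.update_of_ne (nS u h), Function.update_of_ne (nS w h')]
    rcases he with he | he
    · exact hc u h w h' huw he ((hB u h).1 hbu) ((hB w h').1 hbw)
    · obtain ⟨x, _, hx⟩ := mem_image.1 (h₂ he)
      simp only [Sym2.eq_iff] at hx
      rcases hx with ⟨hx, -⟩ | ⟨hx, -⟩
      · exact absurd hx.symm (nS u h)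
      · exact absurd hx.symm (nS w h')

/-- the invariant of the construction -/
structure Inv (p : Sym2 V → ℝ) (β κ : ℝ) (k₁ k₂ : ℕ) (S : Finset V)
    (g : Finset (Sym2 V) → V → Option (Fin k₁)) : Prop where
  proper : ∀ F ⊆ prs S, ∀ u ∈ S, ∀ w ∈ S, u ≠ w → s(u, w) ∈ F → ∀ i, g F u = some i →
    g F w ≠ some i
  bad : ∀ a : V → ℝ, (∀ u, 0 ≤ a u) →
    Ex (prs S) p (fun F => ∏ u ∈ S, (if g F u = none then 1 + a u else 1)) ≤
      ∏ u ∈ S, (1 + β * a u)
  fail : Pr (prs S) p (fun F => ¬ Two F S k₂ (fun u => g F u = none)) ≤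
    S.card * (β ^ k₂ * Real.exp κ)

/-- the extension of the first phase to one more vertex -/
noncomputable def ext {k₁ : ℕ} (g : Finset (Sym2 V) → V → Option (Fin k₁)) (S : Finset V) (v : V)
    (F : Finset (Sym2 V)) : V → Option (Fin k₁) :=
  Function.update (g (F ∩ prs S)) v
    (if h : ∃ i : Fin k₁, ∀ u ∈ S, g (F ∩ prs S) u = some i → s(v, u) ∉ F then some h.choose
      else none)

lemma ext_ne {k₁ : ℕ} (g : Finset (Sym2 V) → V → Option (Fin k₁)) (S : Finset V) {v u : V}
    (F : Finset (Sym2 V)) (hu : u ≠ v) : ext g S v F u = g (F ∩ prs S) u := by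
  unfold ext
  rw [Function.update_of_ne hu]

lemma ext_some {k₁ : ℕ} {g : Finset (Sym2 V) → V → Option (Fin k₁)} {S : Finset V} {v : V}
    {F : Finset (Sym2 V)} {i : Fin k₁} (h : ext g S v F v = some i) :
    ∀ u ∈ S, g (F ∩ prs S) u = some i → s(v, u) ∉ F := by
  unfold ext at h
  rw [Function.update_self] at h
  split_ifs at h with hex
  have h1 := Option.some.inj h
  rw [← h1]
  exact hex.choose_spec

lemma ext_none {k₁ : ℕ} {g : Finset (Sym2 V) → V → Option (Fin k₁)} {S : Finset V} {v : V}
    {F : Finset (Sym2 V)} (h : ext g S v F v = none) :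
    ∀ i : Fin k₁, ∃ u ∈ S, g (F ∩ prs S) u = some i ∧ s(v, u) ∈ F := by
  unfold ext at h
  rw [Function.update_self] at h
  split_ifs at h with hex
  push Not at hex
  exact hex

lemma inter_eq {S : Finset V} {v : V} (hv : v ∉ S) {F₁ F₂ : Finset (Sym2 V)}
    (h₁ : F₁ ⊆ prs S) (h₂ : F₂ ⊆ S.image (fun u => s(v, u))) : (F₁ ∪ F₂) ∩ prs S = F₁ := by
  ext e
  rw [mem_inter, mem_union]
  constructor
  · rintro ⟨h | h, h'⟩
    · exact h
    · obtain ⟨u, _, rfl⟩ := mem_image.1 (h₂ h)
      exact absurd h' (not_mem_of_prs hv)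
  · intro h
    exact ⟨Or.inl h, h₁ h⟩

lemma inv_exists {p : Sym2 V → ℝ} {ε κ : ℝ} {k₁ k₂ : ℕ} (h0 : 0 < ε) (h1 : ε ≤ 1 / 2)
    (hp : ∀ e, 0 ≤ p e ∧ p e ≤ 1 - ε) (hk : 1 ≤ k₁) (hk₂ : 1 ≤ k₂) {S : Finset V}
    (hS : Deg p κ S) {β : ℝ}
    (hβ : β = Real.exp (-(k₁ * Real.exp (-(2 * Real.log (1 / ε) * κ / k₁))))) :
    ∃ g, Inv p β κ k₁ k₂ S g := by
  have hp1 : ∀ e, 0 ≤ p e ∧ p e ≤ 1 := fun e => ⟨(hp e).1, by linarith [(hp e).2]⟩
  have hβ0 : 0 < β := by rw [hβ]; exact Real.exp_pos _
  have hβ1 : β ≤ 1 := by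
    rw [hβ, Real.exp_le_one_iff]
    have : 0 ≤ k₁ * Real.exp (-(2 * Real.log (1 / ε) * κ / k₁)) := by positivity
    linarith
  induction hS with
  | empty =>
    refine ⟨fun _ _ => none, ?_, ?_, ?_⟩
    · intro F _ u hu
      exact absurd hu (notMem_empty _)
    · intro a _
      simp only [prod_empty]
      rw [Ex_const]
    · have : Pr (prs (∅ : Finset V)) p (fun F => ¬ Two F ∅ k₂ (fun u => (none : Option (Fin k₁)) = none)) =
          Ex (prs (∅ : Finset V)) p (fun _ => 0) := by
        unfold Pr
        apply Ex_congr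
        intro F _
        rw [if_neg]
        intro h
        exact h ⟨fun _ => ⟨0, hk₂⟩, by simp⟩
      refine this.le.trans ?_
      rw [Ex_const]
      simp
  | insert v S hv _ hw ih =>
    obtain ⟨g, hg⟩ := ih
    -- the probability of being blocked
    have hblock : ∀ F₁ : Finset (Sym2 V), Pr (S.image (fun u => s(v, u))) p
        (fun F₂ => ∀ i : Fin k₁, ∃ u ∈ S, g F₁ u = some i ∧ s(v, u) ∈ F₂) ≤ β := by
      intro F₁
      have h2 := star_prob h0 h1 hp hk hv hw (fun u => (g F₁ u).getD ⟨0, hk⟩)
      rw [← hβ] at h2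
      refine le_trans (Pr_mono (fun e _ => hp1 e) ?_) h2
      intro F₂ _ h i
      obtain ⟨u, hu, h3, h4⟩ := h i
      exact ⟨u, hu, by rw [h3]; rfl, h4⟩
    have hcap : ∀ F₁ ⊆ prs S, ∀ F₂ ⊆ S.image (fun u => s(v, u)), (F₁ ∪ F₂) ∩ prs S = F₁ :=
      fun F₁ h₁ F₂ h₂ => inter_eq hv h₁ h₂
    have hnone : ∀ F₁ ⊆ prs S, ∀ F₂ ⊆ S.image (fun u => s(v, u)), ext g S v (F₁ ∪ F₂) v = none →
        ∀ i : Fin k₁, ∃ u ∈ S, g F₁ u = some i ∧ s(v, u) ∈ F₂ := by
      intro F₁ h₁ F₂ h₂ h i
      obtain ⟨u, hu, h3, h4⟩ := ext_none h i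
      rw [hcap F₁ h₁ F₂ h₂] at h3
      rw [mem_union] at h4
      rcases h4 with h4 | h4
      · exact absurd (h₁ h4) (not_mem_of_prs hv)
      · exact ⟨u, hu, h3, h4⟩
    have nS : ∀ x ∈ S, x ≠ v := fun x hx h => hv (h ▸ hx)
    refine ⟨ext g S v, ?_, ?_, ?_⟩
    · -- proper
      intro F hF u hu w hw' huw he i hui hwi
      rcases mem_insert.1 hu with h | h <;> rcases mem_insert.1 hw' with h' | h'
      · exact absurd (h.trans h'.symm) huw
      · subst h
        rw [ext_ne g S F (nS w h')] at hwi
        exact ext_some hui w h' hwi he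
      · subst h'
        rw [ext_ne g S F (nS u h)] at hui
        rw [Sym2.eq_swap] at he
        exact ext_some hwi u h hui he
      · rw [ext_ne g S F (nS u h)] at hui
        rw [ext_ne g S F (nS w h')] at hwi
        have h3 : s(u, w) ∈ prs S := by
          rw [Pool.Agent.J4H10.HR.mem_prs]
          exact ⟨⟨u, h, w, h', rfl⟩, by rwa [Sym2.mk_isDiag_iff]⟩
        exact hg.proper (F ∩ prs S) inter_subset_right u h w h' huw (mem_inter.2 ⟨he, h3⟩) i hui hwi
    · -- the weights
      intro a ha
      rw [prs_insert hv, Ex_union' (disj_star hv), prod_insert hv]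
      have h2 : ∀ F₁ ⊆ prs S, Ex (S.image (fun u => s(v, u))) p
          (fun F₂ => ∏ u ∈ insert v S, (if ext g S v (F₁ ∪ F₂) u = none then 1 + a u else 1)) ≤
          (1 + β * a v) * ∏ u ∈ S, (if g F₁ u = none then 1 + a u else 1) := by
        intro F₁ h₁
        have hprod0 : 0 ≤ ∏ u ∈ S, (if g F₁ u = none then 1 + a u else 1) := by
          apply prod_nonneg
          intro u _
          have := ha u
          split_ifs <;> linarith
        obtain ⟨A, hA⟩ : ∃ A : Finset (Sym2 V) → Prop,
          A = fun F₂ => ∀ i : Fin k₁, ∃ u ∈ S, g F₁ u = some i ∧ s(v, u) ∈ F₂ := ⟨_, rfl⟩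
        have h3 : Ex (S.image (fun u => s(v, u))) p
            (fun F₂ => ∏ u ∈ insert v S, (if ext g S v (F₁ ∪ F₂) u = none then 1 + a u else 1)) ≤
            Ex (S.image (fun u => s(v, u))) p (fun F₂ =>
              (∏ u ∈ S, (if g F₁ u = none then 1 + a u else 1)) *
                (1 + a v * (if A F₂ then 1 else 0))) := by
          apply Ex_mono (fun e _ => hp1 e)
          intro F₂ h₂
          rw [prod_insert hv, mul_comm]
          have h4 : ∏ u ∈ S, (if ext g S v (F₁ ∪ F₂) u = none then 1 + a u else 1) =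
              ∏ u ∈ S, (if g F₁ u = none then 1 + a u else 1) := by
            apply prod_congr rfl
            intro u hu
            rw [ext_ne g S _ (nS u hu), hcap F₁ h₁ F₂ h₂]
          rw [h4]
          apply mul_le_mul_of_nonneg_left _ hprod0
          have hav := ha v
          by_cases h5 : ext g S v (F₁ ∪ F₂) v = none
          · have h6 : A F₂ := by
              rw [hA]
              exact hnone F₁ h₁ F₂ h₂ h5
            rw [if_pos h5, if_pos h6]
            linarith
          · rw [if_neg h5]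
            split_ifs
            · linarith
            · linarith
        refine h3.trans ?_
        rw [Ex_const_mul, Ex_add, Ex_const, Ex_const_mul, mul_comm]
        apply mul_le_mul_of_nonneg_right _ hprod0
        have h7 := hblock F₁
        rw [← hA] at h7
        have h8 : Ex (S.image (fun u => s(v, u))) p (fun F₂ => if A F₂ then (1 : ℝ) else 0) ≤ β := h7
        have := mul_le_mul_of_nonneg_left h8 (ha v)
        linarith
      refine (Ex_mono (fun e _ => hp1 e) h2).trans ?_
      rw [Ex_const_mul]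
      apply mul_le_mul_of_nonneg_left (hg.bad a ha)
      have := mul_nonneg hβ0.le (ha v)
      linarith
    · -- the failure of the second phase
      rw [prs_insert hv]
      have h2 : Pr (prs S ∪ S.image (fun u => s(v, u))) p
          (fun F => ¬ Two F (insert v S) k₂ (fun u => ext g S v F u = none)) ≤
          Ex (prs S) p (fun F₁ => (if ¬ Two F₁ S k₂ (fun u => g F₁ u = none) then (1 : ℝ) else 0) +
            β ^ k₂ * ∏ u ∈ S, (if g F₁ u = none then 1 + (β⁻¹ - 1) * p s(v, u) else 1)) := by
        unfold Pr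
        rw [Ex_union' (disj_star hv)]
        apply Ex_mono (fun e _ => hp1 e)
        intro F₁ h₁
        set B : Finset V := S.filter (fun u => g F₁ u = none) with hB
        set E' : Finset (Sym2 V) := B.image (fun u => s(v, u)) with hE'
        have hE'sub : E' ⊆ S.image (fun u => s(v, u)) := image_subset_image (filter_subset _ _)
        have h3 : Ex (S.image (fun u => s(v, u))) p (fun F₂ => β ^ k₂ * (β⁻¹) ^ (F₂ ∩ E').card) =
            β ^ k₂ * ∏ u ∈ S, (if g F₁ u = none then 1 + (β⁻¹ - 1) * p s(v, u) else 1) := by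
          rw [Ex_const_mul, Ex_pow_inter hE'sub, hE', prod_image (fun a _ b _ h => star_inj v h), hB,
            prod_filter]
        rw [← h3]
        by_cases hT : Two F₁ S k₂ (fun u => g F₁ u = none)
        · rw [if_neg (not_not.2 hT), zero_add]
          apply Ex_mono (fun e _ => hp1 e)
          intro F₂ h₂
          by_cases hcase : (S.filter (fun u => g F₁ u = none ∧ s(v, u) ∈ F₂)).card < k₂
          · have h4 : Two (F₁ ∪ F₂) (insert v S) k₂ (fun u => ext g S v (F₁ ∪ F₂) u = none) := by
              refine two_step hv h₁ h₂ (B := fun u => g F₁ u = none) ?_ hT 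
                (lt_of_eq_of_lt (congrArg card (Finset.ext fun x => by simp only [mem_filter])) hcase)
              intro u hu
              rw [ext_ne g S _ (nS u hu), hcap F₁ h₁ F₂ h₂]
            rw [if_neg (not_not.2 h4)]
            positivity
          · push Not at hcase
            have h4 : k₂ ≤ (F₂ ∩ E').card := by
              refine hcase.trans ?_
              apply card_le_card_of_injOn (fun u => s(v, u))
              · intro u hu
                rw [mem_coe, mem_filter] at hu
                rw [mem_coe, mem_inter]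
                exact ⟨hu.2.2, mem_image_of_mem _ (mem_filter.2 ⟨hu.1, hu.2.1⟩)⟩
              · intro a _ b _ h
                exact star_inj v h
            have h5 : 1 ≤ β ^ k₂ * (β⁻¹) ^ (F₂ ∩ E').card := by
              have h6 : (β⁻¹) ^ k₂ ≤ (β⁻¹) ^ (F₂ ∩ E').card :=
                pow_le_pow_right₀ ((one_le_inv₀ hβ0).2 hβ1) h4
              calc (1 : ℝ) = β ^ k₂ * (β⁻¹) ^ k₂ := by
                    rw [← mul_pow, mul_inv_cancel₀ hβ0.ne', one_pow]
                _ ≤ _ := mul_le_mul_of_nonneg_left h6 (by positivity)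
            refine le_trans ?_ h5
            split_ifs <;> norm_num
        · rw [if_pos hT]
          refine le_trans (Ex_mono (g := fun _ => 1) (fun e _ => hp1 e) ?_) ?_
          · intro F₂ _
            dsimp only
            split_ifs <;> norm_num
          · rw [Ex_const]
            have : 0 ≤ Ex (S.image (fun u => s(v, u))) p
                (fun F₂ => β ^ k₂ * (β⁻¹) ^ (F₂ ∩ E').card) := by
              rw [← Ex_const (S.image (fun u => s(v, u))) p 0]
              apply Ex_mono (fun e _ => hp1 e)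
              intro F₂ _
              positivity
            linarith
      refine h2.trans ?_
      rw [Ex_add, Ex_const_mul, card_insert_of_notMem hv]
      have h3 : Ex (prs S) p
          (fun F₁ => ∏ u ∈ S, (if g F₁ u = none then 1 + (β⁻¹ - 1) * p s(v, u) else 1)) ≤
          Real.exp κ := by
        have hβinv : 0 ≤ β⁻¹ - 1 := by
          have := (one_le_inv₀ hβ0).2 hβ1
          linarith
        refine (hg.bad (fun u => (β⁻¹ - 1) * p s(v, u))
          (fun u => mul_nonneg hβinv (hp1 _).1)).trans ?_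
        calc ∏ u ∈ S, (1 + β * ((β⁻¹ - 1) * p s(v, u))) ≤ ∏ u ∈ S, Real.exp (p s(v, u)) := by
              apply prod_le_prod
              · intro u _
                have := mul_nonneg hβ0.le (mul_nonneg hβinv (hp1 s(v, u)).1)
                linarith
              · intro u _
                have h4 : β * ((β⁻¹ - 1) * p s(v, u)) = (1 - β) * p s(v, u) := by
                  field_simp
                have h5 := Real.add_one_le_exp (p s(v, u))
                have h6 := (hp1 s(v, u)).1
                rw [h4]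
                nlinarith
          _ = Real.exp (∑ u ∈ S, p s(v, u)) := by rw [Real.exp_sum]
          _ ≤ Real.exp κ := by
              apply Real.exp_le_exp.2
              unfold wd at hw
              rwa [erase_eq_of_notMem hv] at hw
      have h4 : Ex (prs S) p
          (fun F₁ => if ¬ Two F₁ S k₂ (fun u => g F₁ u = none) then (1 : ℝ) else 0) ≤
          S.card * (β ^ k₂ * Real.exp κ) := by
        have h6 := hg.fail
        unfold Pr at h6
        refine le_of_eq_of_le ?_ h6
        apply Ex_congr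
        intro F _
        by_cases hh : Two F S k₂ (fun u => g F u = none) <;> simp [hh]
      have h5 := mul_le_mul_of_nonneg_left h3 (by positivity : 0 ≤ β ^ k₂)
      push_cast
      linarith

theorem t_GREEDY2 : S_GREEDY2 := by
  intro V _ p ε κ k₁ k₂ S h0 h1 hp hk hκ hS
  have hp1 : ∀ e, 0 ≤ p e ∧ p e ≤ 1 := fun e => ⟨(hp e).1, by linarith [(hp e).2]⟩
  rcases Nat.eq_zero_or_pos k₂ with rfl | hk₂
  · rcases S.eq_empty_or_nonempty with rfl | hne
    · have : Pr (prs (∅ : Finset V)) p (fun F => ¬ ColIn F ∅ (k₁ + 0)) =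
          Ex (prs (∅ : Finset V)) p (fun _ => 0) := by
        unfold Pr
        apply Ex_congr
        intro F _
        rw [if_neg]
        intro h
        exact h ⟨fun _ => ⟨0, by omega⟩, by simp⟩
      rw [this, Ex_const]
      simp
    · have h2 : Pr (prs S) p (fun F => ¬ ColIn F S (k₁ + 0)) ≤ 1 := by
        unfold Pr
        refine le_trans (Ex_mono (g := fun _ => 1) (fun e _ => hp1 e) ?_) (Ex_const _ _ _).le
        intro F _
        dsimp only
        split_ifs <;> norm_num
      refine h2.trans ?_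
      have h3 : (1 : ℝ) ≤ S.card := by
        have := card_pos.2 hne
        exact_mod_cast this
      have h4 : 1 ≤ Real.exp (κ - k₁ * (0 : ℕ) * Real.exp (-(2 * Real.log (1 / ε) * κ / k₁))) := by
        rw [Real.one_le_exp_iff]
        simpa using hκ
      nlinarith
  obtain ⟨β, hβ⟩ : ∃ β, β = Real.exp (-(k₁ * Real.exp (-(2 * Real.log (1 / ε) * κ / k₁)))) :=
    ⟨_, rfl⟩
  obtain ⟨g, hg⟩ := inv_exists h0 h1 hp hk hk₂ hS hβ
  have h2 : Pr (prs S) p (fun F => ¬ ColIn F S (k₁ + k₂)) ≤
      Pr (prs S) p (fun F => ¬ Two F S k₂ (fun u => g F u = none)) := by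
    apply Pr_mono (fun e _ => hp1 e)
    intro F hF hno hT
    apply hno
    obtain ⟨c, hc⟩ := hT
    refine ⟨fun u => match g F u with
      | some i => Fin.castAdd k₂ i
      | none => Fin.natAdd k₁ (c u), ?_⟩
    intro u hu w hw huw he
    rcases hgu : g F u with _ | i <;> rcases hgw : g F w with _ | j
    · simp only [hgu, hgw]
      intro h
      exact hc u hu w hw huw he hgu hgw (Fin.natAdd_injective _ _ h)
    · simp only [hgu, hgw]
      intro h
      have h5 := congrArg Fin.val h
      rw [Fin.val_natAdd, Fin.val_castAdd] at h5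
      have := j.2
      omega
    · simp only [hgu, hgw]
      intro h
      have h5 := congrArg Fin.val h
      rw [Fin.val_natAdd, Fin.val_castAdd] at h5
      have := i.2
      omega
    · simp only [hgu, hgw]
      intro h
      have h3 := Fin.castAdd_injective _ _ h
      subst h3
      exact hg.proper F hF u hu w hw huw he i hgu hgw
  refine h2.trans (hg.fail.trans ?_)
  apply mul_le_mul_of_nonneg_left _ (by positivity)
  rw [hβ, ← Real.exp_nat_mul, ← Real.exp_add]
  apply Real.exp_le_exp.2
  linarith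

end Pool.Agent.J4H23.HR
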