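import Mathlib
import Pool.Agent.J4H23.HR.Stm

set_option autoImplicit false

namespace Pool.Agent.J4H23.HR

open Finset Classical

theorem t_DIAM : S_DIAM := by
  intro V _ G K S Z hK hG hZ x hx y hy
  obtain ⟨hSne, hS2, hdeg, hcut⟩ := hG
  set U := S \ Z with hU
  set H := G.induce (U : Set V) with hH
  -- connectedness
  have hconn : H.Connected := by
    rw [SimpleGraph.connected_iff_exists_forall_reachable]
    refine ⟨⟨x, by exact_mod_cast hx⟩, ?_⟩
    by_contra hcon
    push Not at hcon
    obtain ⟨w, hw⟩ := hcon
    set P : Finset V := U.filter (fun z => ∃ h : z ∈ (U : Set V),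
      H.Reachable ⟨x, by exact_mod_cast hx⟩ ⟨z, h⟩) with hP
    set Q : Finset V := U \ P with hQ
    have hPU : P ⊆ U := filter_subset _ _
    have hxP : x ∈ P := by
      rw [hP, mem_filter]
      exact ⟨hx, by exact_mod_cast hx, SimpleGraph.Reachable.refl _⟩
    have hwQ : w.1 ∈ Q := by
      rw [hQ, mem_sdiff]
      refine ⟨by exact_mod_cast w.2, ?_⟩
      rw [hP, mem_filter]
      rintro ⟨-, h, h2⟩
      exact hw h2
    obtain ⟨a, ha, b, hb, hab⟩ := hcut Z P Q hZ ⟨x, hxP⟩ ⟨w.1, hwQ⟩ disjoint_sdiff
      (union_sdiff_of_subset hPU)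
    rw [hQ, mem_sdiff] at hb
    apply hb.2
    rw [hP, mem_filter]
    rw [hP, mem_filter] at ha
    obtain ⟨-, h1, h2⟩ := ha
    have hbU : b ∈ (U : Set V) := by exact_mod_cast hb.1
    refine ⟨hb.1, hbU, h2.trans ?_⟩
    have : H.Adj ⟨a, h1⟩ ⟨b, hbU⟩ := hab
    exact this.reachable
  -- degrees
  have hdU : ∀ v : (U : Set V), K < 4 * (univ.filter (fun w : (U : Set V) => H.Adj v w)).card := by
    intro v
    have hv : v.1 ∈ S := (mem_sdiff.1 (show v.1 ∈ S \ Z by exact_mod_cast v.2)).1
    have h1 := hdeg v.1 hv
    have h2 : dg G S v.1 ≤ (univ.filter (fun w : (U : Set V) => H.Adj v w)).card + Z.card := by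
      have h3 : S.filter (fun w => G.Adj v.1 w) ⊆
          (univ.filter (fun w : (U : Set V) => H.Adj v w)).image Subtype.val ∪ Z := by
        intro w hw
        rw [mem_filter] at hw
        rw [mem_union]
        by_cases hwZ : w ∈ Z
        · exact Or.inr hwZ
        · left
          rw [mem_image]
          have hwU : w ∈ (U : Set V) := by
            rw [mem_coe, hU, mem_sdiff]
            exact ⟨hw.1, hwZ⟩
          refine ⟨⟨w, hwU⟩, mem_filter.2 ⟨mem_univ _, hw.2⟩, rfl⟩
      have h4 := (card_le_card h3).trans (card_union_le _ _)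
      have h5 := card_image_le (s := univ.filter (fun w : (U : Set V) => H.Adj v w))
        (f := Subtype.val)
      unfold dg
      omega
    omega
  have hUc : Fintype.card (U : Set V) ≤ 2 * K := by
    have h1 : Fintype.card (U : Set V) = U.card := by
      simp
    rw [h1]
    exact (card_le_card sdiff_subset).trans hS2
  set x' : (U : Set V) := ⟨x, by exact_mod_cast hx⟩ with hx'
  set y' : (U : Set V) := ⟨y, by exact_mod_cast hy⟩ with hy'
  obtain ⟨p, hp⟩ := hconn.exists_walk_length_eq_dist x' y'
  -- the distance is at most 22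
  have hdist : H.dist x' y' ≤ 22 := by
    by_contra hcon
    push Not at hcon
    have hlev : ∀ j, j ≤ H.dist x' y' → H.dist x' (p.getVert j) = j := by
      intro j hj
      have h1 : H.dist x' (p.getVert j) ≤ j := by
        refine (SimpleGraph.dist_le (p.take j)).trans ?_
        rw [SimpleGraph.Walk.take_length]
        exact min_le_left _ _
      have h2 : H.dist (p.getVert j) y' ≤ H.dist x' y' - j := by
        refine (SimpleGraph.dist_le (p.drop j)).trans ?_
        rw [SimpleGraph.Walk.drop_length, hp]
      have h3 := hconn.dist_triangle (u := x') (v := p.getVert j) (w := y')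
      omega
    set N : Fin 8 → Finset (U : Set V) := fun i =>
      univ.filter (fun w : (U : Set V) => H.Adj (p.getVert (3 * i.1 + 1)) w) with hN
    have hNd : ∀ i, ∀ w ∈ N i, H.dist x' w / 3 = i.1 := by
      intro i w hw
      rw [hN, mem_filter] at hw
      have h1 := hlev (3 * i.1 + 1) (by omega)
      have h2 := hconn.dist_triangle (u := x') (v := w) (w := p.getVert (3 * i.1 + 1))
      have h3 := hconn.dist_triangle (u := x') (v := p.getVert (3 * i.1 + 1)) (w := w)
      have h4 : H.dist (p.getVert (3 * i.1 + 1)) w = 1 := SimpleGraph.dist_eq_one_iff_adj.2 hw.2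
      have h5 : H.dist w (p.getVert (3 * i.1 + 1)) = 1 :=
        SimpleGraph.dist_eq_one_iff_adj.2 hw.2.symm
      omega
    have hdisj : ((univ : Finset (Fin 8)) : Set (Fin 8)).PairwiseDisjoint N := by
      intro i _ j _ hij
      rw [Function.onFun, Finset.disjoint_left]
      intro w h1 h2
      apply hij
      apply Fin.ext
      rw [← hNd i w h1, ← hNd j w h2]
    have h1 := card_biUnion hdisj
    have h2 : (univ.biUnion N).card ≤ Fintype.card (U : Set V) := card_le_univ _
    have h3 : ∑ i : Fin 8, (K + 1) ≤ ∑ i : Fin 8, 4 * (N i).card :=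
      sum_le_sum (fun i _ => hdU _)
    rw [← mul_sum, ← h1] at h3
    simp only [sum_const, card_univ, Fintype.card_fin, smul_eq_mul] at h3
    omega
  let q := p.map (SimpleGraph.Embedding.induce (U : Set V)).toHom
  have hq : q.support = p.support.map Subtype.val := by
    rw [SimpleGraph.Walk.support_map]
    rfl
  refine ⟨q.support.toFinset, ?_, ?_, ?_, ?_, ?_⟩
  · intro z hz
    rw [List.mem_toFinset, hq, List.mem_map] at hz
    obtain ⟨w, -, rfl⟩ := hz
    exact_mod_cast w.2
  · rw [List.mem_toFinset]
    exact q.start_mem_support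
  · rw [List.mem_toFinset]
    exact q.end_mem_support
  · refine (List.toFinset_card_le _).trans ?_
    rw [hq, List.length_map, SimpleGraph.Walk.length_support]
    omega
  · have h1 := q.connected_induce_support
    have h2 : ((q.support.toFinset : Finset V) : Set V) = {v | v ∈ q.support} := by
      ext v
      simp
    rw [h2]
    exact h1

end Pool.Agent.J4H23.HR
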