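import Mathlib
import Pool.Agent.J4H23.HR.Stm

set_option autoImplicit false

namespace Pool.Agent.J4H23.HR

open Finset Classical

lemma conn_union {V : Type} (G : SimpleGraph V) (x0 : V) (X : Finset V) (hX : X.Nonempty)
    (P : V → Finset V) (hP : ∀ x ∈ X, x0 ∈ P x ∧ (G.induce (P x : Set V)).Connected) :
    (G.induce ((X.biUnion P : Finset V) : Set V)).Connected := by
  obtain ⟨x1, hx1⟩ := hX
  have hx0 : x0 ∈ ((X.biUnion P : Finset V) : Set V) := by
    rw [mem_coe, mem_biUnion]
    exact ⟨x1, hx1, (hP x1 hx1).1⟩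
  rw [SimpleGraph.connected_iff_exists_forall_reachable]
  refine ⟨⟨x0, hx0⟩, ?_⟩
  rintro ⟨z, hz⟩
  have hz' := hz
  rw [mem_coe, mem_biUnion] at hz'
  obtain ⟨x, hx, hzx⟩ := hz'
  have hsub : ∀ w, w ∈ (P x : Set V) → w ∈ ((X.biUnion P : Finset V) : Set V) := by
    intro w hw
    rw [mem_coe, mem_biUnion]
    exact ⟨x, hx, hw⟩
  let φ : G.induce (P x : Set V) →g G.induce ((X.biUnion P : Finset V) : Set V) :=
    { toFun := fun w => ⟨w.1, hsub w.1 w.2⟩
      map_rel' := fun {a b} hab => hab }
  exact ((hP x hx).2.preconnected ⟨x0, (hP x hx).1⟩ ⟨z, hzx⟩).map φ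

/-- the vertices of `S` without a neighbour in `B` -/
noncomputable def und {V : Type} [Fintype V] (G : SimpleGraph V) (S B : Finset V) : Finset V :=
  S.filter (fun u => ∀ x ∈ B, ¬ G.Adj u x)

theorem sel_of (hD : S_DIAM) (hS : S_STEP) : S_SEL := by
  intro V _ G K s t S hK hG hs hlog ht
  have key : ∀ j : ℕ, j ≤ t → ∃ F : Finset (Finset V), F.card = j ∧
      (∀ B ∈ F, B ⊆ S ∧ B.card ≤ 24 * s ∧ B.Nonempty ∧ (G.induce (B : Set V)).Connected ∧
        ((und G S B).card : ℝ) ≤ 2 * S.card * (7 / 8 : ℝ) ^ s) ∧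
      ∀ B ∈ F, ∀ C ∈ F, B ≠ C → Disjoint B C ∧ ∃ u ∈ B, ∃ w ∈ C, G.Adj u w := by
    intro j
    induction j with
    | zero =>
      intro _
      exact ⟨∅, rfl, by simp, by simp⟩
    | succ j ih =>
      intro hj
      obtain ⟨F, hF, h1, h2⟩ := ih (by omega)
      set Z := F.biUnion id with hZ
      have hZc : Z.card ≤ K / 4 := by
        have e1 : Z.card ≤ F.card * (24 * s) := card_biUnion_le_card_mul _ _ _ (fun B hB => (h1 B hB).2.1)
        have e2 : F.card * (24 * s) ≤ 24 * s * t := by
          rw [hF, mul_comm]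
          exact Nat.mul_le_mul_left _ (by omega)
        omega
      have htK : t ≤ K / 4 := by
        have : 1 * t ≤ 24 * s * t := Nat.mul_le_mul_right _ (by omega)
        omega
      obtain ⟨X, hX1, hX2, hX3, hX4, hX5⟩ := hS V G K s S Z (F.image (und G S)) hK hG hZc
        (by
          have := card_image_le (s := F) (f := und G S)
          omega)
        (by
          intro A hA
          obtain ⟨B, hB, rfl⟩ := mem_image.1 hA
          exact (h1 B hB).2.2.2.2) hs hlog
      obtain ⟨x0, hx0⟩ := hX2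
      have hP : ∀ x : V, ∃ P : Finset V, x ∈ X → P ⊆ S \ Z ∧ x0 ∈ P ∧ x ∈ P ∧ P.card ≤ 24 ∧
          (G.induce (P : Set V)).Connected := by
        intro x
        by_cases hx : x ∈ X
        · obtain ⟨P, h⟩ := hD V G K S Z hK hG hZc x0 (hX1 hx0) x (hX1 hx)
          exact ⟨P, fun _ => h⟩
        · exact ⟨∅, fun h => absurd h hx⟩
      choose P hP using hP
      set B' := X.biUnion P with hB'
      have hXB : X ⊆ B' := by
        intro x hx
        rw [hB', mem_biUnion]
        exact ⟨x, hx, (hP x hx).2.2.1⟩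
      have hBS : B' ⊆ S \ Z := by
        intro x hx
        rw [hB', mem_biUnion] at hx
        obtain ⟨y, hy, hxy⟩ := hx
        exact (hP y hy).1 hxy
      have hBne : B'.Nonempty := ⟨x0, hXB hx0⟩
      have hdisj : ∀ C ∈ F, Disjoint C B' := by
        intro C hC
        rw [Finset.disjoint_left]
        intro x hx hx'
        have := (mem_sdiff.1 (hBS hx')).2
        apply this
        rw [hZ, mem_biUnion]
        exact ⟨C, hC, hx⟩
      have hBF : B' ∉ F := by
        intro h
        have := hdisj B' h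
        rw [disjoint_self_iff_empty] at this
        rw [this] at hBne
        exact absurd hBne not_nonempty_empty
      have hadj : ∀ C ∈ F, ∃ u ∈ C, ∃ w ∈ B', G.Adj u w := by
        intro C hC
        have h := hX4 (und G S C) (mem_image_of_mem _ hC)
        rw [Finset.not_subset] at h
        obtain ⟨x, hx, hx'⟩ := h
        rw [und, mem_filter, not_and] at hx'
        have := hx' (mem_sdiff.1 (hX1 hx)).1
        push Not at this
        obtain ⟨y, hy, hxy⟩ := this
        exact ⟨y, hy, x, hXB hx, hxy.symm⟩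
      refine ⟨insert B' F, ?_, ?_, ?_⟩
      · rw [card_insert_of_notMem hBF, hF]
      · intro B hB
        rcases mem_insert.1 hB with rfl | hB
        · refine ⟨fun x hx => (mem_sdiff.1 (hBS hx)).1, ?_, hBne, ?_, ?_⟩
          · have e1 : B'.card ≤ X.card * 24 :=
              card_biUnion_le_card_mul _ _ _ (fun x hx => (hP x hx).2.2.2.1)
            have e2 : X.card * 24 ≤ s * 24 := Nat.mul_le_mul_right _ hX3
            omega
          · exact conn_union G x0 X ⟨x0, hx0⟩ P (fun x hx => ⟨(hP x hx).2.1, (hP x hx).2.2.2.2⟩)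
          · refine le_trans ?_ hX5
            have : und G S B' ⊆ S.filter (fun u => ∀ x ∈ X, ¬ G.Adj u x) := by
              intro u hu
              rw [und, mem_filter] at hu
              rw [mem_filter]
              exact ⟨hu.1, fun x hx => hu.2 x (hXB hx)⟩
            exact_mod_cast card_le_card this
        · exact h1 B hB
      · intro B hB C hC hBC
        rcases mem_insert.1 hB with rfl | hB <;> rcases mem_insert.1 hC with rfl | hC
        · exact absurd rfl hBC
        · obtain ⟨u, hu, w, hw, huw⟩ := hadj C hC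
          exact ⟨(hdisj C hC).symm, w, hw, u, hu, huw.symm⟩
        · exact ⟨hdisj B hB, hadj B hB⟩
        · exact h2 B hB C hC hBC
  obtain ⟨F, hF, h1, h2⟩ := key t le_rfl
  let e := (F.equivFinOfCardEq hF).symm
  refine ⟨fun i => ((e i : Finset V) : Set V), ?_, ?_, ?_⟩
  · intro i
    exact (h1 _ (e i).2).2.2.2.1
  · intro i j hij
    have hne : (e i : Finset V) ≠ e j := fun h => hij (e.injective (Subtype.ext h))
    exact Finset.disjoint_coe.2 (h2 _ (e i).2 _ (e j).2 hne).1
  · intro i j hij
    have hne : (e i : Finset V) ≠ e j := fun h => hij (e.injective (Subtype.ext h))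
    obtain ⟨u, hu, w, hw, huw⟩ := (h2 _ (e i).2 _ (e j).2 hne).2
    exact ⟨u, hu, w, hw, huw⟩

end Pool.Agent.J4H23.HR
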