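import Mathlib
import Pool.Agent.J4H23.HR.Stm

set_option autoImplicit false

namespace Pool.Agent.J4H23.HR

open Finset Classical

/-- functions into `M` (all of whose values lie in `A`) -/
lemma card_fun {V : Type} [Fintype V] (M A : Finset V) (s : ℕ) :
    ((Fintype.piFinset (fun _ : Fin s => M)).filter (fun f => ∀ i, f i ∈ A)).card =
      (M ∩ A).card ^ s := by
  have h : ((Fintype.piFinset (fun _ : Fin s => M)).filter (fun f => ∀ i, f i ∈ A)) =
      Fintype.piFinset (fun _ : Fin s => M ∩ A) := by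
    ext f
    simp only [mem_filter, Fintype.mem_piFinset, mem_inter]
    constructor
    · rintro ⟨h1, h2⟩ i
      exact ⟨h1 i, h2 i⟩
    · intro h
      exact ⟨fun i => (h i).1, fun i => (h i).2⟩
  rw [h, Fintype.card_piFinset]
  simp

theorem t_STEP : S_STEP := by
  intro V _ G K s S Z L hK hG hZ hL hA hs hlog
  obtain ⟨hSne, hS2, hdeg, -⟩ := hG
  set M := S \ Z with hM
  have hMS : M.card ≤ S.card := card_le_card sdiff_subset
  have hMS' : (M.card : ℝ) ≤ S.card := by exact_mod_cast hMS
  -- the size of M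
  have hSK : K < 2 * S.card := by
    obtain ⟨v, hv⟩ := hSne
    have h1 := hdeg v hv
    have h2 : dg G S v ≤ S.card := card_le_card (filter_subset _ _)
    omega
  have hMZ : S.card ≤ M.card + Z.card := by
    have := card_le_card_sdiff_add_card (s := S) (t := Z)
    omega
  have hM2 : S.card ≤ 2 * M.card := by omega
  have hM2' : (S.card : ℝ) ≤ 2 * M.card := by exact_mod_cast hM2
  have hMpos : 0 < M.card := by omega
  have hMpos' : (0 : ℝ) < M.card := by exact_mod_cast hMpos
  have hSpos' : (0 : ℝ) < S.card := by linarith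
  -- non-neighbours
  have hnn : ∀ u ∈ S, ((M ∩ S.filter (fun x => ¬ G.Adj u x)).card : ℝ) ≤ 7 / 8 * M.card := by
    intro u hu
    have h1 : (M ∩ S.filter (fun x => ¬ G.Adj u x)).card + dg G S u ≤ M.card + Z.card := by
      have h2 : M.card = (M.filter (fun x => G.Adj u x)).card + (M.filter (fun x => ¬ G.Adj u x)).card :=
        (card_filter_add_card_filter_not _).symm
      have h3 : M ∩ S.filter (fun x => ¬ G.Adj u x) ⊆ M.filter (fun x => ¬ G.Adj u x) := by
        intro x hx
        rw [mem_inter, mem_filter] at hx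
        exact mem_filter.2 ⟨hx.1, hx.2.2⟩
      have h4 : S.filter (fun x => G.Adj u x) ⊆ M.filter (fun x => G.Adj u x) ∪ Z := by
        intro x hx
        rw [mem_filter] at hx
        rw [mem_union, mem_filter, hM, mem_sdiff]
        by_cases hxZ : x ∈ Z
        · exact Or.inr hxZ
        · exact Or.inl ⟨⟨hx.1, hxZ⟩, hx.2⟩
      have h5 := card_le_card h3
      have h6 := (card_le_card h4).trans (card_union_le _ _)
      unfold dg
      omega
    have h2 := hdeg u hu
    have h3 : 8 * (M ∩ S.filter (fun x => ¬ G.Adj u x)).card ≤ 7 * M.card := by omega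
    have h4 : (8 : ℝ) * ((M ∩ S.filter (fun x => ¬ G.Adj u x)).card : ℝ) ≤ 7 * M.card := by
      exact_mod_cast h3
    linarith
  set Ω := Fintype.piFinset (fun _ : Fin s => M) with hΩ
  have hΩc : Ω.card = M.card ^ s := by
    rw [hΩ, Fintype.card_piFinset]
    simp
  set a : ℝ := 2 * S.card * (7 / 8 : ℝ) ^ s with ha
  have hapos : 0 < a := by positivity
  -- bad functions of the first kind
  set B1 := Ω.filter (fun f => ∃ A ∈ L, ∀ i, f i ∈ A) with hB1
  set und : (Fin s → V) → Finset V := fun f => S.filter (fun u => ∀ i, ¬ G.Adj u (f i)) with hund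
  set B2 := Ω.filter (fun f => a < ((und f).card : ℝ)) with hB2
  have hB1c : (B1.card : ℝ) ≤ K * a ^ s := by
    have h1 : B1 ⊆ L.biUnion (fun A => Ω.filter (fun f => ∀ i, f i ∈ A)) := by
      intro f hf
      rw [hB1, mem_filter] at hf
      obtain ⟨h1, A, hA, h2⟩ := hf
      rw [mem_biUnion]
      exact ⟨A, hA, mem_filter.2 ⟨h1, h2⟩⟩
    have h2 : (B1.card : ℝ) ≤ ∑ A ∈ L, ((Ω.filter (fun f => ∀ i, f i ∈ A)).card : ℝ) := by
      have := (card_le_card h1).trans card_biUnion_le
      exact_mod_cast this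
    refine h2.trans ?_
    calc ∑ A ∈ L, ((Ω.filter (fun f => ∀ i, f i ∈ A)).card : ℝ) ≤ ∑ _A ∈ L, a ^ s := by
          apply sum_le_sum
          intro A hA'
          rw [hΩ, card_fun]
          push_cast
          apply pow_le_pow_left₀ (by positivity)
          refine le_trans ?_ (hA A hA')
          exact_mod_cast card_le_card inter_subset_right
      _ = L.card * a ^ s := by rw [sum_const, nsmul_eq_mul]
      _ ≤ K * a ^ s := by
          apply mul_le_mul_of_nonneg_right _ (by positivity)
          exact_mod_cast hL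
  -- bad functions of the second kind
  have hB2c : a * (B2.card : ℝ) ≤ S.card * (7 / 8 * M.card) ^ s := by
    calc a * (B2.card : ℝ) = ∑ _f ∈ B2, a := by rw [sum_const, nsmul_eq_mul, mul_comm]
      _ ≤ ∑ f ∈ B2, ((und f).card : ℝ) := by
          apply sum_le_sum
          intro f hf
          exact (mem_filter.1 hf).2.le
      _ ≤ ∑ f ∈ Ω, ((und f).card : ℝ) :=
          sum_le_sum_of_subset_of_nonneg (filter_subset _ _) (fun _ _ _ => by positivity)
      _ = ∑ u ∈ S, ((Ω.filter (fun f => ∀ i, ¬ G.Adj u (f i))).card : ℝ) := by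
          have h1 : ∀ f, ((und f).card : ℝ) = ∑ u ∈ S, if ∀ i, ¬ G.Adj u (f i) then (1 : ℝ) else 0 := by
            intro f
            rw [hund]
            simp only
            rw [card_filter]
            push_cast
            rfl
          simp_rw [h1]
          rw [sum_comm]
          apply sum_congr rfl
          intro u _
          rw [card_filter]
          push_cast
          rfl
      _ ≤ ∑ _u ∈ S, (7 / 8 * M.card : ℝ) ^ s := by
          apply sum_le_sum
          intro u hu
          have h1 : Ω.filter (fun f => ∀ i, ¬ G.Adj u (f i)) =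
              Ω.filter (fun f => ∀ i, f i ∈ S.filter (fun x => ¬ G.Adj u x)) := by
            apply filter_congr
            intro f hf
            rw [hΩ, Fintype.mem_piFinset] at hf
            apply forall_congr'
            intro i
            rw [mem_filter]
            have := (mem_sdiff.1 (hf i)).1
            tauto
          rw [h1, hΩ, card_fun]
          push_cast
          exact pow_le_pow_left₀ (by positivity) (hnn u hu) s
      _ = S.card * (7 / 8 * M.card) ^ s := by rw [sum_const, nsmul_eq_mul]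
  have hB2c' : (B2.card : ℝ) ≤ (M.card : ℝ) ^ s / 2 := by
    have h1 : (S.card : ℝ) * (7 / 8 * M.card) ^ s = a * ((M.card : ℝ) ^ s / 2) := by
      rw [ha, mul_pow]
      ring
    rw [h1] at hB2c
    exact le_of_mul_le_mul_left hB2c hapos
  have hB1c' : (K : ℝ) * a ^ s < (M.card : ℝ) ^ s / 2 := by
    have h78 : (0 : ℝ) < 7 / 8 := by norm_num
    have h1 : a ≤ M.card * (4 * (7 / 8 : ℝ) ^ s) := by
      rw [ha]
      have : (0 : ℝ) < (7 / 8 : ℝ) ^ s := by positivity
      nlinarith
    have h2 : a ^ s ≤ (M.card : ℝ) ^ s * (4 * (7 / 8 : ℝ) ^ s) ^ s := by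
      rw [← mul_pow]
      exact pow_le_pow_left₀ hapos.le h1 s
    -- (4 (7/8)^s)^s < 1 / (2K)
    have h3 : (4 * (7 / 8 : ℝ) ^ s) ^ 2 ≤ (0.65 : ℝ) * (7 / 8) ^ s := by
      have e1 : (4 * (7 / 8 : ℝ) ^ s) ^ 2 = (16 * (7 / 8 : ℝ) ^ s) * (7 / 8) ^ s := by ring
      rw [e1]
      apply mul_le_mul_of_nonneg_right _ (by positivity)
      have e2 : (7 / 8 : ℝ) ^ s ≤ (7 / 8) ^ 24 := pow_le_pow_of_le_one (by norm_num) (by norm_num) hs
      have e3 : (16 : ℝ) * (7 / 8) ^ 24 ≤ 0.65 := by norm_num
      linarith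
    have hKpos : (0 : ℝ) < K := by
      have : 0 < K := by omega
      exact_mod_cast this
    have h4 : ((4 * (7 / 8 : ℝ) ^ s) ^ s) ^ 2 < (1 / (2 * K) : ℝ) ^ 2 := by
      have e1 : ((4 * (7 / 8 : ℝ) ^ s) ^ s) ^ 2 = ((4 * (7 / 8 : ℝ) ^ s) ^ 2) ^ s := by
        exact pow_right_comm _ _ _
      rw [e1]
      calc ((4 * (7 / 8 : ℝ) ^ s) ^ 2) ^ s ≤ ((0.65 : ℝ) * (7 / 8) ^ s) ^ s :=
            pow_le_pow_left₀ (by positivity) h3 s
        _ = (0.65 : ℝ) ^ s * ((7 / 8) ^ s) ^ s := by rw [mul_pow]
        _ < 1 * ((7 / 8) ^ s) ^ s := by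
            apply mul_lt_mul_of_pos_right _ (by positivity)
            exact pow_lt_one₀ (by norm_num) (by norm_num) (by omega)
        _ = (7 / 8 : ℝ) ^ (s * s) := by rw [one_mul, ← pow_mul]
        _ ≤ (1 / (2 * K) : ℝ) ^ 2 := by
            have e2 : (7 / 8 : ℝ) ^ (s * s) = Real.exp (Real.log (7 / 8) * (s * s : ℕ)) := by
              rw [mul_comm (Real.log _), Real.exp_nat_mul, Real.exp_log h78]
            have e3 : (1 / (2 * K) : ℝ) ^ 2 = Real.exp (-(2 * Real.log (2 * K))) := by
              rw [Real.exp_neg, two_mul (Real.log _), Real.exp_add, Real.exp_log (by positivity)]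
              field_simp
            rw [e2, e3]
            apply Real.exp_le_exp.2
            have e4 : Real.log (7 / 8 : ℝ) ≤ -(1 / 8) := by
              have := Real.log_le_sub_one_of_pos h78
              linarith
            have e5 : ((s * s : ℕ) : ℝ) = (s : ℝ) ^ 2 := by push_cast; ring
            rw [e5]
            have e6 : (0 : ℝ) ≤ (s : ℝ) ^ 2 := by positivity
            nlinarith
    have h5 : (4 * (7 / 8 : ℝ) ^ s) ^ s < 1 / (2 * K) := lt_of_pow_lt_pow_left₀ 2 (by positivity) h4
    calc (K : ℝ) * a ^ s ≤ K * ((M.card : ℝ) ^ s * (4 * (7 / 8 : ℝ) ^ s) ^ s) :=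
          mul_le_mul_of_nonneg_left h2 hKpos.le
      _ < K * ((M.card : ℝ) ^ s * (1 / (2 * K))) := by
          apply mul_lt_mul_of_pos_left _ hKpos
          exact mul_lt_mul_of_pos_left h5 (by positivity)
      _ = (M.card : ℝ) ^ s / 2 := by
          field_simp
  -- a good function
  have hlt : (B1 ∪ B2).card < Ω.card := by
    have h1 : ((B1 ∪ B2).card : ℝ) ≤ B1.card + B2.card := by exact_mod_cast card_union_le _ _
    have h2 : ((B1 ∪ B2).card : ℝ) < Ω.card := by
      rw [hΩc]
      push_cast
      linarith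
    exact_mod_cast h2
  obtain ⟨f, hf, hf'⟩ := exists_mem_notMem_of_card_lt_card hlt
  rw [mem_union, not_or] at hf'
  obtain ⟨hf1, hf2⟩ := hf'
  have hfM : ∀ i, f i ∈ M := by
    rw [hΩ, Fintype.mem_piFinset] at hf
    exact hf
  refine ⟨univ.image f, ?_, ?_, ?_, ?_, ?_⟩
  · intro x hx
    obtain ⟨i, -, rfl⟩ := mem_image.1 hx
    exact hfM i
  · exact ⟨f ⟨0, by omega⟩, mem_image_of_mem _ (mem_univ _)⟩
  · refine card_image_le.trans ?_
    simp
  · intro A hA' hsub
    apply hf1
    rw [hB1, mem_filter]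
    exact ⟨hf, A, hA', fun i => hsub (mem_image_of_mem _ (mem_univ _))⟩
  · rw [hB2, mem_filter, not_and, not_lt] at hf2
    have h1 : S.filter (fun u => ∀ x ∈ univ.image f, ¬ G.Adj u x) = und f := by
      rw [hund]
      apply filter_congr
      intro u _
      simp
    rw [h1]
    exact hf2 hf

end Pool.Agent.J4H23.HR
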