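import Mathlib
import Pool.Agent.J4H23.HR.Kt
import Pool.Agent.J4H23.HR.Sel
import Pool.Agent.J4H23.HR.Step
import Pool.Agent.J4H23.HR.Diam
import Pool.Agent.J4H10.HR.Kconn

set_option autoImplicit false

namespace Pool.Agent.J4H23.HR

open Finset Classical

/-- **the theorem of Kostochka and Thomason** -/
theorem t_KT : S_KT := kt_of Pool.Agent.J4H10.HR.t_KCONN (sel_of t_DIAM t_STEP)

end Pool.Agent.J4H23.HR
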