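import Mathlib

/-!
Numerics.
-/

set_option autoImplicit false

namespace Pool.Agent.J4H23.HR

open Filter Real

/-- all inequalities between `n`, `k`, `κ` which are needed -/
theorem num (δ : ℝ) (hδ : 0 < δ) : ∃ A : ℝ, 0 < A ∧ A < 1 / 6 ∧ ∀ B : ℕ, ∃ n₀ : ℕ, ∀ n : ℕ,
    n₀ ≤ n → ∀ k : ℕ, (log n) ^ (1 / 2 + δ) ≤ k → 2 ≤ n ∧ 2 ≤ k ∧
    (∀ L : ℝ, log 2 ≤ L → L ≤ log k → 8 ≤ A * k * log k / L ∧
      A * k * log k / L ≤ 2 * (k : ℝ) ^ 2 ∧
      exp (-(A * k * log k / L) ^ 2 / 16) ≤ 1 / (n : ℝ) ^ (B + 1) ∧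
      ∀ k₁ k₂ : ℕ, k₁ + k₂ = k → (k : ℝ) ≤ 3 * k₁ → (k : ℝ) ≤ 2 * k₂ →
        n * exp (A * k * log k / L - k₁ * k₂ * exp (-(2 * L * (A * k * log k / L) / k₁))) ≤
          1 / (n : ℝ) ^ (B + 1)) := by
  obtain ⟨A, hA⟩ : ∃ A : ℝ, A = δ / (3 + 6 * δ) := ⟨_, rfl⟩
  have hA0 : 0 < A := by rw [hA]; positivity
  have hA6 : A < 1 / 6 := by
    rw [hA, div_lt_div_iff₀ (by positivity) (by norm_num)]
    linarith
  have hAδ : (1 / 2 + δ) * (2 - 6 * A) = 1 + δ := by
    have h1 : A * (3 + 6 * δ) = δ := by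
      rw [hA]
      field_simp
    linear_combination (-1) * h1
  refine ⟨A, hA0, hA6, ?_⟩
  intro B
  -- conditions on `k`
  have hlogk : Tendsto (fun x : ℝ => log x / x ^ (1 - 6 * A)) atTop (nhds 0) := by
    have := isLittleO_log_rpow_atTop (r := 1 - 6 * A) (by linarith)
    exact this.tendsto_div_nhds_zero
  have e1 : ∀ᶠ x : ℝ in atTop, log x / x ^ (1 - 6 * A) < 1 / 3 :=
    hlogk.eventually (gt_mem_nhds (by norm_num))
  have e2 : ∀ᶠ x : ℝ in atTop, 8 / A ≤ x := eventually_ge_atTop _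
  have e3 : ∀ᶠ x : ℝ in atTop, (2 : ℝ) ≤ x := eventually_ge_atTop _
  obtain ⟨k₀, hk₀⟩ := (e1.and (e2.and e3)).exists_forall_of_atTop
  -- conditions on `n`
  have hlog : Tendsto (fun n : ℕ => log n) atTop atTop :=
    tendsto_log_atTop.comp tendsto_natCast_atTop_atTop
  have f1 : ∀ᶠ n : ℕ in atTop, k₀ ≤ (log n) ^ (1 / 2 + δ) :=
    ((tendsto_rpow_atTop (by linarith : 0 < 1 / 2 + δ)).comp hlog).eventually_ge_atTop _
  have f2 : ∀ᶠ n : ℕ in atTop, (12 * (B + 2) : ℝ) ≤ (log n) ^ δ :=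
    ((tendsto_rpow_atTop hδ).comp hlog).eventually_ge_atTop _
  have f3 : ∀ᶠ n : ℕ in atTop, (16 * (B + 1) : ℝ) / A ^ 2 ≤ (log n) ^ (2 * δ) :=
    ((tendsto_rpow_atTop (by linarith : 0 < 2 * δ)).comp hlog).eventually_ge_atTop _
  have f4 : ∀ᶠ n : ℕ in atTop, (1 : ℝ) ≤ log n := hlog.eventually_ge_atTop _
  have f5 : ∀ᶠ n : ℕ in atTop, 2 ≤ n := eventually_ge_atTop _
  obtain ⟨n₀, hn₀⟩ := (f1.and (f2.and (f3.and (f4.and f5)))).exists_forall_of_atTop
  refine ⟨n₀, ?_⟩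
  intro n hn k hk
  obtain ⟨g1, g2, g3, g4, g5⟩ := hn₀ n hn
  obtain ⟨h1, h2, h3⟩ := hk₀ k (g1.trans hk)
  have hk0 : (0 : ℝ) < k := by linarith
  have hn0 : (0 : ℝ) < n := by
    have : 0 < n := by omega
    exact_mod_cast this
  have hlogn : 0 < log n := by linarith
  refine ⟨g5, by exact_mod_cast h3, ?_⟩
  intro L hL1 hL2
  have hlog2 : (0.6931471803 : ℝ) < log 2 := log_two_gt_d9
  have hL0 : 0 < L := by linarith
  have hlk : 0 < log k := by linarith
  have hAk : A * k ≤ A * k * log k / L := by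
    rw [le_div_iff₀ hL0]
    exact mul_le_mul_of_nonneg_left hL2 (by positivity)
  have hAk8 : 8 ≤ A * k := by
    rw [div_le_iff₀ hA0] at h2
    linarith
  have hκ2 : A * k * log k / L ≤ 1 / 4 * (k * log k) := by
    rw [div_le_iff₀ hL0]
    have : 0 < k * log k := by positivity
    nlinarith
  have hlogk2 : log k ≤ k := (log_le_sub_one_of_pos hk0).trans (by linarith)
  refine ⟨hAk8.trans hAk, ?_, ?_, ?_⟩
  · refine hκ2.trans ?_
    nlinarith
  · -- the dense case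
    have h4 : (log n) ^ (1 + 2 * δ) ≤ (k : ℝ) ^ 2 := by
      have h5 : ((log n) ^ (1 / 2 + δ)) ^ 2 = (log n) ^ (1 + 2 * δ) := by
        rw [← rpow_natCast, ← rpow_mul hlogn.le]
        congr 1
        push_cast
        ring
      rw [← h5]
      exact pow_le_pow_left₀ (by positivity) hk 2
    have h6 : (log n) ^ (1 + 2 * δ) = log n * (log n) ^ (2 * δ) := by
      rw [rpow_add hlogn, rpow_one]
    have h7 : (B + 1) * log n ≤ (A * k * log k / L) ^ 2 / 16 := by
      have h8 : (A * k) ^ 2 ≤ (A * k * log k / L) ^ 2 := pow_le_pow_left₀ (by positivity) hAk 2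
      have h9 : 16 * (B + 1) * log n ≤ (A * k) ^ 2 := by
        calc 16 * (B + 1) * log n = A ^ 2 * (log n * (16 * (B + 1) / A ^ 2)) := by
              field_simp
          _ ≤ A ^ 2 * (log n * (log n) ^ (2 * δ)) := by gcongr
          _ = A ^ 2 * (log n) ^ (1 + 2 * δ) := by rw [h6]
          _ ≤ A ^ 2 * (k : ℝ) ^ 2 := by gcongr
          _ = (A * k) ^ 2 := by ring
      linarith
    have h8 : 1 / (n : ℝ) ^ (B + 1) = exp (-((B + 1) * log n)) := by
      have : ((B : ℝ) + 1) * log n = ((B + 1 : ℕ) : ℝ) * log n := by push_cast; ring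
      rw [exp_neg, this, exp_nat_mul, exp_log hn0, one_div]
    rw [h8]
    apply exp_le_exp.2
    have : -(A * k * log k / L) ^ 2 / 16 = -((A * k * log k / L) ^ 2 / 16) := by ring
    rw [this]
    linarith
  · -- the sparse case
    intro k₁ k₂ hk12 hk1 hk2
    have hk1' : (0 : ℝ) < k₁ := by linarith
    have hk2' : (0 : ℝ) < k₂ := by linarith
    have h4 : 2 * L * (A * k * log k / L) / k₁ ≤ 6 * A * log k := by
      rw [div_le_iff₀ hk1']
      have : 2 * L * (A * k * log k / L) = 2 * A * log k * k := by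
        field_simp
      rw [this]
      have : 0 < A * log k := by positivity
      nlinarith
    have h5 : (k : ℝ) ^ (-(6 * A)) ≤ exp (-(2 * L * (A * k * log k / L) / k₁)) := by
      rw [rpow_def_of_pos hk0]
      apply exp_le_exp.2
      linarith
    have h6 : (k : ℝ) ^ 2 / 6 ≤ k₁ * k₂ := by
      have : (k : ℝ) * k ≤ (3 * k₁) * (2 * k₂) := mul_le_mul hk1 hk2 hk0.le (by positivity)
      nlinarith
    have h7 : (k : ℝ) ^ 2 * (k : ℝ) ^ (-(6 * A)) = (k : ℝ) ^ (2 - 6 * A) := by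
      rw [← rpow_natCast, ← rpow_add hk0]
      congr 1
    have h8 : (k : ℝ) ^ (2 - 6 * A) / 6 ≤
        k₁ * k₂ * exp (-(2 * L * (A * k * log k / L) / k₁)) := by
      rw [← h7]
      calc (k : ℝ) ^ 2 * (k : ℝ) ^ (-(6 * A)) / 6 = (k : ℝ) ^ 2 / 6 * (k : ℝ) ^ (-(6 * A)) := by
            ring
        _ ≤ k₁ * k₂ * exp (-(2 * L * (A * k * log k / L) / k₁)) :=
            mul_le_mul h6 h5 (by positivity) (by positivity)
    have h9 : A * k * log k / L ≤ (k : ℝ) ^ (2 - 6 * A) / 12 := by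
      refine hκ2.trans ?_
      have h10 : log k ≤ 1 / 3 * (k : ℝ) ^ (1 - 6 * A) := by
        rw [div_lt_iff₀ (by positivity)] at h1
        exact h1.le
      have h11 : (k : ℝ) ^ (2 - 6 * A) = k * (k : ℝ) ^ (1 - 6 * A) := by
        have : (2 - 6 * A) = 1 + (1 - 6 * A) := by ring
        rw [this, rpow_add hk0, rpow_one]
      rw [h11]
      have h16 : k * log k ≤ k * (1 / 3 * (k : ℝ) ^ (1 - 6 * A)) :=
        mul_le_mul_of_nonneg_left h10 hk0.le
      linarith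
    have h12 : (log n) ^ (1 + δ) ≤ (k : ℝ) ^ (2 - 6 * A) := by
      rw [← hAδ, rpow_mul hlogn.le]
      exact rpow_le_rpow (by positivity) hk (by linarith)
    have h13 : (log n) ^ (1 + δ) = log n * (log n) ^ δ := by
      rw [rpow_add hlogn, rpow_one]
    have h14 : 12 * (B + 2) * log n ≤ (k : ℝ) ^ (2 - 6 * A) := by
      refine le_trans ?_ h12
      rw [h13, mul_comm]
      exact mul_le_mul_of_nonneg_left g2 hlogn.le
    have h15 : A * k * log k / L - k₁ * k₂ * exp (-(2 * L * (A * k * log k / L) / k₁)) ≤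
        -((B + 2) * log n) := by
      linarith
    calc n * exp (A * k * log k / L - k₁ * k₂ * exp (-(2 * L * (A * k * log k / L) / k₁)))
        ≤ n * exp (-((B + 2) * log n)) := by
          apply mul_le_mul_of_nonneg_left _ hn0.le
          exact exp_le_exp.2 h15
      _ = 1 / (n : ℝ) ^ (B + 1) := by
          have : ((B : ℝ) + 2) * log n = ((B + 1 : ℕ) : ℝ) * log n + log n := by push_cast; ring
          rw [this, exp_neg, exp_add, exp_nat_mul, exp_log hn0]
          field_simp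

end Pool.Agent.J4H23.HR
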