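import Mathlib
import Pool.Agent.J4H23.HR.Dense
import Pool.Agent.J4H23.HR.Num
import Pool.Agent.J4H23.HR.KtFull
import Pool.Agent.J4H23.HR.Greedy2

/-!
The colouring theorem: for every graph thinned by noise, the chromatic number is at most
`O(log (1 / ε) a / log a)` where `a` is the maximum average degree.
-/

set_option autoImplicit false

namespace Pool.Agent.J4H23.HR

open Finset Classical

/-- with high probability, for every large `k`, the random graph is `k`-colourable or has a subgraph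
of average degree at least `A k log k / (2 log (1 / ε))` -/
def S_CORE : Prop := ∀ δ : ℝ, 0 < δ → ∃ A : ℝ, 0 < A ∧ A < 1 / 6 ∧ ∀ B : ℕ, ∃ n₀ : ℕ,
  ∀ (V : Type) [Fintype V] (p : Sym2 V → ℝ) (ε : ℝ), n₀ ≤ Fintype.card V →
  0 < ε → ε ≤ 1 / 2 → (∀ e, 0 ≤ p e ∧ p e ≤ 1 - ε) →
  Pr (prs univ) p (fun F => ∃ k : ℕ, (Real.log (Fintype.card V)) ^ (1 / 2 + δ) ≤ k ∧
    1 / ε ≤ k ∧ ¬ (SimpleGraph.fromEdgeSet (F : Set (Sym2 V))).Colorable k ∧
    ∀ S : Finset V, S.Nonempty →
      ∑ v ∈ S, (dg (SimpleGraph.fromEdgeSet (F : Set (Sym2 V))) S v : ℝ) ≤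
        A * k * Real.log k / Real.log (1 / ε) / 2 * S.card) ≤ 1 / (Fintype.card V : ℝ) ^ B

/-- degrees -/
lemma dg_sum {V : Type} [Fintype V] (F : Finset (Sym2 V)) (S : Finset V) :
    ∑ v ∈ S, (dg (SimpleGraph.fromEdgeSet (F : Set (Sym2 V))) S v : ℝ) =
      2 * ((F ∩ prs S).card : ℝ) := by
  have h4 : ∀ v ∈ S, (dg (SimpleGraph.fromEdgeSet (F : Set (Sym2 V))) S v : ℝ) =
      wd (fun e => if e ∈ F then (1 : ℝ) else 0) S v := by
    intro v _
    unfold dg wd
    rw [sum_boole]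
    congr 2
    ext y
    rw [@mem_filter _ _ (_) _ _, mem_filter, mem_erase, SimpleGraph.fromEdgeSet_adj, mem_coe]
    constructor
    · rintro ⟨h1, h2, h3⟩
      exact ⟨⟨h3.symm, h1⟩, h2⟩
    · rintro ⟨⟨h3, h1⟩, h2⟩
      exact ⟨h1, h2, h3.symm⟩
  rw [sum_congr rfl h4, handshake, sum_boole]
  congr 3
  ext e
  rw [mem_filter, mem_inter, and_comm]

/-- a set of large expected degrees has many edges with high probability -/
lemma dense_core {V : Type} [Fintype V] (p : Sym2 V → ℝ) (hp : ∀ e, 0 ≤ p e ∧ p e ≤ 1) {κ : ℝ}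
    (hκ : 0 ≤ κ) (S : Finset V) (hS : S.Nonempty) (hw : ∀ v ∈ S, κ ≤ wd p S v) :
    Pr (prs univ) p (fun F =>
      ∑ v ∈ S, (dg (SimpleGraph.fromEdgeSet (F : Set (Sym2 V))) S v : ℝ) ≤ κ / 2 * S.card) ≤
      Real.exp (-κ ^ 2 / 16) := by
  set μ := ∑ e ∈ prs S, p e with hμ
  have hsub : prs S ⊆ prs (univ : Finset V) := by
    intro e he
    rw [mem_prs_univ]
    exact (Pool.Agent.J4H10.HR.mem_prs.1 he).2
  have h2μ : κ * S.card ≤ 2 * μ := by
    rw [hμ, ← handshake]
    calc κ * S.card = ∑ _v ∈ S, κ := by rw [sum_const, nsmul_eq_mul, mul_comm]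
      _ ≤ _ := sum_le_sum (fun v hv => hw v hv)
  have hSκ : κ ≤ S.card := by
    obtain ⟨v, hv⟩ := hS
    refine (hw v hv).trans ?_
    unfold wd
    calc ∑ u ∈ S.erase v, p s(v, u) ≤ ∑ _u ∈ S.erase v, (1 : ℝ) :=
          sum_le_sum (fun u _ => (hp _).2)
      _ = (S.erase v).card := by rw [sum_const, nsmul_eq_mul, mul_one]
      _ ≤ S.card := by exact_mod_cast card_le_card (erase_subset _ _)
  have hμκ : κ ^ 2 / 2 ≤ μ := by nlinarith
  have h1 : Pr (prs univ) p (fun F =>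
      ∑ v ∈ S, (dg (SimpleGraph.fromEdgeSet (F : Set (Sym2 V))) S v : ℝ) ≤ κ / 2 * S.card) ≤
      Pr (prs univ) p (fun F => ((F ∩ prs S).card : ℝ) ≤ μ / 2) := by
    apply Pr_mono (fun e _ => hp e)
    intro F _ h
    rw [dg_sum] at h
    linarith
  refine h1.trans ?_
  rw [Pr_inter' hsub p (fun F => (F.card : ℝ) ≤ μ / 2)]
  refine (cher (prs S) p (fun e _ => hp e)).trans ?_
  apply Real.exp_le_exp.2
  rw [← hμ]
  linarith

theorem t_CORE : S_CORE := by
  intro δ hδ
  obtain ⟨A, hA0, hA6, hnumB⟩ := num δ hδ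
  refine ⟨A, hA0, hA6, ?_⟩
  intro B
  obtain ⟨n₀, hnum⟩ := hnumB B
  refine ⟨n₀, ?_⟩
  intro V _ p ε hn hε0 hε1 hp
  set n := Fintype.card V with hndef
  have hp1 : ∀ e, 0 ≤ p e ∧ p e ≤ 1 := fun e => ⟨(hp e).1, (hp e).2.trans (by linarith)⟩
  set L := Real.log (1 / ε) with hL
  have hL2 : Real.log 2 ≤ L := by
    apply Real.log_le_log (by norm_num)
    rw [le_div_iff₀ hε0]
    linarith
  have hlog2 : 0 < Real.log 2 := Real.log_pos (by norm_num)
  have hL0 : 0 < L := by linarith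
  set s : Finset ℕ := (range n).filter
    (fun k : ℕ => (Real.log n) ^ (1 / 2 + δ) ≤ (k : ℝ) ∧ 1 / ε ≤ (k : ℝ)) with hs
  set E : ℕ → Finset (Sym2 V) → Prop := fun k F =>
    ¬ (SimpleGraph.fromEdgeSet (F : Set (Sym2 V))).Colorable k ∧
    ∀ S : Finset V, S.Nonempty →
      ∑ v ∈ S, (dg (SimpleGraph.fromEdgeSet (F : Set (Sym2 V))) S v : ℝ) ≤
        A * k * Real.log k / L / 2 * S.card with hE
  have hkey : ∀ k ∈ s, Pr (prs univ) p (E k) ≤ 1 / (n : ℝ) ^ (B + 1) := by
    intro k hk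
    rw [hs, mem_filter] at hk
    obtain ⟨-, hk1, hk2⟩ := hk
    obtain ⟨hn2, hk2', hnum'⟩ := hnum n hn k hk1
    have hk0 : (0 : ℝ) < k := by
      have : 0 < k := by omega
      exact_mod_cast this
    have hLk : L ≤ Real.log k := Real.log_le_log (by positivity) hk2
    obtain ⟨q1, q2, q3, q4⟩ := hnum' L hL2 hLk
    set κ := A * k * Real.log k / L with hκ
    rcases dich p κ univ with hdeg | ⟨S, -, hSne, hS⟩
    · -- small expected degeneracy
      have h1 := t_GREEDY2 V p ε κ (k / 2) (k - k / 2) univ hε0 hε1 hp (by omega) (by linarith) hdeg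
      have h2 : k / 2 + (k - k / 2) = k := by omega
      rw [h2, card_univ] at h1
      refine le_trans ?_ (h1.trans (q4 (k / 2) (k - k / 2) h2 ?_ ?_))
      · apply Pr_mono (fun e _ => hp1 e)
        intro F _ hF hcol
        apply hF.1
        obtain ⟨c, hc⟩ := hcol
        refine ⟨SimpleGraph.Coloring.mk c ?_⟩
        intro a b hab
        rw [SimpleGraph.fromEdgeSet_adj] at hab
        exact hc a (mem_univ _) b (mem_univ _) hab.2 (by exact_mod_cast hab.1)
      · have : k ≤ 3 * (k / 2) := by omega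
        exact_mod_cast this
      · have : k ≤ 2 * (k - k / 2) := by omega
        exact_mod_cast this
    · -- a dense subset
      refine le_trans ?_ q3
      refine le_trans ?_ (dense_core p hp1 (by linarith : 0 ≤ κ) S hSne (fun v hv => (hS v hv).le))
      apply Pr_mono (fun e _ => hp1 e)
      intro F _ hF
      exact hF.2 S hSne
  have h1 : Pr (prs univ) p (fun F => ∃ k : ℕ, (Real.log n) ^ (1 / 2 + δ) ≤ k ∧ 1 / ε ≤ k ∧
      ¬ (SimpleGraph.fromEdgeSet (F : Set (Sym2 V))).Colorable k ∧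
      ∀ S : Finset V, S.Nonempty →
      ∑ v ∈ S, (dg (SimpleGraph.fromEdgeSet (F : Set (Sym2 V))) S v : ℝ) ≤
        A * k * Real.log k / L / 2 * S.card) ≤
      Pr (prs univ) p (fun F => ∃ k ∈ s, E k F) := by
    apply Pr_mono (fun e _ => hp1 e)
    rintro F - ⟨k, h1, h2, h3, h4⟩
    refine ⟨k, ?_, h3, h4⟩
    rw [hs, mem_filter, mem_range]
    refine ⟨?_, h1, h2⟩
    by_contra hcon
    push Not at hcon
    apply h3
    exact (SimpleGraph.colorable_of_fintype _).mono hcon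
  refine h1.trans ((Pr_le_sum (fun e _ => hp1 e) s E).trans ?_)
  calc ∑ k ∈ s, Pr (prs univ) p (E k) ≤ ∑ _k ∈ s, 1 / (n : ℝ) ^ (B + 1) := sum_le_sum hkey
    _ = s.card * (1 / (n : ℝ) ^ (B + 1)) := by rw [sum_const, nsmul_eq_mul]
    _ ≤ n * (1 / (n : ℝ) ^ (B + 1)) := by
        apply mul_le_mul_of_nonneg_right _ (by positivity)
        have : s.card ≤ n := (card_filter_le _ _).trans (by simp)
        exact_mod_cast this
    _ ≤ 1 / (n : ℝ) ^ B := by
        rcases Nat.eq_zero_or_pos n with h | h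
        · rw [h]
          simp
        · have : (0 : ℝ) < n := by exact_mod_cast h
          apply le_of_eq
          rw [pow_succ]
          field_simp

end Pool.Agent.J4H23.HR
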