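import Mathlib
import Pool.Agent.J4H23.HR.Copies

set_option autoImplicit false

namespace Pool.Agent.J4H23.HR

open Finset Classical

/-- many disjoint copies of a counterexample: with high probability the random subgraph is a
counterexample -/
lemma copies_bad {M K J N : ℕ} (F : SimpleGraph (Fin M)) (hK : 0 < J) (h1 : ¬ F.Colorable K)
    (h2 : ¬ HasCliqueMinor F J) :
    1 - (1 - (1 / 2 : ℝ) ^ (M * (M + 1) / 2)) ^ N ≤
      prob (thin (1 / 2) (cop F N)) (fun H => ¬ H.Colorable K ∧ ¬ HasCliqueMinor H J) := by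
  rw [t_TRANS]
  set G := cop F N with hG
  set p := thin (1 / 2) G with hp
  have hpe : ∀ e, 0 ≤ p e ∧ p e ≤ 1 := by
    intro e
    rw [hp]
    unfold thin
    split_ifs <;> norm_num
  obtain ⟨A, hA⟩ : ∃ A : Finset (Sym2 (Fin N × Fin M)) → Prop,
      A = fun F' : Finset (Sym2 (Fin N × Fin M)) =>
    ¬ (SimpleGraph.fromEdgeSet (F' : Set (Sym2 (Fin N × Fin M)))).Colorable K ∧
      ¬ HasCliqueMinor (SimpleGraph.fromEdgeSet (F' : Set (Sym2 (Fin N × Fin M)))) J := ⟨_, rfl⟩
  rw [← hA, Pr_compl]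
  apply sub_le_sub_left
  have hsub : (univ : Finset (Fin N)).biUnion (ce F N) ⊆ prs univ := by
    intro e he
    rw [mem_biUnion] at he
    obtain ⟨i, -, he⟩ := he
    obtain ⟨a, b, hab, rfl⟩ := mem_ce.1 he
    rw [mem_prs_univ, Sym2.mk_isDiag_iff]
    intro h
    exact hab.ne (Prod.mk.inj h).2
  set R := (prs univ).filter (fun e => p e = 0) with hR
  -- the bad event
  have hcover : ∀ F' ⊆ prs (univ : Finset (Fin N × Fin M)), ¬ A F' →
      (∃ e ∈ R, e ∈ F') ∨ ∀ i ∈ (univ : Finset (Fin N)), ¬ ce F N i ⊆ F' := by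
    intro F' hF' hAF
    by_contra hcon
    push Not at hcon
    obtain ⟨h3, i, -, h4⟩ := hcon
    apply hAF
    rw [hA]
    have hle : SimpleGraph.fromEdgeSet (F' : Set (Sym2 (Fin N × Fin M))) ≤ G := by
      intro u v huv
      rw [SimpleGraph.fromEdgeSet_adj, mem_coe] at huv
      by_contra hno
      apply h3 s(u, v) _ huv.1
      rw [hR, mem_filter]
      refine ⟨hF' huv.1, ?_⟩
      rw [hp]
      unfold thin
      rw [if_neg]
      rwa [SimpleGraph.mem_edgeSet]
    refine ⟨?_, ?_⟩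
    · rintro ⟨c⟩
      apply h1
      refine ⟨SimpleGraph.Coloring.mk (fun a => c (i, a)) ?_⟩
      intro a b hab
      apply c.valid
      rw [SimpleGraph.fromEdgeSet_adj, mem_coe]
      refine ⟨h4 (mem_ce.2 ⟨a, b, hab, rfl⟩), ?_⟩
      intro h
      exact hab.ne (Prod.mk.inj h).2
    · intro h
      exact h2 (cop_minor hle hK h)
  have hR0 : Pr (prs univ) p (fun F' => ∃ e ∈ R, e ∈ F') ≤ 0 := by
    refine (Pr_le_sum (fun e _ => hpe e) R (fun e F' => e ∈ F')).trans ?_
    apply sum_nonpos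
    intro e he
    rw [hR, mem_filter] at he
    rw [Pr_single he.1, he.2]
  have hN : Pr (prs univ) p (fun F' => ∀ i ∈ (univ : Finset (Fin N)), ¬ ce F N i ⊆ F') ≤
      (1 - (1 / 2 : ℝ) ^ (M * (M + 1) / 2)) ^ N := by
    have e1 : Pr (prs univ) p (fun F' => ∀ i ∈ (univ : Finset (Fin N)), ¬ ce F N i ⊆ F') =
        Pr ((univ : Finset (Fin N)).biUnion (ce F N)) p
          (fun F' => ∀ i ∈ (univ : Finset (Fin N)), ¬ ce F N i ⊆ F') := by
      rw [← Pr_inter' hsub p (fun F' => ∀ i ∈ (univ : Finset (Fin N)), ¬ ce F N i ⊆ F')]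
      congr 1
      ext F'
      apply forall₂_congr
      intro i hi
      rw [subset_inter_iff]
      have : ce F N i ⊆ (univ : Finset (Fin N)).biUnion (ce F N) := subset_biUnion_of_mem _ hi
      tauto
    rw [e1, Pr_nosub' univ (ce F N) p (fun i _ j _ hij => ce_disj F N hij)]
    have e2 : ∀ i ∈ (univ : Finset (Fin N)), (1 - ∏ e ∈ ce F N i, p e) ≤
        1 - (1 / 2 : ℝ) ^ (M * (M + 1) / 2) := by
      intro i _
      apply sub_le_sub_left
      have e3 : ∏ e ∈ ce F N i, p e = (1 / 2 : ℝ) ^ (ce F N i).card := by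
        apply prod_eq_pow_card
        intro e he
        obtain ⟨a, b, hab, rfl⟩ := mem_ce.1 he
        rw [hp]
        unfold thin
        rw [if_pos]
        · norm_num
        · rw [SimpleGraph.mem_edgeSet]
          exact ⟨rfl, hab⟩
      rw [e3]
      exact pow_le_pow_of_le_one (by norm_num) (by norm_num) (ce_card F N i)
    refine (prod_le_prod (fun i _ => ?_) e2).trans ?_
    · have : ∏ e ∈ ce F N i, p e ≤ 1 := prod_le_one (fun e _ => (hpe e).1) (fun e _ => (hpe e).2)
      linarith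
    · rw [prod_const, card_univ, Fintype.card_fin]
  calc Pr (prs univ) p (fun F' => ¬ A F')
      ≤ Pr (prs univ) p (fun F' => ∃ x ∈ (univ : Finset (Fin 2)),
          (if x = 0 then (∃ e ∈ R, e ∈ F') else
            ∀ i ∈ (univ : Finset (Fin N)), ¬ ce F N i ⊆ F')) := by
        apply Pr_mono (fun e _ => hpe e)
        intro F' hF' hAF
        rcases hcover F' hF' hAF with h | h
        · exact ⟨0, mem_univ _, by rw [if_pos rfl]; exact h⟩
        · exact ⟨1, mem_univ _, by rw [if_neg (by decide)]; exact h⟩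
    _ ≤ ∑ x ∈ (univ : Finset (Fin 2)), Pr (prs univ) p (fun F' =>
          (if x = 0 then (∃ e ∈ R, e ∈ F') else
            ∀ i ∈ (univ : Finset (Fin N)), ¬ ce F N i ⊆ F')) :=
        Pr_le_sum (fun e _ => hpe e) _ _
    _ ≤ (1 - (1 / 2 : ℝ) ^ (M * (M + 1) / 2)) ^ N := by
        rw [Fin.sum_univ_two]
        simp only [if_true, Fin.one_eq_zero_iff, OfNat.ofNat_ne_one, if_false]
        linarith

end Pool.Agent.J4H23.HR
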