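import Mathlib
import Pool.Agent.J4H23.HR.Equiv

set_option autoImplicit false

namespace Pool.Agent.J4H23.HR

open Finset Classical
open Pool.Agent.TH507.Host Pool.Agent.R34.Ident Pool.Agent.R34.FH

lemma prob_mono {V : Type} [Fintype V] {p : Sym2 V → ℝ} (hp : ∀ e, 0 ≤ p e ∧ p e ≤ 1)
    {A B : SimpleGraph V → Prop} (h : ∀ H, A H → B H) : prob p A ≤ prob p B := by
  rw [t_TRANS, t_TRANS]
  exact Pr_mono (fun e _ => hp e) (fun F _ => h _)

lemma thin_mem {V : Type} (G : SimpleGraph V) (e : Sym2 V) :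
    0 ≤ thin (1 / 2) G e ∧ thin (1 / 2) G e ≤ 1 := by
  unfold thin
  split_ifs <;> norm_num

/-- a counterexample on some `Fin m` -/
lemma to_fin {V : Type} [Fintype V] (G : SimpleGraph V) (k j : ℕ) (h1 : ¬ G.Colorable k)
    (h2 : ¬ HasCliqueMinor G j) : ∃ F : SimpleGraph (Fin (Fintype.card V)),
      ¬ F.Colorable k ∧ ¬ HasCliqueMinor F j := by
  let e := (Fintype.equivFin V).symm
  refine ⟨G.comap e, ?_, ?_⟩
  · rintro ⟨c⟩
    apply h1
    refine ⟨SimpleGraph.Coloring.mk (fun v => c (e.symm v)) ?_⟩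
    intro a b hab
    apply c.valid
    rw [SimpleGraph.comap_adj]
    simpa using hab
  · intro h
    apply h2
    exact (minor_iff G j).1 (minor_trans ((minor_iff _ j).2 h)
      (minor_sub e e.injective (fun u v huv => huv)))

lemma num_equiv {m k n₀ : ℕ} : ∃ r : ℕ, n₀ ≤ k + r ∧ 10 ≤ k + r ∧ m + r ≤ 2 * (k + r) ∧
    (m + r) * (m + r + 1) / 2 ≤ (k + r) ^ 2 := by
  refine ⟨n₀ + 10 * m + 10, by omega, by omega, by omega, ?_⟩
  apply Nat.div_le_of_le_mul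
  generalize hr : n₀ + 10 * m + 10 = r
  have e1 : 10 * (m + r) ≤ 11 * (k + r) := by omega
  have e2 : 10 * (m + r + 1) ≤ 12 * (k + r) := by omega
  have e3 := Nat.mul_le_mul e1 e2
  have e4 : 0 ≤ (k + r) ^ 2 := Nat.zero_le _
  nlinarith

theorem t_EQUIVj (j : ℕ) (hT : ∃ n₀ : ℕ, ∀ (V : Type) [Fintype V] (G : SimpleGraph V) (d : ℕ),
    n₀ ≤ Fintype.card V → √(Real.logb 2 (Fintype.card V)) / 2 ≤ d → ¬ G.Colorable d →
    prob (thin (1 / 2) G) (fun H => ∃ k : ℕ, ¬ H.Colorable k ∧ ¬ HasCliqueMinor H (k + j)) ≤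
      1 - 1 / (Fintype.card V : ℝ)) :
    ∀ (V : Type) [Fintype V] (G : SimpleGraph V) (k : ℕ), ¬ G.Colorable k →
      HasCliqueMinor G (k + j) := by
  obtain ⟨n₀, hT⟩ := hT
  intro V _ G k h1
  by_contra h2
  obtain ⟨F₀, h3, h4⟩ := to_fin G k (k + j) h1 h2
  obtain ⟨r, q1, q2, q3, q4⟩ := num_equiv (m := Fintype.card V) (k := k) (n₀ := n₀)
  obtain ⟨K, hK⟩ : ∃ K, K = k + r := ⟨_, rfl⟩
  obtain ⟨M, hM⟩ : ∃ M, M = Fintype.card V + r := ⟨_, rfl⟩
  obtain ⟨F, h5, h6⟩ : ∃ F : SimpleGraph (Fin M), ¬ F.Colorable K ∧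
      ¬ HasCliqueMinor F (K + j) := by
    rw [hM, hK]
    exact iter_cone F₀ h3 h4 r
  rw [← hK] at q1 q2 q3 q4
  rw [← hM] at q3 q4
  set N := 2 ^ (2 * K ^ 2) with hN
  have hM0 : 0 < M := by
    rcases Nat.eq_zero_or_pos M with h | h
    · exfalso
      apply h5
      have : IsEmpty (Fin M) := by rw [h]; infer_instance
      exact SimpleGraph.Colorable.of_isEmpty _
    · exact h
  have hcard : Fintype.card (Fin N × Fin M) = N * M := by simp
  have hKN : 2 * K ≤ N := by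
    have e1 : 2 * K ≤ 2 * K ^ 2 := by nlinarith
    have e2 : 2 * K ^ 2 < 2 ^ (2 * K ^ 2) := Nat.lt_two_pow_self
    omega
  have hN1 : n₀ ≤ N * M := by
    have : N * 1 ≤ N * M := Nat.mul_le_mul_left _ hM0
    omega
  have hN2 : N * M ≤ 2 ^ (4 * K ^ 2) := by
    calc N * M ≤ N * N := Nat.mul_le_mul_left _ (by omega)
      _ = 2 ^ (4 * K ^ 2) := by
          rw [hN, ← pow_add]
          congr 1
          ring
  have hNM0 : 0 < N * M := Nat.mul_pos (by positivity) hM0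
  have hNMr : (0 : ℝ) < ((N * M : ℕ) : ℝ) := by exact_mod_cast hNM0
  have hlog : Real.log ((N * M : ℕ) : ℝ) ≤ 4 * (K : ℝ) ^ 2 * Real.log 2 := by
    have e1 : Real.log ((N * M : ℕ) : ℝ) ≤ Real.log ((2 : ℝ) ^ (4 * K ^ 2)) := by
      apply Real.log_le_log hNMr
      exact_mod_cast hN2
    rw [Real.log_pow] at e1
    push_cast at e1 ⊢
    linarith
  have hlog2 : 0 < Real.log 2 := Real.log_pos (by norm_num)
  have hf : √(Real.logb 2 ((N * M : ℕ) : ℝ)) / 2 ≤ (K : ℝ) := by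
    have e1 : Real.logb 2 ((N * M : ℕ) : ℝ) ≤ (2 * (K : ℝ)) ^ 2 := by
      unfold Real.logb
      rw [div_le_iff₀ hlog2]
      linarith
    have e2 : √(Real.logb 2 ((N * M : ℕ) : ℝ)) ≤ 2 * (K : ℝ) := by
      rw [show 2 * (K : ℝ) = √((2 * (K : ℝ)) ^ 2) from (Real.sqrt_sq (by positivity)).symm]
      exact Real.sqrt_le_sqrt e1
    linarith
  have hN0 : 0 < N := by positivity
  have hcol : ¬ (cop F N).Colorable K := by
    rintro ⟨c⟩
    apply h5
    refine ⟨SimpleGraph.Coloring.mk (fun a => c (⟨0, hN0⟩, a)) ?_⟩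
    intro a b hab
    exact c.valid ⟨rfl, hab⟩
  have h7 := hT (Fin N × Fin M) (cop F N) K (by rw [hcard]; exact hN1)
    (by rw [hcard]; exact hf) hcol
  have h8 := copies_bad (N := N) F (by omega : 0 < K + j) h5 h6
  have h9 : prob (thin (1 / 2) (cop F N))
      (fun H => ¬ H.Colorable K ∧ ¬ HasCliqueMinor H (K + j)) ≤
      prob (thin (1 / 2) (cop F N)) (fun H => ∃ k : ℕ, ¬ H.Colorable k ∧
        ¬ HasCliqueMinor H (k + j)) := by
    apply prob_mono (thin_mem _)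
    intro H hH
    exact ⟨K, hH⟩
  have h10 := h8.trans (h9.trans h7)
  rw [hcard] at h10
  -- `1 / n ≤ (1 - 2 ^ (-e)) ^ N ≤ exp (-2 ^ (K ^ 2))`
  set x : ℝ := (1 / 2 : ℝ) ^ (M * (M + 1) / 2) with hx
  have hx0 : 0 < x := by positivity
  have hx1 : x ≤ 1 := pow_le_one₀ (by norm_num) (by norm_num)
  have h11 : 1 / ((N * M : ℕ) : ℝ) ≤ (1 - x) ^ N := by linarith
  have h12 : (1 - x) ^ N ≤ Real.exp (-(N * x)) := by
    have e1 : 1 - x ≤ Real.exp (-x) := by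
      have := Real.add_one_le_exp (-x)
      linarith
    calc (1 - x) ^ N ≤ (Real.exp (-x)) ^ N := pow_le_pow_left₀ (by linarith) e1 N
      _ = Real.exp (-(N * x)) := by
          rw [← Real.exp_nat_mul]
          congr 1
          ring
  have h13 : (2 : ℝ) ^ (K ^ 2) ≤ N * x := by
    have e1 : (1 / 2 : ℝ) ^ (K ^ 2) ≤ x := pow_le_pow_of_le_one (by norm_num) (by norm_num) q4
    have e2 : (N : ℝ) * (1 / 2 : ℝ) ^ (K ^ 2) = (2 : ℝ) ^ (K ^ 2) := by
      rw [hN]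
      push_cast
      rw [two_mul, pow_add, mul_assoc, ← mul_pow]
      norm_num
    rw [← e2]
    exact mul_le_mul_of_nonneg_left e1 (by positivity)
  have h14 : (2 : ℝ) ^ (K ^ 2) ≤ Real.log ((N * M : ℕ) : ℝ) := by
    have e1 : 1 / ((N * M : ℕ) : ℝ) ≤ Real.exp (-(2 : ℝ) ^ (K ^ 2)) := by
      refine h11.trans (h12.trans ?_)
      apply Real.exp_le_exp.2
      linarith
    have e2 : Real.exp ((2 : ℝ) ^ (K ^ 2)) ≤ ((N * M : ℕ) : ℝ) := by
      rw [Real.exp_neg, one_div] at e1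
      exact (inv_le_inv₀ hNMr (Real.exp_pos _)).1 e1
    rw [← Real.log_exp ((2 : ℝ) ^ (K ^ 2))]
    exact Real.log_le_log (Real.exp_pos _) e2
  have h15 : 3 * K ^ 2 < 2 ^ (K ^ 2) := by
    obtain ⟨y, hy⟩ : ∃ y, K ^ 2 = y + 2 := ⟨K ^ 2 - 2, by
      have : 100 ≤ K ^ 2 := by nlinarith
      omega⟩
    have e1 : y < 2 ^ y := Nat.lt_two_pow_self
    have e2 : 98 ≤ y := by
      have : 100 ≤ K ^ 2 := by nlinarith
      omega
    rw [hy, pow_add]
    omega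
  have h16 : 3 * (K : ℝ) ^ 2 < (2 : ℝ) ^ (K ^ 2) := by exact_mod_cast h15
  have hlog2' : Real.log 2 < 0.6931471808 := Real.log_two_lt_d9
  have hKsq : 0 ≤ (K : ℝ) ^ 2 := by positivity
  nlinarith

lemma prob_compl {V : Type} [Fintype V] (p : Sym2 V → ℝ) (A : SimpleGraph V → Prop) :
    prob p A = 1 - prob p (fun H => ¬ A H) := by
  rw [t_TRANS, t_TRANS]
  exact Pr_compl _ _ _

lemma prob_true {V : Type} [Fintype V] (p : Sym2 V → ℝ) {A : SimpleGraph V → Prop}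
    (hA : ∀ H, A H) : prob p A = 1 := by
  rw [t_TRANS]
  unfold Pr
  refine Eq.trans ?_ (Ex_const (prs univ) p 1)
  apply Ex_congr
  intro F _
  dsimp only
  rw [if_pos (hA _)]

end Pool.Agent.J4H23.HR
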