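import Mathlib
import Pool.Agent.J4H23.HR.Dense
import Pool.Agent.J4H23.HR.Num
import Pool.Agent.J4H23.HR.KtFull
import Pool.Agent.J4H23.HR.Stm2

set_option autoImplicit false

namespace Pool.Agent.J4H23.HR

open Finset Classical

theorem main_of (hG : S_GREEDY2) : S_MAIN := by
  intro δ hδ
  obtain ⟨c₀, hc₀, hKT⟩ := t_KT
  obtain ⟨A, hA0, hA6, hnumB⟩ := num δ hδ
  refine ⟨c₀ * A / 4, by positivity, ?_⟩
  intro B
  obtain ⟨n₀, hnum⟩ := hnumB B
  refine ⟨n₀, ?_⟩
  intro V _ p ε hn hε0 hε1 hp
  set n := Fintype.card V with hndef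
  rw [t_TRANS]
  have hp1 : ∀ e, 0 ≤ p e ∧ p e ≤ 1 := fun e => ⟨(hp e).1, (hp e).2.trans (by linarith)⟩
  set L := Real.log (1 / ε) with hL
  have hL2 : Real.log 2 ≤ L := by
    apply Real.log_le_log (by norm_num)
    rw [le_div_iff₀ hε0]
    linarith
  have hlog2 : 0 < Real.log 2 := Real.log_pos (by norm_num)
  have hL0 : 0 < L := by linarith
  set s : Finset ℕ := (range n).filter
    (fun k : ℕ => (Real.log n) ^ (1 / 2 + δ) ≤ (k : ℝ) ∧ 1 / ε ≤ (k : ℝ)) with hs
  set E : ℕ → Finset (Sym2 V) → Prop := fun k F =>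
    ¬ (SimpleGraph.fromEdgeSet (F : Set (Sym2 V))).Colorable k ∧
    ¬ HasCliqueMinor (SimpleGraph.fromEdgeSet (F : Set (Sym2 V)))
      ⌊c₀ * A / 4 * k * √(Real.log k) / L⌋₊ with hE
  have hkey : ∀ k ∈ s, Pr (prs univ) p (E k) ≤ 1 / (n : ℝ) ^ (B + 1) := by
    intro k hk
    rw [hs, mem_filter] at hk
    obtain ⟨-, hk1, hk2⟩ := hk
    obtain ⟨hn2, hk2', hnum'⟩ := hnum n hn k hk1
    have hk0 : (0 : ℝ) < k := by
      have : 0 < k := by omega
      exact_mod_cast this
    have hLk : L ≤ Real.log k := Real.log_le_log (by positivity) hk2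
    obtain ⟨q1, q2, q3, q4⟩ := hnum' L hL2 hLk
    set κ := A * k * Real.log k / L with hκ
    have hlk : 0 < Real.log k := by linarith
    rcases dich p κ univ with hdeg | ⟨S, -, hSne, hS⟩
    · -- small expected degeneracy
      have h1 := hG V p ε κ (k / 2) (k - k / 2) univ hε0 hε1 hp (by omega) (by linarith) hdeg
      have h2 : k / 2 + (k - k / 2) = k := by omega
      rw [h2, card_univ] at h1
      refine le_trans ?_ (h1.trans (q4 (k / 2) (k - k / 2) h2 ?_ ?_))
      · apply Pr_mono (fun e _ => hp1 e)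
        intro F _ hF hcol
        apply hF.1
        obtain ⟨c, hc⟩ := hcol
        refine ⟨SimpleGraph.Coloring.mk c ?_⟩
        intro a b hab
        rw [SimpleGraph.fromEdgeSet_adj] at hab
        exact hc a (mem_univ _) b (mem_univ _) hab.2 (by exact_mod_cast hab.1)
      · have : k ≤ 3 * (k / 2) := by omega
        exact_mod_cast this
      · have : k ≤ 2 * (k - k / 2) := by omega
        exact_mod_cast this
    · -- a dense subset
      refine le_trans ?_ q3
      refine le_trans ?_ (dense hKT p hp1 (by linarith : 4 ≤ κ) S hSne hS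
        ⌊c₀ * A / 4 * k * √(Real.log k) / L⌋₊ ?_)
      · apply Pr_mono (fun e _ => hp1 e)
        intro F _ hF
        exact hF.2
      · have h0 : 0 ≤ c₀ * A / 4 * k * √(Real.log k) / L := by positivity
        refine (Nat.floor_le h0).trans ?_
        have hk2κ : 1 < κ / 2 := by linarith
        have hlκ : 0 < Real.log (κ / 2) := Real.log_pos hk2κ
        have h3 : √(Real.log (κ / 2)) ≤ 2 * √(Real.log k) := by
          have h4 : Real.log (κ / 2) ≤ 4 * Real.log k := by
            have h5 : Real.log (κ / 2) ≤ Real.log ((k : ℝ) ^ 2) :=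
              Real.log_le_log (by linarith) (by linarith)
            rw [Real.log_pow] at h5
            push_cast at h5
            linarith
          calc √(Real.log (κ / 2)) ≤ √(4 * Real.log k) := Real.sqrt_le_sqrt h4
            _ = 2 * √(Real.log k) := by
                rw [Real.sqrt_mul (by norm_num)]
                congr 1
                rw [show (4 : ℝ) = 2 ^ 2 by norm_num, Real.sqrt_sq (by norm_num)]
        have h6 : 0 < √(Real.log (κ / 2)) := Real.sqrt_pos.2 hlκ
        rw [le_div_iff₀ h6]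
        calc c₀ * A / 4 * k * √(Real.log k) / L * √(Real.log (κ / 2))
            ≤ c₀ * A / 4 * k * √(Real.log k) / L * (2 * √(Real.log k)) :=
              mul_le_mul_of_nonneg_left h3 h0
          _ = c₀ * A / 2 * k * (√(Real.log k) * √(Real.log k)) / L := by ring
          _ = c₀ * (κ / 2) := by
              rw [Real.mul_self_sqrt hlk.le, hκ]
              ring
  have h1 : Pr (prs univ) p (fun F => ∃ k m : ℕ, (Real.log n) ^ (1 / 2 + δ) ≤ k ∧ 1 / ε ≤ k ∧
      (m : ℝ) ≤ c₀ * A / 4 * k * √(Real.log k) / L ∧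
      ¬ (SimpleGraph.fromEdgeSet (F : Set (Sym2 V))).Colorable k ∧
      ¬ HasCliqueMinor (SimpleGraph.fromEdgeSet (F : Set (Sym2 V))) m) ≤
      Pr (prs univ) p (fun F => ∃ k ∈ s, E k F) := by
    apply Pr_mono (fun e _ => hp1 e)
    rintro F - ⟨k, m, h1, h2, h3, h4, h5⟩
    refine ⟨k, ?_, h4, ?_⟩
    · rw [hs, mem_filter, mem_range]
      refine ⟨?_, h1, h2⟩
      by_contra hcon
      push Not at hcon
      apply h4
      exact (SimpleGraph.colorable_of_fintype _).mono hcon
    · intro h6
      apply h5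
      apply h6.mono
      exact Nat.le_floor h3
  refine h1.trans ((Pr_le_sum (fun e _ => hp1 e) s E).trans ?_)
  calc ∑ k ∈ s, Pr (prs univ) p (E k) ≤ ∑ _k ∈ s, 1 / (n : ℝ) ^ (B + 1) := sum_le_sum hkey
    _ = s.card * (1 / (n : ℝ) ^ (B + 1)) := by rw [sum_const, nsmul_eq_mul]
    _ ≤ n * (1 / (n : ℝ) ^ (B + 1)) := by
        apply mul_le_mul_of_nonneg_right _ (by positivity)
        have : s.card ≤ n := (card_filter_le _ _).trans (by simp)
        exact_mod_cast this
    _ ≤ 1 / (n : ℝ) ^ B := by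
        rcases Nat.eq_zero_or_pos n with h | h
        · rw [h]
          simp
        · have : (0 : ℝ) < n := by exact_mod_cast h
          apply le_of_eq
          rw [pow_succ]
          field_simp

end Pool.Agent.J4H23.HR
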