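import Mathlib

set_option autoImplicit false

namespace Pool.Agent.J4H23.HR

open Filter Real

theorem num_host (δ c₀ : ℝ) (hδ : 0 < δ) (hc₀ : 0 < c₀) (B : ℕ) : ∃ n₀ : ℕ, ∀ n : ℕ, n₀ ≤ n →
    ∀ d : ℕ, (log n) ^ (1 / 2 + δ) ≤ d → 2 ≤ n ∧ 100 ≤ d ∧ 1 ≤ log d ∧
      ((log n) ^ (1 / 2 + δ / 2) : ℝ) ≤ ⌊c₀ * (((d : ℝ) - 1 / 2) / 2 / 2) /
        √(log (((d : ℝ) - 1 / 2) / 2 / 2))⌋₊ ∧
      √(d : ℝ) ≤ ⌊c₀ * (((d : ℝ) - 1 / 2) / 2 / 2) / √(log (((d : ℝ) - 1 / 2) / 2 / 2))⌋₊ ∧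
      exp (-(((d : ℝ) - 1 / 2) / 2) ^ 2 / 16) ≤ 1 / (n : ℝ) ^ (B + 1) := by
  obtain ⟨η, hη⟩ : ∃ η : ℝ, η = (1 + δ) / (1 + 2 * δ) := ⟨_, rfl⟩
  have hη1 : η < 1 := by
    rw [hη, div_lt_one (by positivity)]
    linarith
  have hη2 : 1 / 2 ≤ η := by
    rw [hη, div_le_div_iff₀ (by norm_num) (by positivity)]
    linarith
  have hηδ : (1 / 2 + δ) * η = 1 / 2 + δ / 2 := by
    rw [hη]
    field_simp
  have hlogk : Tendsto (fun x : ℝ => log x / x ^ (1 - η)) atTop (nhds 0) :=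
    (isLittleO_log_rpow_atTop (r := 1 - η) (by linarith)).tendsto_div_nhds_zero
  have e1 : ∀ᶠ x : ℝ in atTop, log x / x ^ (1 - η) < c₀ / 16 :=
    hlogk.eventually (gt_mem_nhds (by positivity))
  have e2 : ∀ᶠ x : ℝ in atTop, (100 : ℝ) ≤ x := eventually_ge_atTop _
  have e3 : ∀ᶠ x : ℝ in atTop, (1 : ℝ) ≤ log x := tendsto_log_atTop.eventually_ge_atTop _
  obtain ⟨d₀, hd₀⟩ := (e1.and (e2.and e3)).exists_forall_of_atTop
  have hlog : Tendsto (fun n : ℕ => log n) atTop atTop :=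
    tendsto_log_atTop.comp tendsto_natCast_atTop_atTop
  have f1 : ∀ᶠ n : ℕ in atTop, d₀ ≤ (log n) ^ (1 / 2 + δ) :=
    ((tendsto_rpow_atTop (by linarith : 0 < 1 / 2 + δ)).comp hlog).eventually_ge_atTop _
  have f2 : ∀ᶠ n : ℕ in atTop, (256 * (B + 1) : ℝ) ≤ (log n) ^ (2 * δ) :=
    ((tendsto_rpow_atTop (by linarith : 0 < 2 * δ)).comp hlog).eventually_ge_atTop _
  have f4 : ∀ᶠ n : ℕ in atTop, (1 : ℝ) ≤ log n := hlog.eventually_ge_atTop _
  have f5 : ∀ᶠ n : ℕ in atTop, 2 ≤ n := eventually_ge_atTop _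
  obtain ⟨n₀, hn₀⟩ := (f1.and (f2.and (f4.and f5))).exists_forall_of_atTop
  refine ⟨n₀, ?_⟩
  intro n hn d hd
  obtain ⟨g1, g2, g4, g5⟩ := hn₀ n hn
  obtain ⟨h1, h2, h3⟩ := hd₀ d (g1.trans hd)
  have hd0 : (0 : ℝ) < d := by linarith
  have hn0 : (0 : ℝ) < n := by
    have : 0 < n := by omega
    exact_mod_cast this
  have hlogn : 0 < log n := by linarith
  -- the bound for the order of the minor
  set x : ℝ := ((d : ℝ) - 1 / 2) / 2 / 2 with hx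
  have hx1 : (d : ℝ) / 8 ≤ x := by rw [hx]; linarith
  have hx2 : x ≤ d := by rw [hx]; linarith
  have hx3 : 1 < x := by linarith
  have hlx : 0 < log x := log_pos hx3
  have hlx' : √(log x) ≤ log d := by
    have e1 : √(log x) ≤ √(log d) := sqrt_le_sqrt (log_le_log (by linarith) hx2)
    have e2 : √(log d) ≤ log d := by
      rw [sqrt_le_left (by linarith)]
      nlinarith
    linarith
  have hrpow : (1 : ℝ) ≤ (d : ℝ) ^ η := one_le_rpow (by linarith) (by linarith)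
  have hg : 2 * (d : ℝ) ^ η ≤ c₀ * x / √(log x) := by
    rw [le_div_iff₀ (sqrt_pos.2 hlx)]
    have e1 : log d ≤ c₀ / 16 * (d : ℝ) ^ (1 - η) := by
      rw [div_lt_iff₀ (by positivity)] at h1
      exact h1.le
    calc 2 * (d : ℝ) ^ η * √(log x) ≤ 2 * (d : ℝ) ^ η * (c₀ / 16 * (d : ℝ) ^ (1 - η)) := by
          apply mul_le_mul_of_nonneg_left (hlx'.trans e1) (by positivity)
      _ = c₀ / 8 * ((d : ℝ) ^ η * (d : ℝ) ^ (1 - η)) := by ring
      _ = c₀ / 8 * d := by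
          rw [← rpow_add hd0]
          norm_num
      _ ≤ c₀ * x := by nlinarith
  have hfl : (d : ℝ) ^ η ≤ ⌊c₀ * x / √(log x)⌋₊ := by
    have := Nat.lt_floor_add_one (c₀ * x / √(log x))
    linarith
  refine ⟨g5, by exact_mod_cast h2, h3, ?_, ?_, ?_⟩
  · refine le_trans ?_ hfl
    rw [← hηδ, rpow_mul hlogn.le]
    exact rpow_le_rpow (by positivity) hd (by linarith)
  · refine le_trans ?_ hfl
    rw [sqrt_eq_rpow]
    exact rpow_le_rpow_of_exponent_le (by linarith) hη2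
  · have h4 : (log n) ^ (1 + 2 * δ) ≤ (d : ℝ) ^ 2 := by
      have h5 : ((log n) ^ (1 / 2 + δ)) ^ 2 = (log n) ^ (1 + 2 * δ) := by
        rw [← rpow_natCast, ← rpow_mul hlogn.le]
        congr 1
        push_cast
        ring
      rw [← h5]
      exact pow_le_pow_left₀ (by positivity) hd 2
    have h6 : (log n) ^ (1 + 2 * δ) = log n * (log n) ^ (2 * δ) := by
      rw [rpow_add hlogn, rpow_one]
    have h7 : (B + 1) * log n ≤ (((d : ℝ) - 1 / 2) / 2) ^ 2 / 16 := by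
      have h8 : ((d : ℝ) / 4) ^ 2 ≤ (((d : ℝ) - 1 / 2) / 2) ^ 2 :=
        pow_le_pow_left₀ (by positivity) (by linarith) 2
      have h9 : 256 * (B + 1) * log n ≤ (d : ℝ) ^ 2 := by
        refine le_trans ?_ h4
        rw [h6, mul_comm]
        exact mul_le_mul_of_nonneg_left g2 hlogn.le
      nlinarith
    have h8 : 1 / (n : ℝ) ^ (B + 1) = exp (-((B + 1) * log n)) := by
      have : ((B : ℝ) + 1) * log n = ((B + 1 : ℕ) : ℝ) * log n := by push_cast; ring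
      rw [exp_neg, this, exp_nat_mul, exp_log hn0, one_div]
    rw [h8]
    apply exp_le_exp.2
    linarith

end Pool.Agent.J4H23.HR
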