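import Mathlib
import Pool.Agent.J4H23.HR.Main
import Pool.Agent.J4H23.HR.NumHost
import Pool.Agent.J4H23.HR.Greedy2

set_option autoImplicit false

namespace Pool.Agent.J4H23.HR

open Finset Classical

theorem t_MAIN : S_MAIN := main_of t_GREEDY2

/-- degenerate graphs are colourable -/
lemma deg_col {V : Type} [Fintype V] (G : SimpleGraph V) {ε : ℝ} (hε : ε ≤ 1 / 2) {d : ℕ}
    (hd : 1 ≤ d) {S : Finset V} (hS : Deg (thin ε G) (((d : ℝ) - 1 / 2) / 2) S) :
    ∃ c : V → Fin d, ∀ u ∈ S, ∀ w ∈ S, G.Adj u w → c u ≠ c w := by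
  induction hS with
  | empty => exact ⟨fun _ => ⟨0, hd⟩, by simp⟩
  | insert v S hv _ hw ih =>
    obtain ⟨c, hc⟩ := ih
    have h1 : (S.filter (fun u => G.Adj v u)).card < d := by
      have h2 : wd (thin ε G) S v = (1 - ε) * (S.filter (fun u => G.Adj v u)).card := by
        unfold wd thin
        rw [erase_eq_of_notMem hv, card_filter]
        push_cast
        rw [mul_sum]
        apply sum_congr rfl
        intro u _
        simp only [SimpleGraph.mem_edgeSet, mul_ite, mul_one, mul_zero]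
      rw [h2] at hw
      have h3 : ((S.filter (fun u => G.Adj v u)).card : ℝ) < d := by
        have h4 : (0 : ℝ) ≤ (S.filter (fun u => G.Adj v u)).card := Nat.cast_nonneg _
        nlinarith
      exact_mod_cast h3
    obtain ⟨j, hj⟩ : ∃ j : Fin d, j ∉ (S.filter (fun u => G.Adj v u)).image c := by
      by_contra hcon
      push Not at hcon
      have h3 : (univ : Finset (Fin d)) ⊆ (S.filter (fun u => G.Adj v u)).image c :=
        fun j _ => hcon j
      have h4 := (card_le_card h3).trans card_image_le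
      rw [card_univ, Fintype.card_fin] at h4
      omega
    have nS : ∀ x ∈ S, x ≠ v := fun x hx h => hv (h ▸ hx)
    refine ⟨Function.update c v j, ?_⟩
    intro u hu w hw' huw
    rcases mem_insert.1 hu with h | h <;> rcases mem_insert.1 hw' with h' | h'
    · exact absurd (h.trans h'.symm) huw.ne
    · subst h
      rw [Function.update_self, Function.update_of_ne (nS w h')]
      intro e
      apply hj
      rw [e]
      exact mem_image_of_mem _ (mem_filter.2 ⟨h', huw⟩)
    · subst h'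
      rw [Function.update_self, Function.update_of_ne (nS u h)]
      intro e
      apply hj
      rw [← e]
      exact mem_image_of_mem _ (mem_filter.2 ⟨h, huw.symm⟩)
    · rw [Function.update_of_ne (nS u h), Function.update_of_ne (nS w h')]
      exact hc u h w h' huw

theorem t_HOST : S_HOST := by
  intro δ hδ
  obtain ⟨c₀, hc₀, hKT⟩ := t_KT
  obtain ⟨c₁, hc₁, hM⟩ := t_MAIN (δ / 2) (by positivity)
  refine ⟨min (c₁ / 4) (1 / 2), by positivity, ?_⟩
  intro B
  obtain ⟨n₁, hM⟩ := hM (B + 1)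
  obtain ⟨n₂, hN⟩ := num_host δ c₀ hδ hc₀ B
  refine ⟨max n₁ n₂, ?_⟩
  intro V _ G ε d hn hd hcol hεc hε1
  obtain ⟨q1, q2, q3, q4, q5, q6⟩ := hN (Fintype.card V) ((le_max_right _ _).trans hn) d hd
  set n := Fintype.card V with hndef
  set p := thin ε G with hp
  have hε0 : 0 < ε := lt_of_lt_of_le (Real.exp_pos _) hεc
  have hpε : ∀ e, 0 ≤ p e ∧ p e ≤ 1 - ε := by
    intro e
    rw [hp]
    unfold thin
    split_ifs
    · exact ⟨by linarith, le_rfl⟩
    · exact ⟨le_rfl, by linarith⟩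
  have hp1 : ∀ e, 0 ≤ p e ∧ p e ≤ 1 := fun e => ⟨(hpε e).1, (hpε e).2.trans (by linarith)⟩
  have hd0 : (0 : ℝ) < d := by
    have : 0 < d := by omega
    exact_mod_cast this
  set κ : ℝ := ((d : ℝ) - 1 / 2) / 2 with hκ
  have hd100 : (100 : ℝ) ≤ d := by exact_mod_cast q2
  rcases dich p κ univ with hdeg | ⟨S, -, hSne, hS⟩
  · exfalso
    apply hcol
    obtain ⟨c, hc⟩ := deg_col G hε1 (by omega) hdeg
    exact ⟨SimpleGraph.Coloring.mk c (fun {a b} hab => hc a (mem_univ _) b (mem_univ _) hab)⟩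
  set m₀ := ⌊c₀ * (κ / 2) / √(Real.log (κ / 2))⌋₊ with hm₀
  have hκ2 : 1 < κ / 2 := by rw [hκ]; linarith
  have h1 : Pr (prs univ) p
      (fun F => ¬ HasCliqueMinor (SimpleGraph.fromEdgeSet (F : Set (Sym2 V))) m₀) ≤
      1 / (n : ℝ) ^ (B + 1) := by
    refine le_trans (dense hKT p hp1 (by rw [hκ]; linarith) S hSne hS m₀ ?_) q6
    apply Nat.floor_le
    have : 0 < Real.log (κ / 2) := Real.log_pos hκ2
    have : 0 < κ / 2 := by linarith
    positivity
  -- the noise
  have hlogε : Real.log (1 / ε) ≤ min (c₁ / 4) (1 / 2) * √(Real.log d) := by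
    have h2 := Real.log_le_log (Real.exp_pos _) hεc
    rw [Real.log_exp] at h2
    rw [one_div, Real.log_inv]
    linarith
  have hL0 : 0 < Real.log (1 / ε) := by
    apply Real.log_pos
    rw [lt_div_iff₀ hε0]
    linarith
  have hsd : 0 < √(Real.log d) := Real.sqrt_pos.2 (by linarith)
  have hεd : 1 / ε ≤ √(d : ℝ) := by
    have h2 : Real.log (1 / ε) ≤ Real.log (√(d : ℝ)) := by
      rw [Real.log_sqrt hd0.le]
      have h3 : √(Real.log d) ≤ Real.log d := by
        rw [Real.sqrt_le_left (by linarith)]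
        nlinarith
      have h4 : min (c₁ / 4) (1 / 2) * √(Real.log d) ≤ 1 / 2 * √(Real.log d) :=
        mul_le_mul_of_nonneg_right (min_le_right _ _) hsd.le
      linarith
    exact (Real.log_le_log_iff (by positivity) (by positivity)).1 h2
  have h2 : Pr (prs univ) p (fun F => ∃ k m : ℕ, (Real.log n) ^ (1 / 2 + δ / 2) ≤ k ∧
      1 / ε ≤ k ∧ (m : ℝ) ≤ c₁ * k * √(Real.log k) / Real.log (1 / ε) ∧
      ¬ (SimpleGraph.fromEdgeSet (F : Set (Sym2 V))).Colorable k ∧
      ¬ HasCliqueMinor (SimpleGraph.fromEdgeSet (F : Set (Sym2 V))) m) ≤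
      1 / (n : ℝ) ^ (B + 1) := by
    have h3 := hM V p ε ((le_max_left _ _).trans hn) hε0 hε1 hpε
    rw [t_TRANS] at h3
    exact h3
  rw [t_TRANS]
  obtain ⟨A₁, hA₁⟩ : ∃ A₁ : Finset (Sym2 V) → Prop, A₁ = fun F : Finset (Sym2 V) =>
    ¬ HasCliqueMinor (SimpleGraph.fromEdgeSet (F : Set (Sym2 V))) m₀ := ⟨_, rfl⟩
  obtain ⟨A₂, hA₂⟩ : ∃ A₂ : Finset (Sym2 V) → Prop, A₂ = fun F : Finset (Sym2 V) =>
    ∃ k m : ℕ, (Real.log n) ^ (1 / 2 + δ / 2) ≤ k ∧
      1 / ε ≤ k ∧ (m : ℝ) ≤ c₁ * k * √(Real.log k) / Real.log (1 / ε) ∧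
      ¬ (SimpleGraph.fromEdgeSet (F : Set (Sym2 V))).Colorable k ∧
      ¬ HasCliqueMinor (SimpleGraph.fromEdgeSet (F : Set (Sym2 V))) m := ⟨_, rfl⟩
  rw [← hA₁] at h1
  rw [← hA₂] at h2
  have h3 : Pr (prs univ) p (fun F => ∃ k : ℕ,
      ¬ (SimpleGraph.fromEdgeSet (F : Set (Sym2 V))).Colorable k ∧
      ¬ HasCliqueMinor (SimpleGraph.fromEdgeSet (F : Set (Sym2 V))) (k + 1)) ≤
      Pr (prs univ) p (fun F => ∃ i ∈ (univ : Finset (Fin 2)), (if i = 0 then A₁ F else A₂ F)) := by
    apply Pr_mono (fun e _ => hp1 e)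
    rintro F - ⟨k, hk1, hk2⟩
    by_cases hmin : HasCliqueMinor (SimpleGraph.fromEdgeSet (F : Set (Sym2 V))) m₀
    · refine ⟨1, mem_univ _, ?_⟩
      rw [if_neg (by decide), hA₂]
      have hkm : m₀ ≤ k := by
        by_contra hcon
        push Not at hcon
        exact hk2 (hmin.mono hcon)
      have hkm' : (m₀ : ℝ) ≤ k := by exact_mod_cast hkm
      have hkd : √(d : ℝ) ≤ k := q5.trans hkm'
      have hk0 : (0 : ℝ) < k := lt_of_lt_of_le (Real.sqrt_pos.2 hd0) hkd
      refine ⟨k, k + 1, q4.trans hkm', hεd.trans hkd, ?_, hk1, hk2⟩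
      rw [le_div_iff₀ hL0]
      have h4 : √(Real.log d) / 2 ≤ √(Real.log k) := by
        have h5 : Real.log d / 4 ≤ Real.log k := by
          have h6 : Real.log (√(d : ℝ)) ≤ Real.log k := Real.log_le_log (by positivity) hkd
          rw [Real.log_sqrt hd0.le] at h6
          linarith
        have h7 : √(Real.log d / 4) = √(Real.log d) / 2 := by
          rw [Real.sqrt_div (by linarith), show (4 : ℝ) = 2 ^ 2 by norm_num,
            Real.sqrt_sq (by norm_num)]
        rw [← h7]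
        exact Real.sqrt_le_sqrt h5
      have hk1' : (1 : ℝ) ≤ k := by
        have : 0 < k := by exact_mod_cast hk0
        exact_mod_cast this
      push_cast
      calc ((k : ℝ) + 1) * Real.log (1 / ε) ≤ (2 * k) * (c₁ / 4 * √(Real.log d)) := by
            apply mul_le_mul (by linarith) _ hL0.le (by positivity)
            refine hlogε.trans ?_
            exact mul_le_mul_of_nonneg_right (min_le_left _ _) hsd.le
        _ = c₁ * k * (√(Real.log d) / 2) := by ring
        _ ≤ c₁ * k * √(Real.log k) := mul_le_mul_of_nonneg_left h4 (by positivity)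
    · refine ⟨0, mem_univ _, ?_⟩
      rw [if_pos rfl, hA₁]
      exact hmin
  refine h3.trans ((Pr_le_sum (fun e _ => hp1 e) _ _).trans ?_)
  rw [Fin.sum_univ_two]
  simp only [if_true, Fin.one_eq_zero_iff, OfNat.ofNat_ne_one, if_false]
  have hn0 : (0 : ℝ) < n := by
    have : 0 < n := by omega
    exact_mod_cast this
  have hn2 : (2 : ℝ) ≤ n := by exact_mod_cast q1
  calc Pr (prs univ) p (fun F => A₁ F) + Pr (prs univ) p (fun F => A₂ F)
      ≤ 1 / (n : ℝ) ^ (B + 1) + 1 / (n : ℝ) ^ (B + 1) := add_le_add h1 h2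
    _ = 2 / (n : ℝ) ^ (B + 1) := by ring
    _ ≤ 1 / (n : ℝ) ^ B := by
        rw [div_le_div_iff₀ (by positivity) (by positivity), pow_succ]
        have : 0 < (n : ℝ) ^ B := by positivity
        nlinarith

end Pool.Agent.J4H23.HR
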