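import Mathlib
import Pool.Agent.J4H23.HR.Core

/-!
The robust theorem: noise, then an adversary.
-/

set_option autoImplicit false

namespace Pool.Agent.J4H23.HR

open Finset Classical Filter

/-- numerics -/
theorem num_rob (δ : ℝ) (hδ : 0 < δ) (B : ℕ) : ∃ n₀ : ℕ, ∀ n : ℕ, n₀ ≤ n →
    ∀ d : ℝ, (Real.log n) ^ (1 / 2 + δ) ≤ d → 2 ≤ n ∧ 16 ≤ d ∧ 4 ≤ Real.log d ∧
      ((Real.log n) ^ (1 / 2 + δ / 2) : ℝ) ≤ d / Real.log d ∧
      √d ≤ d / Real.log d ∧
      Real.exp (-d ^ 2 / 16) ≤ 1 / (n : ℝ) ^ (B + 1) := by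
  obtain ⟨η, hη⟩ : ∃ η : ℝ, η = (1 + δ) / (1 + 2 * δ) := ⟨_, rfl⟩
  have hη1 : η < 1 := by
    rw [hη, div_lt_one (by positivity)]
    linarith
  have hη2 : 1 / 2 ≤ η := by
    rw [hη, div_le_div_iff₀ (by norm_num) (by positivity)]
    linarith
  have hηδ : (1 / 2 + δ) * η = 1 / 2 + δ / 2 := by
    rw [hη]
    field_simp
  have hlogk : Tendsto (fun x : ℝ => Real.log x / x ^ (1 - η)) atTop (nhds 0) :=
    (isLittleO_log_rpow_atTop (r := 1 - η) (by linarith)).tendsto_div_nhds_zero
  have e1 : ∀ᶠ x : ℝ in atTop, Real.log x / x ^ (1 - η) < 1 :=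
    hlogk.eventually (gt_mem_nhds (by positivity))
  have e2 : ∀ᶠ x : ℝ in atTop, (16 : ℝ) ≤ x := eventually_ge_atTop _
  have e3 : ∀ᶠ x : ℝ in atTop, (4 : ℝ) ≤ Real.log x :=
    Real.tendsto_log_atTop.eventually_ge_atTop _
  obtain ⟨d₀, hd₀⟩ := (e1.and (e2.and e3)).exists_forall_of_atTop
  have hlog : Tendsto (fun n : ℕ => Real.log n) atTop atTop :=
    Real.tendsto_log_atTop.comp tendsto_natCast_atTop_atTop
  have f1 : ∀ᶠ n : ℕ in atTop, d₀ ≤ (Real.log n) ^ (1 / 2 + δ) :=
    ((tendsto_rpow_atTop (by linarith : 0 < 1 / 2 + δ)).comp hlog).eventually_ge_atTop _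
  have f2 : ∀ᶠ n : ℕ in atTop, (16 * (B + 1) : ℝ) ≤ (Real.log n) ^ (2 * δ) :=
    ((tendsto_rpow_atTop (by linarith : 0 < 2 * δ)).comp hlog).eventually_ge_atTop _
  have f4 : ∀ᶠ n : ℕ in atTop, (1 : ℝ) ≤ Real.log n := hlog.eventually_ge_atTop _
  have f5 : ∀ᶠ n : ℕ in atTop, 2 ≤ n := eventually_ge_atTop _
  obtain ⟨n₀, hn₀⟩ := (f1.and (f2.and (f4.and f5))).exists_forall_of_atTop
  refine ⟨n₀, ?_⟩
  intro n hn d hd
  obtain ⟨g1, g2, g4, g5⟩ := hn₀ n hn
  obtain ⟨h1, h2, h3⟩ := hd₀ d (g1.trans hd)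
  have hd0 : (0 : ℝ) < d := by linarith
  have hn0 : (0 : ℝ) < n := by
    have : 0 < n := by omega
    exact_mod_cast this
  have hlogn : 0 < Real.log n := by linarith
  have hlogd : 0 < Real.log d := by linarith
  have hfl : d ^ η ≤ d / Real.log d := by
    rw [le_div_iff₀ hlogd]
    rw [div_lt_one (by positivity)] at h1
    calc d ^ η * Real.log d ≤ d ^ η * d ^ (1 - η) :=
          mul_le_mul_of_nonneg_left h1.le (by positivity)
      _ = d := by
          rw [← Real.rpow_add hd0]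
          norm_num
  refine ⟨g5, h2, h3, ?_, ?_, ?_⟩
  · refine le_trans ?_ hfl
    rw [← hηδ, Real.rpow_mul hlogn.le]
    exact Real.rpow_le_rpow (by positivity) hd (by linarith)
  · refine le_trans ?_ hfl
    rw [Real.sqrt_eq_rpow]
    exact Real.rpow_le_rpow_of_exponent_le (by linarith) hη2
  · have h4 : (Real.log n) ^ (1 + 2 * δ) ≤ d ^ 2 := by
      have h5 : ((Real.log n) ^ (1 / 2 + δ)) ^ 2 = (Real.log n) ^ (1 + 2 * δ) := by
        rw [← Real.rpow_natCast, ← Real.rpow_mul hlogn.le]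
        congr 1
        push_cast
        ring
      rw [← h5]
      exact pow_le_pow_left₀ (by positivity) hd 2
    have h6 : (Real.log n) ^ (1 + 2 * δ) = Real.log n * (Real.log n) ^ (2 * δ) := by
      rw [Real.rpow_add hlogn, Real.rpow_one]
    have h7 : (B + 1) * Real.log n ≤ d ^ 2 / 16 := by
      have h9 : 16 * (B + 1) * Real.log n ≤ d ^ 2 := by
        refine le_trans ?_ h4
        rw [h6, mul_comm]
        exact mul_le_mul_of_nonneg_left g2 hlogn.le
      linarith
    have h8 : 1 / (n : ℝ) ^ (B + 1) = Real.exp (-((B + 1) * Real.log n)) := by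
      have : ((B : ℝ) + 1) * Real.log n = ((B + 1 : ℕ) : ℝ) * Real.log n := by push_cast; ring
      rw [Real.exp_neg, this, Real.exp_nat_mul, Real.exp_log hn0, one_div]
    rw [h8]
    apply Real.exp_le_exp.2
    linarith

/-- a dense set gives a clique minor -/
lemma kt_set {c₀ : ℝ} (hKT : ∀ (V : Type) [Fintype V] (G : SimpleGraph V) (d : ℝ),
      2 ≤ d → 0 < Fintype.card V → d * Fintype.card V ≤ ∑ v, (dg G univ v : ℝ) →
      ∀ m : ℕ, (m : ℝ) ≤ c₀ * d / √(Real.log d) → HasCliqueMinor G m)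
    {V : Type} [Fintype V] (H : SimpleGraph V) (S : Finset V) (hS : S.Nonempty) {x : ℝ}
    (hx : 2 ≤ x) (h : x * S.card ≤ ∑ v ∈ S, (dg H S v : ℝ)) (m : ℕ)
    (hm : (m : ℝ) ≤ c₀ * x / √(Real.log x)) : HasCliqueMinor H m := by
  apply minor_induce H (S : Set V)
  apply hKT _ (H.induce (S : Set V)) x hx
  · rw [Fintype.card_pos_iff]
    obtain ⟨v, hv⟩ := hS
    exact ⟨⟨v, hv⟩⟩
  · have h3 : ∑ v : (S : Set V), (dg (H.induce (S : Set V)) univ v : ℝ) =
        ∑ v ∈ S, (dg H S v : ℝ) := by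
      have h4 : ∀ v : (S : Set V), (dg (H.induce (S : Set V)) univ v : ℝ) = (dg H S v.1 : ℝ) := by
        intro v
        unfold dg
        congr 1
        apply card_bij (fun x _ => x.1)
        · intro x hx
          have h5 : H.Adj v.1 x.1 := ((@mem_filter _ _ (_) _ _).1 hx).2
          rw [mem_filter]
          exact ⟨by exact_mod_cast x.2, h5⟩
        · intro x _ y _ h
          exact Subtype.ext h
        · intro y hy
          rw [mem_filter] at hy
          refine ⟨⟨y, by exact_mod_cast hy.1⟩, ?_, rfl⟩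
          refine (@mem_filter _ _ (_) _ _).2 ⟨mem_univ _, ?_⟩
          exact hy.2
      rw [sum_congr rfl (fun v _ => h4 v)]
      exact sum_coe_sort S (fun v => (dg H S v : ℝ))
    rw [h3]
    have h6 : Fintype.card (S : Set V) = S.card := by simp
    rw [h6]
    exact h
  · exact hm

/-- adversarial deletions -/
lemma dg_del {V : Type} [Fintype V] {H₀ H D' : SimpleGraph V} (h : H₀ \ D' ≤ H) (S : Finset V)
    {b : ℝ} (hb : ∀ v, (dg D' univ v : ℝ) ≤ b) {y : ℝ}
    (hy : y * S.card ≤ ∑ v ∈ S, (dg H₀ S v : ℝ)) :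
    (y - b) * S.card ≤ ∑ v ∈ S, (dg H S v : ℝ) := by
  have h1 : ∀ v ∈ S, (dg H₀ S v : ℝ) - b ≤ (dg H S v : ℝ) := by
    intro v _
    have h2 : dg H₀ S v ≤ dg H S v + dg D' univ v := by
      unfold dg
      refine le_trans (card_le_card ?_) (card_union_le _ _)
      intro u hu
      rw [mem_filter] at hu
      rw [mem_union, mem_filter, mem_filter]
      by_cases hD : D'.Adj v u
      · exact Or.inr ⟨mem_univ _, hD⟩
      · exact Or.inl ⟨hu.1, h ⟨hu.2, hD⟩⟩
    have h3 : (dg H₀ S v : ℝ) ≤ dg H S v + dg D' univ v := by exact_mod_cast h2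
    have h4 := hb v
    linarith
  calc (y - b) * S.card = y * S.card - ∑ _v ∈ S, b := by
        rw [sum_const, nsmul_eq_mul]
        ring
    _ ≤ ∑ v ∈ S, (dg H₀ S v : ℝ) - ∑ _v ∈ S, b := by linarith
    _ = ∑ v ∈ S, ((dg H₀ S v : ℝ) - b) := by rw [sum_sub_distrib]
    _ ≤ _ := sum_le_sum h1

/-- adversarial additions -/
lemma col_add {V : Type} {H₀ H D : SimpleGraph V} (h : H ≤ H₀ ⊔ D) {k r : ℕ}
    (h1 : H₀.Colorable k) (h2 : D.Colorable r) : H.Colorable (k * r) := by
  obtain ⟨c₁⟩ := h1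
  obtain ⟨c₂⟩ := h2
  refine ⟨SimpleGraph.Coloring.mk (fun v => finProdFinEquiv (c₁ v, c₂ v)) ?_⟩
  intro a b hab heq
  have h3 := Prod.mk.inj (finProdFinEquiv.injective heq)
  rcases h hab with h4 | h4
  · exact c₁.valid h4 h3.1
  · exact c₂.valid h4 h3.2

/-- the robust theorem -/
def S_ROB : Prop := ∀ δ : ℝ, 0 < δ → ∃ c : ℝ, 0 < c ∧ ∀ B : ℕ, ∃ n₀ : ℕ,
  ∀ (V : Type) [Fintype V] (p : Sym2 V → ℝ) (ε d : ℝ) (r : ℕ), n₀ ≤ Fintype.card V →
  0 < ε → ε ≤ 1 / 2 → (∀ e, 0 ≤ p e ∧ p e ≤ 1 - ε) →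
  (Real.log (Fintype.card V)) ^ (1 / 2 + δ) ≤ d →
  (∃ S : Finset V, S.Nonempty ∧ ∀ v ∈ S, d ≤ ∑ u ∈ S.erase v, p s(v, u)) →
  r * Real.log (1 / ε) ≤ √(Real.log d) →
  prob p (fun H₀ => ∃ H D D' : SimpleGraph V, (∀ v, (dg D' univ v : ℝ) ≤ d / 8) ∧
    D.Colorable r ∧ H₀ \ D' ≤ H ∧ H ≤ H₀ ⊔ D ∧ ∃ k m : ℕ,
      (m : ℝ) ≤ c * √(Real.log d) / (r * Real.log (1 / ε)) * k ∧ ¬ H.Colorable k ∧
      ¬ HasCliqueMinor H m) ≤ 1 / (Fintype.card V : ℝ) ^ B

set_option maxHeartbeats 4000000 in
theorem t_ROB : S_ROB := by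
  intro δ hδ
  obtain ⟨c₀, hc₀, hKT⟩ := t_KT
  obtain ⟨A, hA0, hA6, hC⟩ := t_CORE (δ / 2) (by positivity)
  refine ⟨c₀ * A / 18, by positivity, ?_⟩
  intro B
  obtain ⟨n₁, hC⟩ := hC (B + 1)
  obtain ⟨n₂, hN⟩ := num_rob δ hδ B
  refine ⟨max n₁ n₂, ?_⟩
  intro V _ p ε d r hn hε0 hε1 hpε hd hS₀ hr
  obtain ⟨q1, q2, q3, q4, q5, q6⟩ := hN (Fintype.card V) ((le_max_right _ _).trans hn) d hd
  set n := Fintype.card V with hndef
  obtain ⟨S₀, hS₀ne, hS₀⟩ := hS₀
  have hp1 : ∀ e, 0 ≤ p e ∧ p e ≤ 1 := fun e => ⟨(hpε e).1, (hpε e).2.trans (by linarith)⟩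
  have hd0 : (0 : ℝ) < d := by linarith
  set L := Real.log (1 / ε) with hL
  have hlog2 : (0.69 : ℝ) < Real.log 2 := by
    have := Real.log_two_gt_d9
    linarith
  have hL2 : 0.69 < L := by
    refine lt_of_lt_of_le hlog2 ?_
    apply Real.log_le_log (by norm_num)
    rw [le_div_iff₀ hε0]
    linarith
  have hL0 : 0 < L := by linarith
  have hlogd : 0 < Real.log d := by linarith
  have hsd : 0 < √(Real.log d) := Real.sqrt_pos.2 hlogd
  have hsd2 : √(Real.log d) * √(Real.log d) = Real.log d := Real.mul_self_sqrt hlogd.le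
  have h1 : Pr (prs univ) p (fun F =>
      ∑ v ∈ S₀, (dg (SimpleGraph.fromEdgeSet (F : Set (Sym2 V))) S₀ v : ℝ) ≤
        d / 2 * S₀.card) ≤ 1 / (n : ℝ) ^ (B + 1) :=
    (dense_core p hp1 hd0.le S₀ hS₀ne hS₀).trans q6
  have h2 := hC V p ε ((le_max_left _ _).trans hn) hε0 hε1 hpε
  rw [t_TRANS]
  obtain ⟨A₁, hA₁⟩ : ∃ A₁ : Finset (Sym2 V) → Prop, A₁ = fun F : Finset (Sym2 V) =>
    ∑ v ∈ S₀, (dg (SimpleGraph.fromEdgeSet (F : Set (Sym2 V))) S₀ v : ℝ) ≤
        d / 2 * S₀.card := ⟨_, rfl⟩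
  obtain ⟨A₂, hA₂⟩ : ∃ A₂ : Finset (Sym2 V) → Prop, A₂ = fun F : Finset (Sym2 V) =>
    ∃ k : ℕ, (Real.log (Fintype.card V)) ^ (1 / 2 + δ / 2) ≤ k ∧
    1 / ε ≤ k ∧ ¬ (SimpleGraph.fromEdgeSet (F : Set (Sym2 V))).Colorable k ∧
    ∀ S : Finset V, S.Nonempty →
      ∑ v ∈ S, (dg (SimpleGraph.fromEdgeSet (F : Set (Sym2 V))) S v : ℝ) ≤
        A * k * Real.log k / Real.log (1 / ε) / 2 * S.card := ⟨_, rfl⟩
  rw [← hA₁] at h1
  rw [← hA₂] at h2
  have h3 : Pr (prs univ) p (fun F => ∃ H D D' : SimpleGraph V,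
      (∀ v, (dg D' univ v : ℝ) ≤ d / 8) ∧ D.Colorable r ∧
      SimpleGraph.fromEdgeSet (F : Set (Sym2 V)) \ D' ≤ H ∧
      H ≤ SimpleGraph.fromEdgeSet (F : Set (Sym2 V)) ⊔ D ∧ ∃ k m : ℕ,
      (m : ℝ) ≤ c₀ * A / 18 * √(Real.log d) / (r * L) * k ∧ ¬ H.Colorable k ∧
      ¬ HasCliqueMinor H m) ≤
      Pr (prs univ) p (fun F => ∃ i ∈ (univ : Finset (Fin 2)), (if i = 0 then A₁ F else A₂ F)) := by
    apply Pr_mono (fun e _ => hp1 e)
    rintro F - ⟨H, D, D', hD', hD, hH1, hH2, k, m, hm, hk, hno⟩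
    obtain ⟨H₀, hH₀⟩ : ∃ H₀, H₀ = SimpleGraph.fromEdgeSet (F : Set (Sym2 V)) := ⟨_, rfl⟩
    rw [← hH₀] at hH1 hH2
    by_cases hgood : A₁ F
    · refine ⟨0, mem_univ _, ?_⟩
      rw [if_pos rfl]
      exact hgood
    refine ⟨1, mem_univ _, ?_⟩
    rw [if_neg (by decide), hA₂]
    rw [hA₁] at hgood
    dsimp only at hgood ⊢
    rw [← hH₀] at hgood ⊢
    push Not at hgood
    -- the minor of the first kind
    have hbig : c₀ * (d / 4) / √(Real.log (d / 4)) < m := by
      by_contra hcon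
      push Not at hcon
      apply hno
      have h4 := dg_del hH1 S₀ hD' hgood.le
      apply kt_set hKT H S₀ hS₀ne (x := d / 4) (by linarith) _ m hcon
      refine le_trans ?_ h4
      apply mul_le_mul_of_nonneg_right _ (by positivity)
      linarith
    have hM : c₀ * d / (4 * √(Real.log d)) ≤ c₀ * (d / 4) / √(Real.log (d / 4)) := by
      have h5 : 0 < √(Real.log (d / 4)) := Real.sqrt_pos.2 (Real.log_pos (by linarith))
      have h6 : √(Real.log (d / 4)) ≤ √(Real.log d) :=
        Real.sqrt_le_sqrt (Real.log_le_log (by linarith) (by linarith))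
      rw [div_le_div_iff₀ (by positivity) h5]
      have : 0 < c₀ * d := by positivity
      nlinarith
    have hm0 : (0 : ℝ) < m := lt_of_le_of_lt (by positivity) hbig
    have hr0 : 0 < r := by
      rcases Nat.eq_zero_or_pos r with h | h
      · exfalso
        rw [h] at hm
        simp at hm
        have : (0 : ℝ) < m := hm0
        rw [hm] at this
        simp at this
      · exact h
    have hr0' : (0 : ℝ) < r := by exact_mod_cast hr0
    have hr1' : (1 : ℝ) ≤ r := by exact_mod_cast hr0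
    set k' := k / r with hk'
    -- `k` is large
    have hk1 : c₀ * d / (4 * √(Real.log d)) < c₀ * A / 18 * √(Real.log d) / (r * L) * k :=
      lt_of_le_of_lt hM (lt_of_lt_of_le hbig hm)
    have hk2 : 9 * d * r * L / (2 * A * Real.log d) < k := by
      rw [div_lt_iff₀ (by positivity)]
      rw [div_lt_iff₀ (by positivity)] at hk1
      have e1 : c₀ * A / 18 * √(Real.log d) / (r * L) * k * (4 * √(Real.log d)) =
          c₀ * A * 2 / 9 * Real.log d * k / (r * L) := by
        calc c₀ * A / 18 * √(Real.log d) / (r * L) * k * (4 * √(Real.log d)) =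
            c₀ * A * 2 / 9 * (√(Real.log d) * √(Real.log d)) * k / (r * L) := by ring
          _ = _ := by rw [hsd2]
      rw [e1, lt_div_iff₀ (by positivity)] at hk1
      have e2 : c₀ * (9 * d * r * L) < c₀ * (k * (2 * A * Real.log d)) := by linarith
      exact lt_of_mul_lt_mul_left e2 hc₀.le
    have hkk : k < r * (k' + 1) := Nat.lt_mul_div_succ k hr0
    have hkk' : (k : ℝ) < r * (k' + 1) := by exact_mod_cast hkk
    obtain ⟨X, hX⟩ : ∃ X : ℝ, X = 9 * d * L / (4 * A * Real.log d) := ⟨_, rfl⟩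
    have hX1 : 9 * (d / Real.log d) ≤ X := by
      rw [hX, ← mul_div_assoc, div_le_div_iff₀ hlogd (by positivity)]
      have e1 : 4 * A ≤ L := by linarith
      have e2 : 0 < 9 * (d * Real.log d) := by positivity
      have e3 := mul_le_mul_of_nonneg_left e1 e2.le
      linarith
    have hdl : 1 ≤ d / Real.log d := by
      rw [le_div_iff₀ hlogd, one_mul]
      have := Real.log_le_sub_one_of_pos hd0
      linarith
    have hk3 : X ≤ k' := by
      have e1 : r * (2 * X) < r * ((k' : ℝ) + 1) := by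
        have e2 : r * (2 * X) = 9 * d * r * L / (2 * A * Real.log d) := by
          rw [hX]
          field_simp
          ring
        rw [e2]
        exact hk2.trans hkk'
      have e3 := lt_of_mul_lt_mul_left e1 hr0'.le
      linarith
    have hk4 : d / Real.log d ≤ k' := by linarith
    have hk5 : √d ≤ k' := q5.trans hk4
    have hk0 : (0 : ℝ) < k' := lt_of_lt_of_le (Real.sqrt_pos.2 hd0) hk5
    have hlogk' : Real.log d / 2 ≤ Real.log k' := by
      rw [← Real.log_sqrt hd0.le]
      exact Real.log_le_log (by positivity) hk5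
    have hL4 : L ≤ Real.log d / 2 := by
      have e1 : L ≤ √(Real.log d) := by
        refine le_trans ?_ hr
        nlinarith
      have e2 : √(Real.log d) * 2 ≤ √(Real.log d) * √(Real.log d) := by
        apply mul_le_mul_of_nonneg_left _ hsd.le
        apply Real.le_sqrt_of_sq_le
        linarith
      linarith
    have hε' : 1 / ε ≤ k' := by
      have e1 : Real.log (1 / ε) ≤ Real.log k' := hL4.trans hlogk'
      exact (Real.log_le_log_iff (by positivity) hk0).1 e1
    refine ⟨k', q4.trans hk4, hε', ?_, ?_⟩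
    · -- `H₀` is not `k'`-colourable
      intro hcol
      apply hk
      exact (col_add hH2 hcol hD).mono (by
        rw [mul_comm]
        exact Nat.mul_div_le k r)
    · -- no dense set
      intro S hS
      by_contra hcon
      push Not at hcon
      apply hno
      set κ := A * k' * Real.log k' / L with hκ
      have hlk : 0 < Real.log (k' : ℝ) := by linarith
      have hκd : d ≤ κ := by
        rw [hκ, le_div_iff₀ hL0]
        calc d * L ≤ A * X * (Real.log d / 2) := by
              rw [hX]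
              have e1 : A * (9 * d * L / (4 * A * Real.log d)) * (Real.log d / 2) =
                  9 / 8 * (d * L) := by
                field_simp
                ring
              rw [e1]
              have : 0 < d * L := by positivity
              linarith
          _ ≤ A * k' * Real.log k' := by
              apply mul_le_mul _ hlogk' (by positivity) (by positivity)
              exact mul_le_mul_of_nonneg_left hk3 hA0.le
      have h4 := dg_del hH1 S hD' hcon.le
      apply kt_set hKT H S hS (x := κ / 4) (by linarith) _ m _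
      · refine le_trans ?_ h4
        apply mul_le_mul_of_nonneg_right _ (by positivity)
        linarith
      · have hk1' : (1 : ℝ) ≤ k' := by linarith
        have hx1 : κ / 4 ≤ (k' : ℝ) ^ 2 := by
          have e1 : Real.log (k' : ℝ) ≤ k' := by
            have := Real.log_le_sub_one_of_pos hk0
            linarith
          rw [hκ, div_div, div_le_iff₀ (by positivity)]
          have e2 : A * k' * Real.log k' ≤ 1 * k' * k' := by
            apply mul_le_mul _ e1 hlk.le (by positivity)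
            apply mul_le_mul_of_nonneg_right _ hk0.le
            linarith
          have e3 : 0 < (k' : ℝ) ^ 2 := by positivity
          nlinarith
        have hlx : 0 < Real.log (κ / 4) := Real.log_pos (by linarith)
        have hsx : √(Real.log (κ / 4)) ≤ 3 / 2 * √(Real.log k') := by
          have e1 : Real.log (κ / 4) ≤ 9 / 4 * Real.log k' := by
            have e2 := Real.log_le_log (by linarith) hx1
            rw [Real.log_pow] at e2
            push_cast at e2
            linarith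
          calc √(Real.log (κ / 4)) ≤ √(9 / 4 * Real.log k') := Real.sqrt_le_sqrt e1
            _ = 3 / 2 * √(Real.log k') := by
                rw [Real.sqrt_mul (by norm_num), show (9 / 4 : ℝ) = (3 / 2) ^ 2 by norm_num,
                  Real.sqrt_sq (by norm_num)]
        have hslk : 0 < √(Real.log (k' : ℝ)) := Real.sqrt_pos.2 hlk
        have hslk2 : √(Real.log (k' : ℝ)) * √(Real.log (k' : ℝ)) = Real.log k' :=
          Real.mul_self_sqrt hlk.le
        have hsdk : 2 / 3 * √(Real.log d) ≤ √(Real.log (k' : ℝ)) := by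
          have e1 : (2 / 3) ^ 2 * Real.log d ≤ Real.log (k' : ℝ) := by nlinarith
          calc 2 / 3 * √(Real.log d) = √((2 / 3) ^ 2 * Real.log d) := by
                rw [Real.sqrt_mul (by norm_num), Real.sqrt_sq (by norm_num)]
            _ ≤ _ := Real.sqrt_le_sqrt e1
        have e5 : (m : ℝ) ≤ c₀ * A / 9 * √(Real.log d) / L * k' := by
          refine hm.trans ?_
          have e6 : (k : ℝ) ≤ r * (2 * k') := by
            refine hkk'.le.trans ?_
            apply mul_le_mul_of_nonneg_left _ hr0'.le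
            linarith
          calc c₀ * A / 18 * √(Real.log d) / (r * L) * k
              ≤ c₀ * A / 18 * √(Real.log d) / (r * L) * (r * (2 * k')) :=
                mul_le_mul_of_nonneg_left e6 (by positivity)
            _ = c₀ * A / 9 * √(Real.log d) / L * k' := by
                field_simp
                ring
        refine e5.trans ?_
        rw [le_div_iff₀ (Real.sqrt_pos.2 hlx)]
        calc c₀ * A / 9 * √(Real.log d) / L * k' * √(Real.log (κ / 4))
            ≤ c₀ * A / 9 * √(Real.log d) / L * k' * (3 / 2 * √(Real.log k')) :=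
              mul_le_mul_of_nonneg_left hsx (by positivity)
          _ = c₀ * A / 4 * k' / L * (2 / 3 * √(Real.log d)) * √(Real.log k') := by ring
          _ ≤ c₀ * A / 4 * k' / L * √(Real.log k') * √(Real.log k') := by
              apply mul_le_mul_of_nonneg_right _ hslk.le
              exact mul_le_mul_of_nonneg_left hsdk (by positivity)
          _ = c₀ * A / 4 * k' / L * (√(Real.log k') * √(Real.log k')) := by ring
          _ = c₀ * (κ / 4) := by
              rw [hslk2, hκ]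
              ring
  refine h3.trans ((Pr_le_sum (fun e _ => hp1 e) _ _).trans ?_)
  rw [Fin.sum_univ_two]
  simp only [if_true, Fin.one_eq_zero_iff, OfNat.ofNat_ne_one, if_false]
  have hn0 : (0 : ℝ) < n := by
    have : 0 < n := by omega
    exact_mod_cast this
  have hn2 : (2 : ℝ) ≤ n := by exact_mod_cast q1
  calc Pr (prs univ) p (fun F => A₁ F) + Pr (prs univ) p (fun F => A₂ F)
      ≤ 1 / (n : ℝ) ^ (B + 1) + 1 / (n : ℝ) ^ (B + 1) := add_le_add h1 h2
    _ = 2 / (n : ℝ) ^ (B + 1) := by ring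
    _ ≤ 1 / (n : ℝ) ^ B := by
        rw [div_le_div_iff₀ (by positivity) (by positivity), pow_succ]
        have : 0 < (n : ℝ) ^ B := by positivity
        nlinarith

end Pool.Agent.J4H23.HR
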