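import Mathlib
import Pool.Agent.J4H23.HR.Robust
import Pool.Agent.J4H23.HR.Host

set_option autoImplicit false

namespace Pool.Agent.J4H23.HR

open Finset Classical Filter

/-- host form of the robust theorem -/
def S_HOSTR : Prop := ∀ δ : ℝ, 0 < δ → ∃ c : ℝ, 0 < c ∧ ∀ B : ℕ, ∃ n₀ : ℕ,
  ∀ (V : Type) [Fintype V] (G : SimpleGraph V) (ε : ℝ) (d r : ℕ), n₀ ≤ Fintype.card V →
  (Real.log (Fintype.card V)) ^ (1 / 2 + δ) ≤ d → ¬ G.Colorable d → 0 < ε → ε ≤ 1 / 2 →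
  r * Real.log (1 / ε) ≤ c * √(Real.log d) →
  prob (thin ε G) (fun H₀ => ∃ H D D' : SimpleGraph V, (∀ v, (dg D' univ v : ℝ) ≤ d / 32) ∧
    D.Colorable r ∧ H₀ \ D' ≤ H ∧ H ≤ H₀ ⊔ D ∧ ∃ k : ℕ, ¬ H.Colorable k ∧
      ¬ HasCliqueMinor H (k + 1)) ≤ 1 / (Fintype.card V : ℝ) ^ B

lemma minor_one {V : Type} (H : SimpleGraph V) (v : V) : HasCliqueMinor H 1 := by
  refine ⟨fun _ => {v}, ?_, ?_, ?_⟩
  · intro _
    rw [SimpleGraph.connected_iff_exists_forall_reachable]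
    refine ⟨⟨v, rfl⟩, ?_⟩
    rintro ⟨w, rfl⟩
    exact SimpleGraph.Reachable.refl _
  · intro i j hij
    exact absurd (Subsingleton.elim i j) hij
  · intro i j hij
    exact absurd (Subsingleton.elim i j) hij

theorem num_hr (δ : ℝ) (hδ : 0 < δ) : ∃ n₀ : ℕ, ∀ n : ℕ, n₀ ≤ n →
    ∀ d : ℕ, (Real.log n) ^ (1 / 2 + δ) ≤ d → (100 : ℝ) ≤ d ∧ 8 ≤ Real.log d ∧
      (Real.log n) ^ (1 / 2 + δ / 2) ≤ ((d : ℝ) - 1 / 2) / 2 := by
  have hlog : Tendsto (fun n : ℕ => Real.log n) atTop atTop :=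
    Real.tendsto_log_atTop.comp tendsto_natCast_atTop_atTop
  have e2 : ∀ᶠ x : ℝ in atTop, (100 : ℝ) ≤ x := eventually_ge_atTop _
  have e3 : ∀ᶠ x : ℝ in atTop, (8 : ℝ) ≤ Real.log x :=
    Real.tendsto_log_atTop.eventually_ge_atTop _
  obtain ⟨d₀, hd₀⟩ := (e2.and e3).exists_forall_of_atTop
  have f1 : ∀ᶠ n : ℕ in atTop, d₀ ≤ (Real.log n) ^ (1 / 2 + δ) :=
    ((tendsto_rpow_atTop (by linarith : 0 < 1 / 2 + δ)).comp hlog).eventually_ge_atTop _
  have f2 : ∀ᶠ n : ℕ in atTop, (4 : ℝ) ≤ (Real.log n) ^ (δ / 2) :=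
    ((tendsto_rpow_atTop (by linarith : 0 < δ / 2)).comp hlog).eventually_ge_atTop _
  have f4 : ∀ᶠ n : ℕ in atTop, (1 : ℝ) ≤ Real.log n := hlog.eventually_ge_atTop _
  obtain ⟨n₀, hn₀⟩ := (f1.and (f2.and f4)).exists_forall_of_atTop
  refine ⟨n₀, ?_⟩
  intro n hn d hd
  obtain ⟨g1, g2, g4⟩ := hn₀ n hn
  obtain ⟨h2, h3⟩ := hd₀ d (g1.trans hd)
  refine ⟨h2, h3, ?_⟩
  have h4 : (Real.log n) ^ (1 / 2 + δ) = (Real.log n) ^ (1 / 2 + δ / 2) * (Real.log n) ^ (δ / 2) := by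
    rw [← Real.rpow_add (by linarith)]
    congr 1
    ring
  have h5 : 0 < (Real.log n) ^ (1 / 2 + δ / 2) := Real.rpow_pos_of_pos (by linarith) _
  rw [h4] at hd
  nlinarith

theorem t_HOSTR : S_HOSTR := by
  intro δ hδ
  obtain ⟨c₁, hc₁, hR⟩ := t_ROB (δ / 2) (by positivity)
  refine ⟨min (c₁ / 4) (1 / 2), by positivity, ?_⟩
  intro B
  obtain ⟨n₁, hR⟩ := hR B
  obtain ⟨n₂, hN⟩ := num_hr δ hδ
  refine ⟨max (max n₁ n₂) 1, ?_⟩
  intro V _ G ε d r hn hd hcol hε0 hε1 hr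
  have hn1 : n₁ ≤ Fintype.card V := (le_max_left _ _).trans ((le_max_left _ _).trans hn)
  have hn2 : n₂ ≤ Fintype.card V := (le_max_right _ _).trans ((le_max_left _ _).trans hn)
  have hn3 : 1 ≤ Fintype.card V := (le_max_right _ _).trans hn
  obtain ⟨q1, q2, q3⟩ := hN _ hn2 d hd
  have hpε : ∀ e, 0 ≤ thin ε G e ∧ thin ε G e ≤ 1 - ε := by
    intro e
    unfold thin
    split_ifs
    · exact ⟨by linarith, le_rfl⟩
    · exact ⟨le_rfl, by linarith⟩
  have hp1 : ∀ e, 0 ≤ thin ε G e ∧ thin ε G e ≤ 1 :=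
    fun e => ⟨(hpε e).1, (hpε e).2.trans (by linarith)⟩
  have hd1 : 1 ≤ d := by
    have : (1 : ℝ) ≤ d := by linarith
    exact_mod_cast this
  set d' : ℝ := ((d : ℝ) - 1 / 2) / 2 with hd'
  have hS : ∃ S : Finset V, S.Nonempty ∧ ∀ v ∈ S, d' ≤ ∑ u ∈ S.erase v, thin ε G s(v, u) := by
    rcases dich (thin ε G) d' univ with hdeg | ⟨S, -, hSne, hS⟩
    · exfalso
      apply hcol
      obtain ⟨c, hc⟩ := deg_col G hε1 hd1 hdeg
      exact ⟨SimpleGraph.Coloring.mk c (fun {a b} hab => hc a (mem_univ _) b (mem_univ _) hab)⟩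
    · exact ⟨S, hSne, fun v hv => (hS v hv).le⟩
  have hL0 : 0 < Real.log (1 / ε) := by
    apply Real.log_pos
    rw [lt_div_iff₀ hε0]
    linarith
  have hsd : √(Real.log d) ≤ 2 * √(Real.log d') := by
    have e1 : Real.log d ≤ 2 ^ 2 * Real.log d' := by
      have e2 : Real.log d - Real.log 4 ≤ Real.log d' := by
        rw [← Real.log_div (by linarith) (by norm_num)]
        apply Real.log_le_log
        · linarith
        · rw [hd']
          linarith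
      have e3 : Real.log 4 ≤ 3 := by
        have := Real.log_le_sub_one_of_pos (show (0 : ℝ) < 4 by norm_num)
        linarith
      linarith
    calc √(Real.log d) ≤ √(2 ^ 2 * Real.log d') := Real.sqrt_le_sqrt e1
      _ = 2 * √(Real.log d') := by
          rw [Real.sqrt_mul (by norm_num), Real.sqrt_sq (by norm_num)]
  have hs0 : 0 ≤ √(Real.log (d : ℝ)) := Real.sqrt_nonneg _
  have hr1 : r * Real.log (1 / ε) ≤ √(Real.log d') := by
    refine hr.trans ?_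
    have := mul_le_mul_of_nonneg_right (min_le_right (c₁ / 4) (1 / 2 : ℝ)) hs0
    linarith
  have hr2 : 2 * (r * Real.log (1 / ε)) ≤ c₁ * √(Real.log d') := by
    have e1 := mul_le_mul_of_nonneg_right (min_le_left (c₁ / 4) (1 / 2 : ℝ)) hs0
    have e2 := mul_le_mul_of_nonneg_left hsd hc₁.le
    linarith
  have h1 := hR V (thin ε G) ε d' r hn1 hε0 hε1 hpε q3 hS hr1
  refine le_trans ?_ h1
  rw [t_TRANS, t_TRANS]
  apply Pr_mono (fun e _ => hp1 e)
  rintro F - ⟨H, D, D', hD', hD, hH1, hH2, k, hk, hno⟩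
  refine ⟨H, D, D', ?_, hD, hH1, hH2, k, k + 1, ?_, hk, hno⟩
  · intro v
    refine (hD' v).trans ?_
    rw [hd']
    linarith
  · have hr0 : 0 < r := by
      rcases Nat.eq_zero_or_pos r with h | h
      · exfalso
        rw [h] at hD
        obtain ⟨c⟩ := hD
        obtain ⟨v⟩ := Fintype.card_pos_iff.1 hn3
        exact (c v).elim0
      · exact h
    have hr0' : (0 : ℝ) < r := by exact_mod_cast hr0
    have hk1 : 1 ≤ k := by
      rcases Nat.eq_zero_or_pos k with h | h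
      · exfalso
        obtain ⟨v⟩ := Fintype.card_pos_iff.1 hn3
        apply hno
        rw [h]
        exact minor_one H v
      · exact h
    have hk1' : (1 : ℝ) ≤ k := by exact_mod_cast hk1
    have hrL : 0 < r * Real.log (1 / ε) := by positivity
    rw [div_mul_eq_mul_div, le_div_iff₀ hrL]
    push_cast
    calc ((k : ℝ) + 1) * (r * Real.log (1 / ε)) ≤ (2 * k) * (r * Real.log (1 / ε)) := by
          apply mul_le_mul_of_nonneg_right _ hrL.le
          linarith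
      _ = (2 * (r * Real.log (1 / ε))) * k := by ring
      _ ≤ c₁ * √(Real.log d') * k := mul_le_mul_of_nonneg_right hr2 (by linarith)

end Pool.Agent.J4H23.HR
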